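import Pool.Agent.W958.KFH

/-!
# The algorithm for `{C₄, 2K₂}`-free edge editing, and its optimality
-/

set_option autoImplicit false

namespace Pool.Agent.W958

open Pool.Agent.NPC Pool.Agent.H633R2 Finset

/-- adjacency test -/
def adjB (M : List (List Bool)) (i j : ℕ) : Bool := !(decide (i = j)) && (entry M i j || entry M j i)

/-- Is the pair `i, j` to be edited, for the vertices `c` of the five-cycle (if any), the edges `e`
of the five-cycle and the clique `κ`? -/
def mism (A : ℕ → ℕ → Bool) (c : List ℕ) (e : List (ℕ × ℕ)) (κ : ℕ → Bool) (i j : ℕ) : Bool :=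
  if i = j then false else
  if i ∈ c then (if j ∈ c then xor (A i j) (decide ((i, j) ∈ e ∨ (j, i) ∈ e)) else xor (A i j) (κ j))
  else if j ∈ c then xor (A i j) (κ i)
  else if κ i = κ j then xor (A i j) (κ i) else false

/-- twice the number of edits -/
def cost2 (n : ℕ) (A : ℕ → ℕ → Bool) (c : List ℕ) (e : List (ℕ × ℕ)) (κ : ℕ → Bool) : ℕ :=
  ((List.range n).map fun i => ((List.range n).filter fun j => mism A c e κ i j).length).sum

/-- the weight of a vertex -/
def wt (n : ℕ) (A : ℕ → ℕ → Bool) (c : List ℕ) (v : ℕ) : ℕ :=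
  ((List.range n).filter fun j => A v j).length + (c.filter fun j => A v j).length

/-- the candidates for the clique -/
def kap (n : ℕ) (A : ℕ → ℕ → Bool) (c : List ℕ) (bt : Bool × ℕ) (v : ℕ) : Bool :=
  bt.1 && (!(decide (v ∈ c)) && (decide (wt n A c bt.2 < wt n A c v) ||
    (decide (wt n A c bt.2 = wt n A c v) && decide (bt.2 ≤ v))))

/-- the value of a bit -/
def bv (b : Bool) : ℤ := if b then 1 else 0

theorem filter_length_range (n : ℕ) (p : ℕ → Bool) :
    (((List.range n).filter p).length : ℤ) = ∑ j ∈ range n, bv (p j) := by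
  induction n with
  | zero => simp
  | succ n ih =>
    rw [List.range_succ, List.filter_append, List.length_append, Finset.sum_range_succ]
    push_cast
    rw [ih]
    congr 1
    cases h : p n <;> simp [bv, h]

theorem sum_map_range (n : ℕ) (f : ℕ → ℕ) :
    ((List.range n).map f).sum = ∑ j ∈ range n, f j := by
  induction n with
  | zero => simp
  | succ n ih =>
    rw [List.range_succ, List.map_append, List.sum_append, Finset.sum_range_succ, ih]
    simp

theorem cost2_eq (n : ℕ) (A : ℕ → ℕ → Bool) (c : List ℕ) (e : List (ℕ × ℕ)) (κ : ℕ → Bool) :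
    (cost2 n A c e κ : ℤ) = ∑ i ∈ range n, ∑ j ∈ range n, bv (mism A c e κ i j) := by
  unfold cost2
  rw [sum_map_range]
  push_cast
  exact Finset.sum_congr rfl fun i _ => filter_length_range _ _

/-- the pointwise formula for the cost -/
theorem mism_formula (A : ℕ → ℕ → Bool) (hA : ∀ i, A i i = false)
    (c : List ℕ) (e : List (ℕ × ℕ)) (κ : ℕ → Bool) (hκ : ∀ i ∈ c, κ i = false) (i j : ℕ) :
    bv (mism A c e κ i j) = bv (κ i) * bv (κ j) + bv (decide (i ∈ c)) * bv (κ j) +
      bv (decide (j ∈ c)) * bv (κ i) - bv (κ i) * (bv (A i j) * (1 + bv (decide (j ∈ c)))) -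
      bv (κ j) * (bv (A i j) * (1 + bv (decide (i ∈ c)))) + bv (mism A c e (fun _ => false) i j)
      - (if i = j then bv (κ i) else 0) := by
  unfold mism
  by_cases hij : i = j
  · subst hij
    rw [hA]
    by_cases hi : i ∈ c
    · rw [hκ i hi]; simp [bv]
    · cases κ i <;> simp [bv, hi]
  · by_cases hi : i ∈ c
    · by_cases hj : j ∈ c
      · simp [hij, hi, hj, hκ i hi, hκ j hj, bv]
      · simp only [hij, hi, hj, hκ i hi, if_true, if_false, decide_true, decide_false]
        cases κ j <;> cases A i j <;> simp [bv]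
    · by_cases hj : j ∈ c
      · simp only [hij, hi, hj, hκ j hj, if_true, if_false, decide_true, decide_false]
        cases κ i <;> cases A i j <;> simp [bv]
      · simp only [hij, hi, hj, if_true, if_false, decide_true, decide_false]
        cases κ i <;> cases κ j <;> cases A i j <;> simp [bv]

theorem filter_length_list (n : ℕ) (c : List ℕ) (hc : c.Nodup) (hcn : ∀ i ∈ c, i < n)
    (p : ℕ → Bool) :
    ((c.filter p).length : ℤ) = ∑ j ∈ range n, bv (decide (j ∈ c)) * bv (p j) := by
  have h1 : (c.filter p).length = ((range n).filter (fun j => j ∈ c ∧ p j = true)).card := by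
    have h2 : (c.filter p).toFinset = (range n).filter (fun j => j ∈ c ∧ p j = true) := by
      ext j
      simp only [List.mem_toFinset, List.mem_filter, Finset.mem_filter, Finset.mem_range]
      constructor
      · rintro ⟨h, h'⟩
        exact ⟨hcn j h, h, h'⟩
      · rintro ⟨-, h⟩
        exact h
    rw [← h2, List.toFinset_card_of_nodup (hc.filter _)]
  rw [h1, Finset.card_filter]
  push_cast
  refine Finset.sum_congr rfl fun j _ => ?_
  by_cases h : j ∈ c <;> cases h' : p j <;> simp [bv, h, h']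

theorem wt_eq (n : ℕ) (A : ℕ → ℕ → Bool) (c : List ℕ) (hc : c.Nodup) (hcn : ∀ i ∈ c, i < n)
    (v : ℕ) : (wt n A c v : ℤ) = ∑ j ∈ range n, bv (A v j) * (1 + bv (decide (j ∈ c))) := by
  unfold wt
  push_cast
  rw [filter_length_range, filter_length_list n c hc hcn, ← Finset.sum_add_distrib]
  exact Finset.sum_congr rfl fun j _ => by ring

/-- the formula for the cost -/
theorem cost_formula (n : ℕ) (A : ℕ → ℕ → Bool) (hA : ∀ i, A i i = false)
    (hs : ∀ i j, A i j = A j i)
    (c : List ℕ) (hc : c.Nodup) (hcn : ∀ i ∈ c, i < n) (e : List (ℕ × ℕ)) (κ : ℕ → Bool)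
    (hκ : ∀ i ∈ c, κ i = false) :
    (cost2 n A c e κ : ℤ) = (∑ i ∈ range n, bv (κ i)) ^ 2 +
      2 * ((∑ i ∈ range n, bv (decide (i ∈ c))) * ∑ i ∈ range n, bv (κ i)) -
      2 * ∑ i ∈ range n, bv (κ i) * (wt n A c i : ℤ) + (cost2 n A c e (fun _ => false) : ℤ) -
      ∑ i ∈ range n, bv (κ i) := by
  have h1 : ∑ i ∈ range n, ∑ j ∈ range n, bv (κ i) * bv (κ j) = (∑ i ∈ range n, bv (κ i)) ^ 2 := by
    rw [sq, Finset.sum_mul_sum]
  have h2 : ∑ i ∈ range n, ∑ j ∈ range n, bv (decide (i ∈ c)) * bv (κ j) =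
      (∑ i ∈ range n, bv (decide (i ∈ c))) * ∑ i ∈ range n, bv (κ i) := by
    rw [Finset.sum_mul_sum]
  have h3 : ∑ i ∈ range n, ∑ j ∈ range n, bv (decide (j ∈ c)) * bv (κ i) =
      (∑ i ∈ range n, bv (decide (i ∈ c))) * ∑ i ∈ range n, bv (κ i) := by
    rw [Finset.sum_comm, h2]
  have h4 : ∑ i ∈ range n, ∑ j ∈ range n, bv (κ i) * (bv (A i j) * (1 + bv (decide (j ∈ c)))) =
      ∑ i ∈ range n, bv (κ i) * (wt n A c i : ℤ) := by
    refine Finset.sum_congr rfl fun i _ => ?_
    rw [wt_eq n A c hc hcn, Finset.mul_sum]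
  have h5 : ∑ i ∈ range n, ∑ j ∈ range n, bv (κ j) * (bv (A i j) * (1 + bv (decide (i ∈ c)))) =
      ∑ i ∈ range n, bv (κ i) * (wt n A c i : ℤ) := by
    rw [Finset.sum_comm, ← h4]
    refine Finset.sum_congr rfl fun i _ => Finset.sum_congr rfl fun j _ => ?_
    rw [hs j i]
  have h6 : ∑ i ∈ range n, ∑ j ∈ range n, (if i = j then bv (κ i) else 0) =
      ∑ i ∈ range n, bv (κ i) := by
    refine Finset.sum_congr rfl fun i hi => ?_
    rw [Finset.sum_ite_eq, if_pos hi]
  rw [cost2_eq, cost2_eq]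
  simp only [mism_formula A hA c e κ hκ]
  simp only [Finset.sum_add_distrib, Finset.sum_sub_distrib]
  rw [h1, h2, h3, h4, h5, h6]
  ring

end Pool.Agent.W958
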