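import Pool.Agent.W958.KTest
import Pool.Agent.H671R2.PolyAuto
import Pool.Agent.NPC.Dec

/-!
# The test runs in polynomial time
-/

set_option autoImplicit false

namespace Pool.Agent.W958

open Pool.Agent.NPC Pool.Agent.H633R2

variable {α : Type} [TEnc α]

theorem poly_adjB {M : α → List (List Bool)} {i j : α → ℕ} (hM : Poly M) (hi : Poly i)
    (hj : Poly j) : Poly (fun a => adjB (M a) (i a) (j a)) := by
  unfold adjB entry
  fun_prop

theorem poly_wt {M : α → List (List Bool)} {c : α → List ℕ} {v : α → ℕ} (hM : Poly M)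
    (hc : Poly c) (hv : Poly v) : Poly (fun a => wt (M a).length (adjB (M a)) (c a) (v a)) := by
  unfold wt
  have hr : Poly (fun a => List.range (M a).length) := (UPoly.length hM).range
  refine NPC.Poly.add (NPC.Poly.length (NPC.Poly.filter (p := fun a j => adjB (M a) (v a) j) hr ?_))
    (NPC.Poly.length (NPC.Poly.filter (p := fun a j => adjB (M a) (v a) j) hc ?_))
  · exact poly_adjB (hM.comp (NPC.Poly.fst NPC.Poly.id)) (hv.comp (NPC.Poly.fst NPC.Poly.id))
      (NPC.Poly.snd NPC.Poly.id)
  · exact poly_adjB (hM.comp (NPC.Poly.fst NPC.Poly.id)) (hv.comp (NPC.Poly.fst NPC.Poly.id))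
      (NPC.Poly.snd NPC.Poly.id)

theorem poly_kap {M : α → List (List Bool)} {c : α → List ℕ} {bt : α → Bool × ℕ}
    {v : α → ℕ} (hM : Poly M)
    (hc : Poly c) (hbt : Poly bt) (hv : Poly v) :
    Poly (fun a => kap (M a).length (adjB (M a)) (c a) (bt a) (v a)) := by
  have h1 := poly_wt hM hc hv
  have h2 := poly_wt hM hc (NPC.Poly.snd hbt)
  unfold kap
  fun_prop

theorem poly_mism {A : α → Bool} {c : α → List ℕ} {e : α → List (ℕ × ℕ)} {ki kj : α → Bool}
    {i j : α → ℕ} (hA : Poly A) (hc : Poly c) (he : Poly e) (hki : Poly ki) (hkj : Poly kj)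
    (hi : Poly i) (hj : Poly j) :
    Poly (fun a => if i a = j a then false else
      if i a ∈ c a then (if j a ∈ c a then xor (A a) (decide ((i a, j a) ∈ e a ∨ (j a, i a) ∈ e a))
        else xor (A a) (kj a))
      else if j a ∈ c a then xor (A a) (ki a)
      else if ki a = kj a then xor (A a) (ki a) else false) := by
  fun_prop

theorem poly_cost {M : α → List (List Bool)} {c : α → List ℕ} {e : α → List (ℕ × ℕ)}
    {bt : α → Bool × ℕ} (hM : Poly M) (hc : Poly c) (he : Poly e) (hb : Poly bt) :
    Poly (fun a => cost2 (M a).length (adjB (M a)) (c a) (e a)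
      (kap (M a).length (adjB (M a)) (c a) (bt a))) := by
  unfold cost2
  have hr : Poly (fun a => List.range (M a).length) := (UPoly.length hM).range
  refine NPC.Poly.sum (NPC.Poly.map (F := fun a i => ((List.range (M a).length).filter fun j =>
    mism (adjB (M a)) (c a) (e a) (kap (M a).length (adjB (M a)) (c a) (bt a)) i j).length)
    hr ?_)
  refine NPC.Poly.length (NPC.Poly.filter (l := fun p : α × ℕ => List.range (M p.1).length)
    (p := fun p j => mism (adjB (M p.1)) (c p.1) (e p.1)
      (kap (M p.1).length (adjB (M p.1)) (c p.1) (bt p.1)) p.2 j)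
    (hr.comp (NPC.Poly.fst NPC.Poly.id)) ?_)
  have g : Poly (fun p : (α × ℕ) × ℕ => p.1.1) := NPC.Poly.fst (NPC.Poly.fst NPC.Poly.id)
  have gi : Poly (fun p : (α × ℕ) × ℕ => p.1.2) := NPC.Poly.snd (NPC.Poly.fst NPC.Poly.id)
  have gj : Poly (fun p : (α × ℕ) × ℕ => p.2) := NPC.Poly.snd NPC.Poly.id
  exact poly_mism (poly_adjB (hM.comp g) gi gj) (hc.comp g) (he.comp g)
    (poly_kap (hM.comp g) (hc.comp g) (hb.comp g) gi)
    (poly_kap (hM.comp g) (hc.comp g) (hb.comp g) gj) gi gj

theorem poly_cands {M : α → List (List Bool)} (hM : Poly M) :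
    Poly (fun a => cands (M a).length) := by
  unfold cands
  have hr : Poly (fun a => List.range (M a).length) := (UPoly.length hM).range
  generalize hr' : (fun a => List.range (M a).length) = r at hr
  have : (fun a => (([], []) : List ℕ × List (ℕ × ℕ)) ::
      (List.range (M a).length).flatMap fun a_1 =>
        (List.range (M a).length).flatMap fun b =>
          (List.range (M a).length).flatMap fun c =>
            (List.range (M a).length).flatMap fun d =>
              (List.range (M a).length).flatMap fun e =>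
                if (a_1 ≠ b ∧ a_1 ≠ c ∧ a_1 ≠ d ∧ a_1 ≠ e ∧ b ≠ c ∧ b ≠ d ∧ b ≠ e ∧ c ≠ d ∧ c ≠ e ∧
                    d ≠ e) then
                  [([a_1, b, c, d, e], [(a_1, b), (b, c), (c, d), (d, e), (e, a_1)])] else []) =
      (fun a => (([], []) : List ℕ × List (ℕ × ℕ)) ::
      (r a).flatMap fun a_1 =>
        (r a).flatMap fun b =>
          (r a).flatMap fun c =>
            (r a).flatMap fun d =>
              (r a).flatMap fun e =>
                if (a_1 ≠ b ∧ a_1 ≠ c ∧ a_1 ≠ d ∧ a_1 ≠ e ∧ b ≠ c ∧ b ≠ d ∧ b ≠ e ∧ c ≠ d ∧ c ≠ e ∧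
                    d ≠ e) then
                  [([a_1, b, c, d, e], [(a_1, b), (b, c), (c, d), (d, e), (e, a_1)])] else []) := by
    rw [← hr']
  rw [this]
  fun_prop

/-- the cost of a candidate -/
def costC (p : ((List (List Bool) × ℕ) × (List ℕ × List (ℕ × ℕ))) × (Bool × ℕ)) : ℕ :=
  cost2 p.1.1.1.length (adjB p.1.1.1) p.1.2.1 p.1.2.2 (kap p.1.1.1.length (adjB p.1.1.1) p.1.2.1 p.2)

theorem poly_costC : Poly costC := by
  have g : Poly (fun p : ((List (List Bool) × ℕ) × (List ℕ × List (ℕ × ℕ))) × (Bool × ℕ) =>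
      p.1.1.1) := by fun_prop
  have g2 : Poly (fun p : ((List (List Bool) × ℕ) × (List ℕ × List (ℕ × ℕ))) × (Bool × ℕ) =>
      p.1.2.1) := by fun_prop
  have g3 : Poly (fun p : ((List (List Bool) × ℕ) × (List ℕ × List (ℕ × ℕ))) × (Bool × ℕ) =>
      p.1.2.2) := by fun_prop
  have g4 : Poly (fun p : ((List (List Bool) × ℕ) × (List ℕ × List (ℕ × ℕ))) × (Bool × ℕ) =>
      p.2) := by fun_prop
  exact poly_cost g g2 g3 g4

theorem test_eq (x : List (List Bool) × ℕ) : test x = (cands x.1.length).any fun ce =>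
    ((false, 0) :: (List.range x.1.length).map (fun θ => (true, θ))).any fun bt =>
      decide (costC ((x, ce), bt) ≤ 2 * x.2) := rfl

theorem poly_test : Poly test := by
  have hM : Poly (fun x : List (List Bool) × ℕ => x.1) := NPC.Poly.fst NPC.Poly.id
  have hr : Poly (fun x : List (List Bool) × ℕ => List.range x.1.length) := (UPoly.length hM).range
  have hl : Poly (fun x : List (List Bool) × ℕ =>
      (false, 0) :: (List.range x.1.length).map (fun θ => (true, θ))) :=
    NPC.Poly.cons (NPC.Poly.const _) (NPC.Poly.map (F := fun _ θ => (true, θ)) hr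
      (NPC.Poly.pair (NPC.Poly.const _) (NPC.Poly.snd NPC.Poly.id)))
  have hd : Poly (fun p : ((List (List Bool) × ℕ) × (List ℕ × List (ℕ × ℕ))) × (Bool × ℕ) =>
      decide (costC p ≤ 2 * p.1.1.2)) :=
    NPC.Poly.decide_le poly_costC (by fun_prop)
  have ha : Poly (fun p : (List (List Bool) × ℕ) × (List ℕ × List (ℕ × ℕ)) =>
      ((false, 0) :: (List.range p.1.1.length).map (fun θ => (true, θ))).any fun bt =>
        decide (costC (p, bt) ≤ 2 * p.1.2)) :=
    NPC.Poly.any (p := fun (p : (List (List Bool) × ℕ) × (List ℕ × List (ℕ × ℕ))) bt =>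
      decide (costC (p, bt) ≤ 2 * p.1.2)) (hl.comp (NPC.Poly.fst NPC.Poly.id)) hd
  have hb : Poly (fun x : List (List Bool) × ℕ => (cands x.1.length).any fun ce =>
      ((false, 0) :: (List.range x.1.length).map (fun θ => (true, θ))).any fun bt =>
        decide (costC ((x, ce), bt) ≤ 2 * x.2)) :=
    NPC.Poly.any (p := fun (x : List (List Bool) × ℕ) ce =>
      ((false, 0) :: (List.range x.1.length).map (fun θ => (true, θ))).any fun bt =>
        decide (costC ((x, ce), bt) ≤ 2 * x.2)) (poly_cands hM) ha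
  exact hb.congr fun x => (test_eq x).symm

theorem editing_inPP : InPP (Editing {C4, twoK2}) := inPP_of poly_test fun x => (test_iff x).symm

end Pool.Agent.W958
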