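import Pool.Agent.W958.KCore

/-!
# The propagation system of the core
-/

set_option autoImplicit false

namespace Pool.Agent.W958

variable {L E l : ℕ} {ed : ℕ → ℕ → ℕ × ℕ}

/-- The conditions on the set `X` of the vertices which are not adjacent to the hub. -/
structure Sys (L E : ℕ) (ed : ℕ → ℕ → ℕ × ℕ) (X : Co → Prop) : Prop where
  root : X root
  sent : ∀ x, Val L E x → x.1 = 2 ∨ x.1 = 4 → ¬ X x
  prop : ∀ w u v, Val L E w → Val L E u → Val L E v → X w → adB ed w u = true →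
    adB ed w v = true → ¬ X u → ¬ X v → u = v

/-- `S` covers all edges of the graph at the leaf `h`. -/
def Cov (E : ℕ) (ed : ℕ → ℕ → ℕ × ℕ) (h : ℕ) (S : Finset ℕ) : Prop :=
  ∀ e < E, (ed h e).1 ∈ S ∨ (ed h e).2 ∈ S

theorem val_tree {h : ℕ} (hE : 0 < E) (h1 : 1 ≤ h) (h2 : h < 2 * L) : Val L E (1, h, 0) :=
  ⟨by norm_num, h2, hE, by rw [okB_iff]; simp [h1]⟩

theorem val_two {h : ℕ} (hE : 0 < E) (h1 : L ≤ h) (h2 : h < 2 * L) : Val L E (2, h, 0) :=
  ⟨by norm_num, h2, hE, by rw [okB_iff]; simp [h1]⟩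

theorem val_three {s h e : ℕ} (hs : 3 ≤ s) (hs' : s < 7) (he : e < E) (h1 : L ≤ h)
    (h2 : h < 2 * L) : Val L E (s, h, e) :=
  ⟨hs', h2, he, by rw [okB_iff]; simp [h1, hs]⟩

/-- From a solution of the system to a leaf and a cover. -/
theorem sys_fwd (hL : L = 2 ^ l) (hE : 0 < E) (hS : Simp L E ed) {X : Co → Prop}
    (h : Sys L E ed X) {K : ℕ}
    (hcard : ∀ W : Finset Co, (∀ x ∈ W, Val L E x ∧ X x ∧ x ≠ root) → W.card ≤ l + 2 * E + K) :
    ∃ h S, L ≤ h ∧ h < 2 * L ∧ Cov E ed h S ∧ S.card ≤ K := by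
  classical
  -- the path
  have hpath : ∀ j ≤ l, ∃ h, 2 ^ j ≤ h ∧ h < 2 * 2 ^ j ∧ ∀ i ≤ j, X (1, h / 2 ^ i, 0) := by
    intro j
    induction j with
    | zero =>
      intro _
      refine ⟨1, by norm_num, by norm_num, fun i hi => ?_⟩
      have : i = 0 := by omega
      subst this
      exact h.root
    | succ j ih =>
      intro hj
      obtain ⟨g, hg1, hg2, hg3⟩ := ih (by omega)
      have hgX : X (1, g, 0) := by simpa using hg3 0 (by omega)
      have hlt : 2 * 2 ^ j ≤ L := by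
        rw [hL, ← pow_succ']
        exact Nat.pow_le_pow_right (by norm_num) hj
      have h1g : 1 ≤ g := le_trans Nat.one_le_two_pow hg1
      have key : X (1, 2 * g, 0) ∨ X (1, 2 * g + 1, 0) := by
        by_contra hno
        push Not at hno
        have := h.prop (1, g, 0) (1, 2 * g, 0) (1, 2 * g + 1, 0)
          (val_tree hE h1g (by omega)) (val_tree hE (by omega) (by omega))
          (val_tree hE (by omega) (by omega)) hgX
          (by rw [adB_iff]; right; rw [parB_iff]; left; simp)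
          (by rw [adB_iff]; right; rw [parB_iff]; left; simp; omega) hno.1 hno.2
        simp at this
      have hstep : ∀ c, c / 2 = g → X (1, c, 0) → ∃ h, 2 ^ (j + 1) ≤ h ∧ h < 2 * 2 ^ (j + 1) ∧
          ∀ i ≤ j + 1, X (1, h / 2 ^ i, 0) := by
        intro c hc hX
        refine ⟨c, by rw [pow_succ]; omega, by rw [pow_succ]; omega, fun i hi => ?_⟩
        rcases Nat.eq_zero_or_pos i with rfl | hpos
        · simpa using hX
        · obtain ⟨i', rfl⟩ : ∃ i', i = i' + 1 := ⟨i - 1, by omega⟩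
          have := hg3 i' (by omega)
          rw [← hc, Nat.div_div_eq_div_mul, ← pow_succ'] at this
          exact this
      rcases key with hX | hX
      · exact hstep _ (by omega) hX
      · exact hstep _ (by omega) hX
  obtain ⟨g, hg1, hg2, hg3⟩ := hpath l le_rfl
  rw [← hL] at hg1 hg2
  have hLpos : 1 ≤ L := hL ▸ Nat.one_le_two_pow
  have hgX : X (1, g, 0) := by simpa using hg3 0 (by omega)
  have h3X : ∀ e < E, X (3, g, e) := by
    intro e he
    by_contra hno
    have := h.prop (1, g, 0) (2, g, 0) (3, g, e) (val_tree hE (by omega) hg2)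
      (val_two hE hg1 hg2) (val_three (by norm_num) (by norm_num) he hg1 hg2) hgX
      (by rw [adB_iff]; right; rw [parB_iff]; right; left; simp)
      (by rw [adB_iff]; right; rw [parB_iff]; right; right; left; simp)
      (h.sent _ (val_two hE hg1 hg2) (Or.inl rfl)) hno
    simp at this
  have h5X : ∀ e < E, X (5, g, e) := by
    intro e he
    by_contra hno
    have := h.prop (3, g, e) (4, g, e) (5, g, e)
      (val_three (by norm_num) (by norm_num) he hg1 hg2)
      (val_three (by norm_num) (by norm_num) he hg1 hg2)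
      (val_three (by norm_num) (by norm_num) he hg1 hg2) (h3X e he)
      (by rw [adB_iff]; right; rw [parB_iff]; right; right; right; left; simp)
      (by rw [adB_iff]; right; rw [parB_iff]; right; right; right; right; left; simp)
      (h.sent _ (val_three (by norm_num) (by norm_num) he hg1 hg2) (Or.inr rfl)) hno
    simp at this
  have h6X : ∀ e < E, X (6, g, (ed g e).1) ∨ X (6, g, (ed g e).2) := by
    intro e he
    obtain ⟨hne, hlt1, hlt2, -⟩ := hS g hg1 hg2 e he
    by_contra hno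
    push Not at hno
    have := h.prop (5, g, e) (6, g, (ed g e).1) (6, g, (ed g e).2)
      (val_three (by norm_num) (by norm_num) he hg1 hg2)
      (val_three (by norm_num) (by norm_num) hlt1 hg1 hg2)
      (val_three (by norm_num) (by norm_num) hlt2 hg1 hg2) (h5X e he)
      (by rw [adB_iff]; right; rw [parB_iff]; right; right; right; right; right; simp)
      (by rw [adB_iff]; right; rw [parB_iff]; right; right; right; right; right; simp)
      hno.1 hno.2
    simp only [Prod.mk.injEq, true_and] at this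
    exact hne this
  set S : Finset ℕ := (Finset.range E).filter (fun u => X (6, g, u)) with hSdef
  refine ⟨g, S, hg1, hg2, ?_, ?_⟩
  · intro e he
    obtain ⟨-, hlt1, hlt2, -⟩ := hS g hg1 hg2 e he
    rcases h6X e he with hX | hX
    · left
      rw [hSdef, Finset.mem_filter, Finset.mem_range]
      exact ⟨hlt1, hX⟩
    · right
      rw [hSdef, Finset.mem_filter, Finset.mem_range]
      exact ⟨hlt2, hX⟩
  · set W1 : Finset Co := (Finset.range l).image (fun i => (1, g / 2 ^ i, 0)) with hW1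
    set W2 : Finset Co := (Finset.range E).image (fun e => (3, g, e)) with hW2
    set W3 : Finset Co := (Finset.range E).image (fun e => (5, g, e)) with hW3
    set W4 : Finset Co := S.image (fun u => (6, g, u)) with hW4
    have t1 : ∀ x ∈ W1, x.1 = 1 := by
      intro x hx
      obtain ⟨i, -, rfl⟩ := Finset.mem_image.1 hx
      rfl
    have t2 : ∀ x ∈ W2, x.1 = 3 := by
      intro x hx
      obtain ⟨i, -, rfl⟩ := Finset.mem_image.1 hx
      rfl
    have t3 : ∀ x ∈ W3, x.1 = 5 := by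
      intro x hx
      obtain ⟨i, -, rfl⟩ := Finset.mem_image.1 hx
      rfl
    have t4 : ∀ x ∈ W4, x.1 = 6 := by
      intro x hx
      obtain ⟨i, -, rfl⟩ := Finset.mem_image.1 hx
      rfl
    -- the ancestors are different
    have hdiv : ∀ i ≤ l, 2 ^ (l - i) ≤ g / 2 ^ i ∧ g / 2 ^ i < 2 * 2 ^ (l - i) := by
      intro i hi
      have e1 : 2 ^ l = 2 ^ (l - i) * 2 ^ i := by
        rw [← pow_add, Nat.sub_add_cancel hi]
      constructor
      · rw [Nat.le_div_iff_mul_le (by positivity), ← e1, ← hL]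
        exact hg1
      · rw [Nat.div_lt_iff_lt_mul (by positivity), mul_assoc, ← e1, ← hL]
        exact hg2
    have hinj : Set.InjOn (fun i => ((1, g / 2 ^ i, 0) : Co)) (Finset.range l) := by
      intro i hi j hj hij
      simp only [Prod.mk.injEq, true_and, and_true] at hij
      rw [Finset.mem_coe, Finset.mem_range] at hi hj
      obtain ⟨a1, a2⟩ := hdiv i hi.le
      obtain ⟨b1, b2⟩ := hdiv j hj.le
      rw [hij] at a1 a2
      by_contra hne
      rcases Nat.lt_or_gt_of_ne hne with h | h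
      · have : 2 * 2 ^ (l - j) ≤ 2 ^ (l - i) := by
          rw [← pow_succ']
          exact Nat.pow_le_pow_right (by norm_num) (by omega)
        omega
      · have : 2 * 2 ^ (l - i) ≤ 2 ^ (l - j) := by
          rw [← pow_succ']
          exact Nat.pow_le_pow_right (by norm_num) (by omega)
        omega
    have c1 : W1.card = l := by
      rw [hW1, Finset.card_image_of_injOn hinj, Finset.card_range]
    have c2 : W2.card = E := by
      rw [hW2, Finset.card_image_of_injective _ (fun a b h => by simpa using h), Finset.card_range]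
    have c3 : W3.card = E := by
      rw [hW3, Finset.card_image_of_injective _ (fun a b h => by simpa using h), Finset.card_range]
    have c4 : W4.card = S.card := by
      rw [hW4, Finset.card_image_of_injective _ (fun a b h => by simpa using h)]
    have hall := hcard (((W1 ∪ W2) ∪ W3) ∪ W4) (by
      intro x hx
      simp only [Finset.mem_union] at hx
      rcases hx with ((hx | hx) | hx) | hx
      · obtain ⟨i, hi, rfl⟩ := Finset.mem_image.1 hx
        rw [Finset.mem_range] at hi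
        obtain ⟨a1, a2⟩ := hdiv i hi.le
        have h2 : 2 ≤ 2 ^ (l - i) := by
          calc 2 = 2 ^ 1 := rfl
            _ ≤ 2 ^ (l - i) := Nat.pow_le_pow_right (by norm_num) (by omega)
        have h3 : g / 2 ^ i ≤ g := Nat.div_le_self _ _
        refine ⟨val_tree hE (by omega) (by omega), hg3 i hi.le, ?_⟩
        intro hr
        simp only [root, Prod.mk.injEq, true_and, and_true] at hr
        omega
      · obtain ⟨e, he, rfl⟩ := Finset.mem_image.1 hx
        rw [Finset.mem_range] at he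
        exact ⟨val_three (by norm_num) (by norm_num) he hg1 hg2, h3X e he, by simp [root]⟩
      · obtain ⟨e, he, rfl⟩ := Finset.mem_image.1 hx
        rw [Finset.mem_range] at he
        exact ⟨val_three (by norm_num) (by norm_num) he hg1 hg2, h5X e he, by simp [root]⟩
      · obtain ⟨u, hu, rfl⟩ := Finset.mem_image.1 hx
        rw [hSdef, Finset.mem_filter, Finset.mem_range] at hu
        exact ⟨val_three (by norm_num) (by norm_num) hu.1 hg1 hg2, hu.2, by simp [root]⟩)
    rw [Finset.card_union_of_disjoint, Finset.card_union_of_disjoint,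
      Finset.card_union_of_disjoint, c1, c2, c3, c4] at hall
    · omega
    · rw [Finset.disjoint_left]
      intro x hx hx'
      have := t1 x hx
      have := t2 x hx'
      omega
    · rw [Finset.disjoint_left]
      intro x hx hx'
      have h1 := t3 x hx'
      rcases Finset.mem_union.1 hx with h | h
      · have := t1 x h
        omega
      · have := t2 x h
        omega
    · rw [Finset.disjoint_left]
      intro x hx hx'
      have h1 := t4 x hx'
      rcases Finset.mem_union.1 hx with h | h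
      · rcases Finset.mem_union.1 h with h | h
        · have := t1 x h
          omega
        · have := t2 x h
          omega
      · have := t3 x h
        omega

/-- The set `X` belonging to a leaf and a cover. -/
def XX (l h : ℕ) (S : Finset ℕ) (x : Co) : Prop :=
  (x.1 = 1 ∧ ∃ i ≤ l, x.2.1 = h / 2 ^ i) ∨ (x.1 = 3 ∧ x.2.1 = h) ∨ (x.1 = 5 ∧ x.2.1 = h) ∨
    (x.1 = 6 ∧ x.2.1 = h ∧ x.2.2 ∈ S)

theorem sys_bwd (hL : L = 2 ^ l) {h : ℕ} {S : Finset ℕ} (h1 : L ≤ h)
    (h2 : h < 2 * L) (hC : Cov E ed h S) : Sys L E ed (XX l h S) := by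
  have hLpos : 1 ≤ L := hL ▸ Nat.one_le_two_pow
  have hdl : h / 2 ^ l = 1 := by
    rw [← hL]
    exact Nat.div_eq_of_lt_le (by omega) (by omega)
  refine ⟨?_, ?_, ?_⟩
  · left
    exact ⟨rfl, l, le_rfl, hdl.symm⟩
  · rintro x - hx hX
    unfold XX at hX
    omega
  · intro w u v hw hu hv hX hwu hwv hXu hXv
    obtain ⟨-, hw1, hw2, hw3⟩ := hw
    obtain ⟨-, hu1, hu2, hu3⟩ := hu
    obtain ⟨-, hv1, hv2, hv3⟩ := hv
    rw [okB_iff] at hw3 hu3 hv3
    rw [adB_iff, parB_iff, parB_iff] at hwu hwv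
    rcases hX with ⟨hw, i, hi, hwi⟩ | ⟨hw, hwh⟩ | ⟨hw, hwh⟩ | ⟨hw, hwh, hwS⟩
    · -- a tree node
      -- the parent is in `X`
      have hpar : ∀ y : Co, y.1 = 1 → w.2.1 / 2 = y.2.1 → 1 ≤ y.2.1 → XX l h S y := by
        intro y hy1 hy2 hy3
        left
        refine ⟨hy1, i + 1, ?_, ?_⟩
        · by_contra hlt
          have : i = l := by omega
          subst this
          rw [hdl] at hwi
          omega
        · rw [← hy2, hwi, Nat.div_div_eq_div_mul, pow_succ]
      rcases Nat.eq_zero_or_pos i with h0 | hpos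
      · subst h0
        simp only [pow_zero, Nat.div_one] at hwi
        have key : ∀ y : Co, y.2.1 < 2 * L → ((y.1 = 0 ∧ y.2.1 = 0 ∧ y.2.2 = 0) ∨
            (y.1 = 1 ∧ 1 ≤ y.2.1 ∧ y.2.2 = 0) ∨ (y.1 = 2 ∧ L ≤ y.2.1 ∧ y.2.2 = 0) ∨
              (3 ≤ y.1 ∧ L ≤ y.2.1)) → ¬ XX l h S y →
            (((w.1 = 1 ∧ y.1 = 1 ∧ w.2.1 / 2 = y.2.1) ∨ (w.1 = 2 ∧ y.1 = 1 ∧ w.2.1 = y.2.1) ∨
              (w.1 = 3 ∧ y.1 = 1 ∧ w.2.1 = y.2.1) ∨ (w.1 = 4 ∧ y.1 = 3 ∧ w.2 = y.2) ∨
              (w.1 = 5 ∧ y.1 = 3 ∧ w.2 = y.2) ∨ (w.1 = 6 ∧ y.1 = 5 ∧ w.2.1 = y.2.1 ∧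
                (w.2.2 = (ed y.2.1 y.2.2).1 ∨ w.2.2 = (ed y.2.1 y.2.2).2))) ∨
            ((y.1 = 1 ∧ w.1 = 1 ∧ y.2.1 / 2 = w.2.1) ∨ (y.1 = 2 ∧ w.1 = 1 ∧ y.2.1 = w.2.1) ∨
              (y.1 = 3 ∧ w.1 = 1 ∧ y.2.1 = w.2.1) ∨ (y.1 = 4 ∧ w.1 = 3 ∧ y.2 = w.2) ∨
              (y.1 = 5 ∧ w.1 = 3 ∧ y.2 = w.2) ∨ (y.1 = 6 ∧ w.1 = 5 ∧ y.2.1 = w.2.1 ∧
                (y.2.2 = (ed w.2.1 w.2.2).1 ∨ y.2.2 = (ed w.2.1 w.2.2).2)))) → y = (2, h, 0) := by
          intro y hy1 hy3 hyX hadj
          rcases hadj with (h | h | h | h | h | h) | (h | h | h | h | h | h)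
          · exact absurd (hpar y h.2.1 h.2.2 (by omega)) hyX
          · omega
          · omega
          · omega
          · omega
          · omega
          · omega
          · apply co_ext <;> simp <;> omega
          · exact absurd (Or.inr (Or.inl ⟨h.1, by omega⟩)) hyX
          · omega
          · omega
          · omega
        rw [key u hu1 hu3 hXu hwu, key v hv1 hv3 hXv hwv]
      · obtain ⟨i', rfl⟩ : ∃ i', i = i' + 1 := ⟨i - 1, by omega⟩
        have hd : h / 2 ^ i' / 2 = w.2.1 := by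
          rw [hwi, Nat.div_div_eq_div_mul, pow_succ]
        have hwL : w.2.1 < L := by
          rw [← hd]
          have : h / 2 ^ i' ≤ h := Nat.div_le_self _ _
          omega
        have key : ∀ y : Co, y.2.1 < 2 * L → ((y.1 = 0 ∧ y.2.1 = 0 ∧ y.2.2 = 0) ∨
            (y.1 = 1 ∧ 1 ≤ y.2.1 ∧ y.2.2 = 0) ∨ (y.1 = 2 ∧ L ≤ y.2.1 ∧ y.2.2 = 0) ∨
              (3 ≤ y.1 ∧ L ≤ y.2.1)) → ¬ XX l h S y →
            (((w.1 = 1 ∧ y.1 = 1 ∧ w.2.1 / 2 = y.2.1) ∨ (w.1 = 2 ∧ y.1 = 1 ∧ w.2.1 = y.2.1) ∨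
              (w.1 = 3 ∧ y.1 = 1 ∧ w.2.1 = y.2.1) ∨ (w.1 = 4 ∧ y.1 = 3 ∧ w.2 = y.2) ∨
              (w.1 = 5 ∧ y.1 = 3 ∧ w.2 = y.2) ∨ (w.1 = 6 ∧ y.1 = 5 ∧ w.2.1 = y.2.1 ∧
                (w.2.2 = (ed y.2.1 y.2.2).1 ∨ w.2.2 = (ed y.2.1 y.2.2).2))) ∨
            ((y.1 = 1 ∧ w.1 = 1 ∧ y.2.1 / 2 = w.2.1) ∨ (y.1 = 2 ∧ w.1 = 1 ∧ y.2.1 = w.2.1) ∨
              (y.1 = 3 ∧ w.1 = 1 ∧ y.2.1 = w.2.1) ∨ (y.1 = 4 ∧ w.1 = 3 ∧ y.2 = w.2) ∨
              (y.1 = 5 ∧ w.1 = 3 ∧ y.2 = w.2) ∨ (y.1 = 6 ∧ w.1 = 5 ∧ y.2.1 = w.2.1 ∧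
                (y.2.2 = (ed w.2.1 w.2.2).1 ∨ y.2.2 = (ed w.2.1 w.2.2).2)))) →
            y.1 = 1 ∧ y.2.2 = 0 ∧ y.2.1 / 2 = w.2.1 ∧ y.2.1 ≠ h / 2 ^ i' := by
          intro y hy1 hy3 hyX hadj
          rcases hadj with (h | h | h | h | h | h) | (h | h | h | h | h | h)
          · exact absurd (hpar y h.2.1 h.2.2 (by omega)) hyX
          · omega
          · omega
          · omega
          · omega
          · omega
          · refine ⟨h.1, by omega, h.2.2, fun hh => hyX (Or.inl ⟨h.1, i', by omega, hh⟩)⟩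
          · omega
          · omega
          · omega
          · omega
          · omega
        obtain ⟨u1, u2, u3, u4⟩ := key u hu1 hu3 hXu hwu
        obtain ⟨v1, v2, v3, v4⟩ := key v hv1 hv3 hXv hwv
        apply co_ext <;> omega
    · -- `(3, h, e)`
      have key : ∀ y : Co, ¬ XX l h S y →
            (((w.1 = 1 ∧ y.1 = 1 ∧ w.2.1 / 2 = y.2.1) ∨ (w.1 = 2 ∧ y.1 = 1 ∧ w.2.1 = y.2.1) ∨
              (w.1 = 3 ∧ y.1 = 1 ∧ w.2.1 = y.2.1) ∨ (w.1 = 4 ∧ y.1 = 3 ∧ w.2 = y.2) ∨
              (w.1 = 5 ∧ y.1 = 3 ∧ w.2 = y.2) ∨ (w.1 = 6 ∧ y.1 = 5 ∧ w.2.1 = y.2.1 ∧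
                (w.2.2 = (ed y.2.1 y.2.2).1 ∨ w.2.2 = (ed y.2.1 y.2.2).2))) ∨
            ((y.1 = 1 ∧ w.1 = 1 ∧ y.2.1 / 2 = w.2.1) ∨ (y.1 = 2 ∧ w.1 = 1 ∧ y.2.1 = w.2.1) ∨
              (y.1 = 3 ∧ w.1 = 1 ∧ y.2.1 = w.2.1) ∨ (y.1 = 4 ∧ w.1 = 3 ∧ y.2 = w.2) ∨
              (y.1 = 5 ∧ w.1 = 3 ∧ y.2 = w.2) ∨ (y.1 = 6 ∧ w.1 = 5 ∧ y.2.1 = w.2.1 ∧
                (y.2.2 = (ed w.2.1 w.2.2).1 ∨ y.2.2 = (ed w.2.1 w.2.2).2)))) →
            y.1 = 4 ∧ y.2 = w.2 := by
        intro y hyX hadj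
        rcases hadj with (h | h | h | h | h | h) | (h | h | h | h | h | h)
        · omega
        · omega
        · refine absurd (Or.inl ⟨h.2.1, 0, by omega, ?_⟩) hyX
          simp; omega
        · omega
        · omega
        · omega
        · omega
        · omega
        · omega
        · exact ⟨h.1, h.2.2⟩
        · refine absurd (Or.inr (Or.inr (Or.inl ⟨h.1, ?_⟩))) hyX
          rw [h.2.2]; exact hwh
        · omega
      obtain ⟨u1, u2⟩ := key u hXu hwu
      obtain ⟨v1, v2⟩ := key v hXv hwv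
      exact Prod.ext (u1.trans v1.symm) (u2.trans v2.symm)
    · -- `(5, h, e)`
      have key : ∀ y : Co, ¬ XX l h S y →
            (((w.1 = 1 ∧ y.1 = 1 ∧ w.2.1 / 2 = y.2.1) ∨ (w.1 = 2 ∧ y.1 = 1 ∧ w.2.1 = y.2.1) ∨
              (w.1 = 3 ∧ y.1 = 1 ∧ w.2.1 = y.2.1) ∨ (w.1 = 4 ∧ y.1 = 3 ∧ w.2 = y.2) ∨
              (w.1 = 5 ∧ y.1 = 3 ∧ w.2 = y.2) ∨ (w.1 = 6 ∧ y.1 = 5 ∧ w.2.1 = y.2.1 ∧
                (w.2.2 = (ed y.2.1 y.2.2).1 ∨ w.2.2 = (ed y.2.1 y.2.2).2))) ∨
            ((y.1 = 1 ∧ w.1 = 1 ∧ y.2.1 / 2 = w.2.1) ∨ (y.1 = 2 ∧ w.1 = 1 ∧ y.2.1 = w.2.1) ∨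
              (y.1 = 3 ∧ w.1 = 1 ∧ y.2.1 = w.2.1) ∨ (y.1 = 4 ∧ w.1 = 3 ∧ y.2 = w.2) ∨
              (y.1 = 5 ∧ w.1 = 3 ∧ y.2 = w.2) ∨ (y.1 = 6 ∧ w.1 = 5 ∧ y.2.1 = w.2.1 ∧
                (y.2.2 = (ed w.2.1 w.2.2).1 ∨ y.2.2 = (ed w.2.1 w.2.2).2)))) →
            y.1 = 6 ∧ y.2.1 = h ∧ y.2.2 ∉ S ∧
              (y.2.2 = (ed w.2.1 w.2.2).1 ∨ y.2.2 = (ed w.2.1 w.2.2).2) := by
        intro y hyX hadj
        rcases hadj with (h | h | h | h | h | h) | (h | h | h | h | h | h)
        · omega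
        · omega
        · omega
        · omega
        · refine absurd (Or.inr (Or.inl ⟨h.2.1, ?_⟩)) hyX
          rw [← h.2.2]; exact hwh
        · omega
        · omega
        · omega
        · omega
        · omega
        · omega
        · have e1 := h.2.2.1.trans hwh
          exact ⟨h.1, e1, fun hS => hyX (Or.inr (Or.inr (Or.inr ⟨h.1, e1, hS⟩))), h.2.2.2⟩
      obtain ⟨u1, u2, u3, u4⟩ := key u hXu hwu
      obtain ⟨v1, v2, v3, v4⟩ := key v hXv hwv
      apply co_ext (u1.trans v1.symm) (u2.trans v2.symm)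
      have hc := hC w.2.2 hw2
      rw [hwh] at u4 v4
      rcases hc with hc | hc
      · rcases u4 with u4 | u4
        · exact absurd (u4 ▸ hc) u3
        · rcases v4 with v4 | v4
          · exact absurd (v4 ▸ hc) v3
          · rw [u4, v4]
      · rcases u4 with u4 | u4
        · rcases v4 with v4 | v4
          · rw [u4, v4]
          · exact absurd (v4 ▸ hc) v3
        · exact absurd (u4 ▸ hc) u3
    · -- `(6, h, u)`
      exfalso
      rcases hwu with (h | h | h | h | h | h) | (h | h | h | h | h | h)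
      · omega
      · omega
      · omega
      · omega
      · omega
      · exact hXu (Or.inr (Or.inr (Or.inl ⟨h.2.1, by omega⟩)))
      · omega
      · omega
      · omega
      · omega
      · omega
      · omega

/-- The elements of `XX` apart from the root. -/
theorem xx_card (hL : L = 2 ^ l) {h : ℕ} {S : Finset ℕ} (h1 : L ≤ h) (h2 : h < 2 * L) :
    ∃ W : Finset Co, W.card ≤ l + 2 * E + S.card ∧
      ∀ x, Val L E x → XX l h S x → x ≠ root → x ∈ W := by
  classical
  have hdl : h / 2 ^ l = 1 := by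
    rw [← hL]
    have hLpos : 1 ≤ L := hL ▸ Nat.one_le_two_pow
    exact Nat.div_eq_of_lt_le (by omega) (by omega)
  refine ⟨(((Finset.range l).image (fun i => (1, h / 2 ^ i, 0)) ∪
    (Finset.range E).image (fun e => (3, h, e))) ∪ (Finset.range E).image (fun e => (5, h, e))) ∪
    S.image (fun u => (6, h, u)), ?_, ?_⟩
  · refine (Finset.card_union_le _ _).trans ?_
    have a1 := Finset.card_union_le ((Finset.range l).image (fun i => ((1, h / 2 ^ i, 0) : Co)) ∪
      (Finset.range E).image (fun e => ((3, h, e) : Co)))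
      ((Finset.range E).image (fun e => ((5, h, e) : Co)))
    have a2 := Finset.card_union_le ((Finset.range l).image (fun i => ((1, h / 2 ^ i, 0) : Co)))
      ((Finset.range E).image (fun e => ((3, h, e) : Co)))
    have b1 := Finset.card_image_le (s := Finset.range l) (f := fun i => ((1, h / 2 ^ i, 0) : Co))
    have b2 := Finset.card_image_le (s := Finset.range E) (f := fun e => ((3, h, e) : Co))
    have b3 := Finset.card_image_le (s := Finset.range E) (f := fun e => ((5, h, e) : Co))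
    have b4 := Finset.card_image_le (s := S) (f := fun u => ((6, h, u) : Co))
    rw [Finset.card_range] at b1 b2 b3
    omega
  · rintro x ⟨-, hx1, hx2, hx3⟩ hX hr
    rw [okB_iff] at hx3
    simp only [Finset.mem_union, Finset.mem_image, Finset.mem_range]
    rcases hX with ⟨hw, i, hi, hwi⟩ | ⟨hw, hwh⟩ | ⟨hw, hwh⟩ | ⟨hw, hwh, hwS⟩
    · left; left; left
      refine ⟨i, ?_, co_ext hw.symm hwi.symm (by simp; omega)⟩
      by_contra hlt
      have : i = l := by omega
      subst this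
      rw [hdl] at hwi
      exact hr (co_ext hw hwi (by simp [root]; omega))
    · left; left; right
      exact ⟨x.2.2, hx2, co_ext hw.symm hwh.symm rfl⟩
    · left; right
      exact ⟨x.2.2, hx2, co_ext hw.symm hwh.symm rfl⟩
    · right
      exact ⟨x.2.2, hwS, co_ext hw.symm hwh.symm rfl⟩

end Pool.Agent.W958
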