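import Pool.Agent.H671R2.CK.CDefs
import Pool.Agent.NPC.Sat2
import Pool.Agent.W958.KSys

/-!
# 3SAT as a vertex cover problem
-/

set_option autoImplicit false

namespace Pool.Agent.W958

open Pool.Agent.NPC Pool.Agent.CK

/-- the literal number `i` of a formula -/
def litF (φ : Form) (i : ℕ) : Lit ℕ :=
  if i % 3 = 0 then (φ.getD (i / 3) ((true, 0), (false, 0), (true, 0))).1 else
    if i % 3 = 1 then (φ.getD (i / 3) ((true, 0), (false, 0), (true, 0))).2.1 else
      (φ.getD (i / 3) ((true, 0), (false, 0), (true, 0))).2.2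

/-- the edges of the graph of a formula with `m` clauses -/
def edF (m : ℕ) (φ : Form) (e : ℕ) : ℕ × ℕ :=
  if e < 3 * m then (2 * e, 2 * e + 1) else
    if e < 6 * m then
      (6 * m + (e - 3 * m), 6 * m + (3 * ((e - 3 * m) / 3) + ((e - 3 * m) % 3 + 1) % 3)) else
      (6 * m + (e - 6 * m), rowOf (litF φ (e - 6 * m)))

theorem litF_lt {m : ℕ} {φ : Form} (h : Norm m φ) {i : ℕ} (hi : i < 3 * m) :
    (litF φ i).2 < 3 * m := by
  have h1 : i / 3 < φ.length := by rw [h.2.1]; omega
  have h2 : φ.getD (i / 3) ((true, 0), (false, 0), (true, 0)) = φ[i / 3] := by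
    rw [List.getD_eq_getElem?_getD, List.getElem?_eq_getElem h1]; rfl
  have h3 := h.2.2 _ (List.getElem_mem h1)
  unfold litF
  rw [h2]
  split_ifs
  · exact h3.1
  · exact h3.2.1
  · exact h3.2.2

theorem rowOf_lt {m : ℕ} {l : Lit ℕ} (h : l.2 < 3 * m) : rowOf l < 6 * m := by
  unfold rowOf
  split_ifs <;> omega

theorem edF_simp {m : ℕ} {φ : Form} (h : Norm m φ) {e : ℕ} (he : e < 9 * m) :
    (edF m φ e).1 ≠ (edF m φ e).2 ∧ (edF m φ e).1 < 9 * m ∧ (edF m φ e).2 < 9 * m ∧
    ∀ e' < 9 * m, e ≠ e' → ¬ (((edF m φ e).1 = (edF m φ e').1 ∨ (edF m φ e).1 = (edF m φ e').2) ∧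
      ((edF m φ e).2 = (edF m φ e').1 ∨ (edF m φ e).2 = (edF m φ e').2)) := by
  have key : ∀ e < 9 * m,
      (e < 3 * m ∧ (edF m φ e).1 = 2 * e ∧ (edF m φ e).2 = 2 * e + 1) ∨
      (3 * m ≤ e ∧ e < 6 * m ∧ (edF m φ e).1 = 6 * m + (e - 3 * m) ∧
        (edF m φ e).2 = 6 * m + (3 * ((e - 3 * m) / 3) + ((e - 3 * m) % 3 + 1) % 3)) ∨
      (6 * m ≤ e ∧ (edF m φ e).1 = 6 * m + (e - 6 * m) ∧ (edF m φ e).2 < 6 * m) := by
    intro e he
    unfold edF
    split_ifs with h1 h2
    · exact Or.inl ⟨h1, rfl, rfl⟩
    · exact Or.inr (Or.inl ⟨by omega, h2, rfl, rfl⟩)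
    · exact Or.inr (Or.inr ⟨by omega, rfl, rowOf_lt (litF_lt h (by omega))⟩)
  have h1 := key e he
  refine ⟨?_, ?_, ?_, ?_⟩
  · omega
  · omega
  · omega
  · intro e' he' hne
    have h2 := key e' he'
    rcases h1 with ⟨a1, a2, a3⟩ | ⟨a1, a2, a3, a4⟩ | ⟨a1, a2, a3⟩ <;>
      rcases h2 with ⟨b1, b2, b3⟩ | ⟨b1, b2, b3, b4⟩ | ⟨b1, b2, b3⟩
    · omega
    · omega
    · omega
    · omega
    · generalize (edF m φ e).1 = x1 at *
      generalize (edF m φ e).2 = x2 at *
      generalize (edF m φ e').1 = y1 at *
      generalize (edF m φ e').2 = y2 at *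
      omega
    · omega
    · omega
    · omega
    · omega

/-- a cover of the graph of a formula -/
def CovF (m : ℕ) (φ : Form) (S : Finset ℕ) : Prop :=
  ∀ e < 9 * m, (edF m φ e).1 ∈ S ∨ (edF m φ e).2 ∈ S

theorem sat_of_cov {m : ℕ} {φ : Form} (h : Norm m φ) {S : Finset ℕ} (hC : CovF m φ S)
    (hS : S.card ≤ 5 * m) : SAT3 φ := by
  classical
  -- the blocks
  let g : ℕ → ℕ := fun x => if x < 6 * m then x / 2 else 3 * m + (x - 6 * m) / 3
  let T := S.filter (· < 9 * m)
  let w : ℕ → ℕ := fun i => if i < 3 * m then 1 else 2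
  have hmaps : ∀ x ∈ T, g x ∈ Finset.range (4 * m) := by
    intro x hx
    have := (Finset.mem_filter.1 hx).2
    rw [Finset.mem_range]
    simp only [g]
    split_ifs <;> omega
  have hsum := Finset.card_eq_sum_card_fiberwise hmaps
  have hT : T.card ≤ 5 * m := (Finset.card_filter_le _ _).trans hS
  have hw : ∑ i ∈ Finset.range (4 * m), w i = 5 * m := by
    have e1 : 4 * m = 3 * m + m := by ring
    rw [e1, Finset.sum_range_add]
    have e2 : ∑ i ∈ Finset.range (3 * m), w i = 3 * m := by
      rw [Finset.sum_congr rfl (g := fun _ => 1)]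
      · simp
      · intro i hi
        simp only [w]
        rw [if_pos (Finset.mem_range.1 hi)]
    have e3 : ∑ i ∈ Finset.range m, w (3 * m + i) = 2 * m := by
      rw [Finset.sum_congr rfl (g := fun _ => 2)]
      · simp [mul_comm]
      · intro i hi
        simp only [w]
        rw [if_neg (by omega)]
    rw [e2, e3]
    ring
  have hfib : ∀ i ∈ Finset.range (4 * m), w i ≤ (T.filter fun x => g x = i).card := by
    intro i hi
    rw [Finset.mem_range] at hi
    simp only [w]
    split_ifs with h3
    · -- a variable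
      rw [Nat.succ_le_iff, Finset.card_pos]
      have := hC i (by omega)
      unfold edF at this
      rw [if_pos h3] at this
      rcases this with h4 | h4
      · refine ⟨2 * i, ?_⟩
        simp only [T, g, Finset.mem_filter]
        refine ⟨⟨h4, by omega⟩, ?_⟩
        rw [if_pos (by omega)]
        omega
      · refine ⟨2 * i + 1, ?_⟩
        simp only [T, g, Finset.mem_filter]
        refine ⟨⟨h4, by omega⟩, ?_⟩
        rw [if_pos (by omega)]
        omega
    · -- a clause
      obtain ⟨j, rfl⟩ : ∃ j, i = 3 * m + j := ⟨i - 3 * m, by omega⟩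
      have hj : j < m := by omega
      have hmem : ∀ a < 3, 6 * m + (3 * j + a) ∈ S →
          6 * m + (3 * j + a) ∈ T.filter fun x => g x = 3 * m + j := by
        intro a ha hx
        simp only [T, g, Finset.mem_filter]
        refine ⟨⟨hx, by omega⟩, ?_⟩
        rw [if_neg (by omega)]
        omega
      have hc : ∀ a < 3, 6 * m + (3 * j + a) ∈ S ∨ 6 * m + (3 * j + (a + 1) % 3) ∈ S := by
        intro a ha
        have := hC (3 * m + (3 * j + a)) (by omega)
        unfold edF at this
        rw [if_neg (by omega), if_pos (by omega)] at this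
        have e1 : 3 * m + (3 * j + a) - 3 * m = 3 * j + a := by omega
        have e2 : (3 * j + a) / 3 = j := by omega
        have e3 : (3 * j + a) % 3 = a := by omega
        rw [e1, e2, e3] at this
        exact this
      have two : ∀ x y, x ∈ T.filter (fun x => g x = 3 * m + j) →
          y ∈ T.filter (fun x => g x = 3 * m + j) → x ≠ y →
          2 ≤ (T.filter fun x => g x = 3 * m + j).card := by
        intro x y hx hy hxy
        exact Finset.one_lt_card.2 ⟨x, hx, y, hy, hxy⟩
      have c0 := hc 0 (by omega)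
      have c1 := hc 1 (by omega)
      have c2 := hc 2 (by omega)
      simp only [Nat.zero_add, Nat.reduceAdd, Nat.reduceMod] at c0 c1 c2
      have m0 := hmem 0 (by omega)
      have m1 := hmem 1 (by omega)
      have m2 := hmem 2 (by omega)
      rcases c0 with c0 | c0
      · rcases c1 with c1 | c1
        · exact two _ _ (m0 c0) (m1 c1) (by omega)
        · exact two _ _ (m0 c0) (m2 c1) (by omega)
      · rcases c2 with c2 | c2
        · exact two _ _ (m1 c0) (m2 c2) (by omega)
        · exact two _ _ (m1 c0) (m0 c2) (by omega)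
  have heq : ∀ i ∈ Finset.range (4 * m), w i = (T.filter fun x => g x = i).card := by
    refine (Finset.sum_eq_sum_iff_of_le hfib).1 (le_antisymm (Finset.sum_le_sum hfib) ?_)
    rw [hw, ← hsum]
    exact hT
  -- the assignment
  refine ⟨fun v => decide (2 * v ∈ S), ?_⟩
  intro c hc
  obtain ⟨j, hj, rfl⟩ := List.getElem_of_mem hc
  rw [h.2.1] at hj
  have hone : ∀ v < 3 * m, ¬ (2 * v ∈ S ∧ 2 * v + 1 ∈ S) := by
    rintro v hv ⟨h1, h2⟩
    have h3 := heq v (Finset.mem_range.2 (by omega))
    simp only [w] at h3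
    rw [if_pos hv] at h3
    have h4 : 1 < (T.filter fun x => g x = v).card := by
      refine Finset.one_lt_card.2 ⟨2 * v, ?_, 2 * v + 1, ?_, by omega⟩
      · simp only [T, g, Finset.mem_filter]
        refine ⟨⟨h1, by omega⟩, ?_⟩
        rw [if_pos (by omega)]
        omega
      · simp only [T, g, Finset.mem_filter]
        refine ⟨⟨h2, by omega⟩, ?_⟩
        rw [if_pos (by omega)]
        omega
    omega
  have hlit : ∀ l : Lit ℕ, l.2 < 3 * m → rowOf l ∈ S → decide (2 * l.2 ∈ S) = l.1 := by
    rintro ⟨b, v⟩ hv hr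
    cases b
    · simp only [rowOf] at hr
      have := hone v hv
      simp only [decide_eq_false_iff_not]
      intro h5
      exact this ⟨h5, hr⟩
    · simp only [rowOf] at hr
      simpa using hr
  -- a clause vertex outside the cover
  have hout : ∃ a < 3, 6 * m + (3 * j + a) ∉ S := by
    by_contra hno
    push Not at hno
    have h3 := heq (3 * m + j) (Finset.mem_range.2 (by omega))
    simp only [w] at h3
    rw [if_neg (by omega)] at h3
    have h4 : 2 < (T.filter fun x => g x = 3 * m + j).card := by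
      rw [Finset.two_lt_card]
      have hmem : ∀ a < 3, 6 * m + (3 * j + a) ∈ T.filter fun x => g x = 3 * m + j := by
        intro a ha
        simp only [T, g, Finset.mem_filter]
        refine ⟨⟨hno a ha, by omega⟩, ?_⟩
        rw [if_neg (by omega)]
        omega
      exact ⟨_, hmem 0 (by omega), _, hmem 1 (by omega), _, hmem 2 (by omega), by omega, by omega,
        by omega⟩
    omega
  obtain ⟨a, ha, hout⟩ := hout
  have h5 := hC (6 * m + (3 * j + a)) (by omega)
  unfold edF at h5
  rw [if_neg (by omega), if_neg (by omega)] at h5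
  have e1 : 6 * m + (3 * j + a) - 6 * m = 3 * j + a := by omega
  rw [e1] at h5
  have h6 := h5.resolve_left hout
  have h7 := hlit _ (litF_lt h (by omega)) h6
  have e2 : (3 * j + a) / 3 = j := by omega
  have e3 : (3 * j + a) % 3 = a := by omega
  have hj' : j < φ.length := by rw [h.2.1]; exact hj
  have e4 : φ.getD j ((true, 0), (false, 0), (true, 0)) = φ[j] := by
    rw [List.getD_eq_getElem?_getD, List.getElem?_eq_getElem hj']; rfl
  unfold litF at h7
  rw [e2, e3, e4] at h7
  interval_cases a
  · exact Or.inl h7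
  · exact Or.inr (Or.inl h7)
  · exact Or.inr (Or.inr h7)

theorem cov_of_sat {m : ℕ} {φ : Form} (h : Norm m φ) (hs : SAT3 φ) :
    ∃ S : Finset ℕ, CovF m φ S ∧ S.card ≤ 5 * m := by
  classical
  obtain ⟨τ, hτ⟩ := hs
  have hch : ∀ j, ∃ a < 3, j < m → τ (litF φ (3 * j + a)).2 = (litF φ (3 * j + a)).1 := by
    intro j
    by_cases hj : j < m
    · have hj' : j < φ.length := by rw [h.2.1]; exact hj
      have e4 : φ.getD j ((true, 0), (false, 0), (true, 0)) = φ[j] := by
        rw [List.getD_eq_getElem?_getD, List.getElem?_eq_getElem hj']; rfl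
      rcases hτ _ (List.getElem_mem hj') with h1 | h1 | h1
      · refine ⟨0, by omega, fun _ => ?_⟩
        have e2 : (3 * j + 0) / 3 = j := by omega
        have e3 : (3 * j + 0) % 3 = 0 := by omega
        unfold litF
        rw [e2, e3, e4]
        exact h1
      · refine ⟨1, by omega, fun _ => ?_⟩
        have e2 : (3 * j + 1) / 3 = j := by omega
        have e3 : (3 * j + 1) % 3 = 1 := by omega
        unfold litF
        rw [e2, e3, e4]
        exact h1
      · refine ⟨2, by omega, fun _ => ?_⟩
        have e2 : (3 * j + 2) / 3 = j := by omega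
        have e3 : (3 * j + 2) % 3 = 2 := by omega
        unfold litF
        rw [e2, e3, e4]
        exact h1
    · exact ⟨0, by omega, fun hh => absurd hh hj⟩
  choose c hc3 hc using hch
  refine ⟨(Finset.range (3 * m)).image (fun v => 2 * v + (if τ v then 0 else 1)) ∪
    (Finset.range (2 * m)).image (fun i => 6 * m + (3 * (i / 2) + (c (i / 2) + 1 + i % 2) % 3)),
    ?_, ?_⟩
  · -- vertices of the cover
    have hcl : ∀ j < m, ∀ a < 3, a ≠ c j → 6 * m + (3 * j + a) ∈
        (Finset.range (3 * m)).image (fun v => 2 * v + (if τ v then 0 else 1)) ∪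
        (Finset.range (2 * m)).image
          (fun i => 6 * m + (3 * (i / 2) + (c (i / 2) + 1 + i % 2) % 3)) := by
      intro j hj a ha hac
      rw [Finset.mem_union]
      right
      rw [Finset.mem_image]
      have := hc3 j
      by_cases h1 : a = (c j + 1) % 3
      · refine ⟨2 * j, Finset.mem_range.2 (by omega), ?_⟩
        have e1 : 2 * j / 2 = j := by omega
        have e2 : 2 * j % 2 = 0 := by omega
        rw [e1, e2]
        omega
      · refine ⟨2 * j + 1, Finset.mem_range.2 (by omega), ?_⟩
        have e1 : (2 * j + 1) / 2 = j := by omega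
        have e2 : (2 * j + 1) % 2 = 1 := by omega
        rw [e1, e2]
        omega
    intro e he
    unfold edF
    split_ifs with h1 h2
    · cases hb : τ e
      · right
        rw [Finset.mem_union]
        left
        rw [Finset.mem_image]
        exact ⟨e, Finset.mem_range.2 h1, by rw [hb]; simp⟩
      · left
        rw [Finset.mem_union]
        left
        rw [Finset.mem_image]
        exact ⟨e, Finset.mem_range.2 h1, by rw [hb]; simp⟩
    · have h3 := hc3 ((e - 3 * m) / 3)
      by_cases h4 : (e - 3 * m) % 3 = c ((e - 3 * m) / 3)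
      · right
        exact hcl _ (by omega) _ (by omega) (by omega)
      · left
        have h5 := hcl ((e - 3 * m) / 3) (by omega) ((e - 3 * m) % 3) (by omega) h4
        have e1 : 3 * ((e - 3 * m) / 3) + (e - 3 * m) % 3 = e - 3 * m := by omega
        rwa [e1] at h5
    · have e1 : 3 * ((e - 6 * m) / 3) + (e - 6 * m) % 3 = e - 6 * m := by omega
      by_cases h4 : (e - 6 * m) % 3 = c ((e - 6 * m) / 3)
      · right
        have h5 := hc ((e - 6 * m) / 3) (by omega)
        rw [← h4, e1] at h5
        rw [Finset.mem_union]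
        left
        rw [Finset.mem_image]
        refine ⟨(litF φ (e - 6 * m)).2, Finset.mem_range.2 (litF_lt h (by omega)), ?_⟩
        rw [h5]
        rfl
      · left
        have h5 := hcl ((e - 6 * m) / 3) (by omega) ((e - 6 * m) % 3) (by omega) h4
        rwa [e1] at h5
  · refine (Finset.card_union_le _ _).trans ?_
    have h1 := Finset.card_image_le (s := Finset.range (3 * m))
      (f := fun v => 2 * v + (if τ v then 0 else 1))
    have h2 := Finset.card_image_le (s := Finset.range (2 * m))
      (f := fun i => 6 * m + (3 * (i / 2) + (c (i / 2) + 1 + i % 2) % 3))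
    rw [Finset.card_range] at h1 h2
    omega

theorem cov_iff {m : ℕ} {φ : Form} (h : Norm m φ) :
    (∃ S : Finset ℕ, CovF m φ S ∧ S.card ≤ 5 * m) ↔ SAT3 φ :=
  ⟨fun ⟨_, h1, h2⟩ => sat_of_cov h h1 h2, cov_of_sat h⟩

/-- padding -/
theorem norm_padTo {m : ℕ} {φ : Form} (hm : 1 ≤ m) (hb : Bounded3 φ) (hl : φ.length ≤ m) :
    Norm m (padTo m φ) := by
  refine ⟨hm, ?_, ?_⟩
  · unfold padTo
    rw [List.length_append, List.length_replicate]
    omega
  · intro c hc
    unfold padTo at hc
    rw [List.mem_append] at hc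
    rcases hc with hc | hc
    · have := hb c hc
      omega
    · rw [List.eq_of_mem_replicate hc]
      simp only
      omega

theorem sat_padTo {m : ℕ} {φ : Form} : SAT3 (padTo m φ) ↔ SAT3 φ := by
  constructor
  · rintro ⟨τ, hτ⟩
    exact ⟨τ, fun c hc => hτ c (List.mem_append_left _ hc)⟩
  · rintro ⟨τ, hτ⟩
    refine ⟨τ, fun c hc => ?_⟩
    unfold padTo at hc
    rw [List.mem_append] at hc
    rcases hc with hc | hc
    · exact hτ c hc
    · rw [List.eq_of_mem_replicate hc]
      cases τ 0 <;> simp

end Pool.Agent.W958
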