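import Pool.Agent.W958.KEquiv
import Pool.Agent.W958.KVC
import Pool.Agent.W958.KPoly
import Pool.Agent.H671R2.CK.K3
import Pool.Agent.H671R2.CK.K7
import Pool.Agent.H671R2.CK.K13
import Pool.Agent.H671R2.CK.K15
import Pool.Agent.H622R2.CoNP

/-!
# The cross-composition
-/

set_option autoImplicit false

namespace Pool.Agent.W958

open Pool.Agent.NPC Pool.Agent.H633R2 Pool.Agent.CK

/-- the graphs at the leaves -/
def edI (fs : List Form) (h e : ℕ) : ℕ × ℕ :=
  edF (maxLen fs) (padTo (maxLen fs)
    (fs.getD (if h - 2 ^ fs.length.size < fs.length then h - 2 ^ fs.length.size else 0) [])) e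

/-- the parameter -/
def kI (fs : List Form) : ℕ := fs.length.size + 23 * maxLen fs

/-- the instance -/
def insI (fs : List Form) : List (List Bool) × ℕ :=
  (matI (edI fs) (kI fs) (2 ^ fs.length.size) (9 * maxLen fs), kI fs)

theorem maxLen_pos (fs : List Form) : 1 ≤ maxLen fs := by
  have := (K13aux.lt_fold fs 1 0).2 (Or.inl Nat.one_pos)
  exact this

theorem le_maxLen {fs : List Form} {φ : Form} (h : φ ∈ fs) : φ.length ≤ maxLen fs := by
  by_contra hc
  have h1 : maxLen fs < φ.length := not_le.1 hc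
  exact lt_irrefl _ ((K13aux.lt_fold fs 1 (maxLen fs)).2 (Or.inr ⟨φ, h, h1⟩))

theorem getD_mem {fs : List Form} (hne : fs ≠ []) (i : ℕ) :
    fs.getD (if i < fs.length then i else 0) [] ∈ fs := by
  have h0 : 0 < fs.length := List.length_pos_of_ne_nil hne
  have : (if i < fs.length then i else 0) < fs.length := by split_ifs <;> assumption
  rw [List.getD_eq_getElem?_getD, List.getElem?_eq_getElem this]
  exact List.getElem_mem this

theorem edI_norm {fs : List Form} (hne : fs ≠ []) (hb : ∀ φ ∈ fs, Bounded3 φ) (i : ℕ) :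
    Norm (maxLen fs) (padTo (maxLen fs) (fs.getD (if i < fs.length then i else 0) [])) :=
  norm_padTo (maxLen_pos fs) (hb _ (getD_mem hne i)) (le_maxLen (getD_mem hne i))

theorem insI_iff {fs : List Form} (hne : fs ≠ []) (hb : ∀ φ ∈ fs, Bounded3 φ) :
    Editing {C4} (insI fs) ↔ ∃ φ ∈ fs, SAT3 φ := by
  have hm := maxLen_pos fs
  have hsimp : Simp (2 ^ fs.length.size) (9 * maxLen fs) (edI fs) := by
    intro h _ _ e he
    exact edF_simp (edI_norm hne hb _) he
  have hk : kI fs = fs.length.size + 2 * (9 * maxLen fs) + 5 * maxLen fs := by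
    unfold kI
    ring
  unfold insI
  rw [inst_iff rfl (by omega) hsimp hk]
  constructor
  · rintro ⟨h, S, -, -, hC, hS⟩
    refine ⟨_, getD_mem hne (h - 2 ^ fs.length.size), ?_⟩
    rw [← sat_padTo (m := maxLen fs)]
    exact (cov_iff (edI_norm hne hb _)).1 ⟨S, hC, hS⟩
  · rintro ⟨φ, hφ, hs⟩
    obtain ⟨i, hi, rfl⟩ := List.getElem_of_mem hφ
    have h1 : fs.length < 2 ^ fs.length.size := Nat.lt_size_self _
    have e1 : 2 ^ fs.length.size + i - 2 ^ fs.length.size = i := by omega
    have e2 : fs.getD (if i < fs.length then i else 0) [] = fs[i] := by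
      rw [if_pos hi, List.getD_eq_getElem?_getD, List.getElem?_eq_getElem hi]
      rfl
    have h2 := edI_norm hne hb i
    rw [← sat_padTo (m := maxLen fs), ← e2] at hs
    obtain ⟨S, hC, hS⟩ := (cov_iff h2).2 hs
    refine ⟨2 ^ fs.length.size + i, S, by omega, by omega, ?_, hS⟩
    intro e he
    unfold edI
    rw [e1]
    exact hC e he

section poly

variable {α : Type} [TEnc α]

theorem poly_litF {φ : α → Form} {i : α → ℕ} (hφ : Poly φ) (hi : Poly i) :
    Poly (fun a => litF (φ a) (i a)) := by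
  unfold litF
  fun_prop

theorem poly_rowOf {l : α → Lit ℕ} (hl : Poly l) : Poly (fun a => rowOf (l a)) := by
  unfold rowOf
  fun_prop

theorem poly_edF {m : α → ℕ} {φ : α → Form} {e : α → ℕ} (hm : Poly m) (hφ : Poly φ)
    (he : Poly e) : Poly (fun a => edF (m a) (φ a) (e a)) := by
  have h1 : Poly (fun a => rowOf (litF (φ a) (e a - 6 * m a))) :=
    poly_rowOf (poly_litF hφ (by fun_prop))
  unfold edF
  fun_prop

theorem upoly_L {fs : α → List Form} (hf : Poly fs) :
    UPoly (fun a => 2 ^ (fs a).length.size) := by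
  have h1 : Poly (fun a => 2 ^ (fs a).length.size) := poly_pow2 (upoly_size (NPC.Poly.length hf))
  have h2 : UPoly (fun a => 2 * (fs a).length + 1) :=
    UPoly.add (UPoly.mul (UPoly.const 2) (UPoly.length hf)) (UPoly.const 1)
  exact UPoly.of_le h1 h2 fun a => two_pow_size_le _

theorem upoly_kI {fs : α → List Form} (hf : Poly fs) : UPoly (fun a => kI (fs a)) :=
  UPoly.add (upoly_size (NPC.Poly.length hf)) (UPoly.mul (UPoly.const 23) (upoly_maxLen hf))

theorem poly_edI {fs : α → List Form} {h e : α → ℕ} (hf : Poly fs) (hh : Poly h) (he : Poly e) :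
    Poly (fun a => edI (fs a) (h a) (e a)) := by
  have h1 : Poly (fun a => 2 ^ (fs a).length.size) := (upoly_L hf).toPoly
  have h2 : Poly (fun a => (fs a).getD (if h a - 2 ^ (fs a).length.size < (fs a).length then
      h a - 2 ^ (fs a).length.size else 0) []) := by fun_prop
  exact poly_edF (upoly_maxLen hf).toPoly (poly_padTo (upoly_maxLen hf) h2) he

theorem poly_parB {fs : α → List Form} {x y : α → Co} (hf : Poly fs) (hx : Poly x) (hy : Poly y) :
    Poly (fun a => parB (edI (fs a)) (x a) (y a)) := by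
  have h1 : Poly (fun a => edI (fs a) (y a).2.1 (y a).2.2) := poly_edI hf (by fun_prop) (by fun_prop)
  unfold parB
  fun_prop

theorem poly_adC {fs : α → List Form} {x y : α → Co} (hf : Poly fs) (hx : Poly x) (hy : Poly y) :
    Poly (fun a => adC (edI (fs a)) (x a) (y a)) := by
  have h1 := poly_parB hf hx hy
  have h2 := poly_parB hf hy hx
  unfold adC adB
  fun_prop

theorem poly_flexC {x y : α → Co} (hx : Poly x) (hy : Poly y) :
    Poly (fun a => flexC (x a) (y a)) := by
  unfold flexC
  fun_prop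

theorem poly_okB {L : α → ℕ} {x : α → Co} (hL : Poly L) (hx : Poly x) :
    Poly (fun a => okB (L a) (x a)) := by
  unfold okB
  fun_prop

theorem poly_att {p : α → Lb} {x : α → Co} (hp : Poly p) (hx : Poly x) :
    Poly (fun a => att (p a) (x a)) := by
  unfold att
  fun_prop

theorem poly_twin {p q : α → Lb} (hp : Poly p) (hq : Poly q) :
    Poly (fun a => twin (p a) (q a)) := by
  unfold twin
  fun_prop

theorem poly_adG {fs : α → List Form} {p q : α → Lb} (hf : Poly fs) (hp : Poly p) (hq : Poly q) :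
    Poly (fun a => adG (adC (edI (fs a))) (p a) (q a)) := by
  have h1 : Poly (fun a => adC (edI (fs a)) (p a).1 (q a).1) :=
    poly_adC hf (by fun_prop) (by fun_prop)
  have h2 : Poly (fun a => att (q a) (p a).1) := poly_att hq (by fun_prop)
  have h3 : Poly (fun a => att (p a) (q a).1) := poly_att hp (by fun_prop)
  have h4 : Poly (fun a => twin (p a) (q a)) := poly_twin hp hq
  unfold adG
  fun_prop

theorem poly_vsC {L E : α → ℕ} (hL : UPoly L) (hE : UPoly E) :
    Poly (fun a => vsC (L a) (E a)) := by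
  unfold vsC
  have h1 : Poly (fun a => List.range (2 * L a)) := (UPoly.mul (UPoly.const 2) hL).range
  have h2 : Poly (fun a => List.range (E a)) := hE.range
  have h3 : Poly (fun a => (List.range 7) ×ˢ ((List.range (2 * L a)) ×ˢ (List.range (E a)))) :=
    R671.poly_product (NPC.Poly.const _) (R671.poly_product h1 h2)
  exact NPC.Poly.filter (p := fun a x => okB (L a) x) h3
    (poly_okB (hL.toPoly.comp (NPC.Poly.fst NPC.Poly.id)) (NPC.Poly.snd NPC.Poly.id))

theorem poly_prot {fs : α → List Form} {k : α → ℕ} {x y : α → Co} (hf : Poly fs) (hk : UPoly k)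
    (hx : Poly x) (hy : Poly y) : Poly (fun a => prot (edI (fs a)) (k a) (x a) (y a)) := by
  have h1 := poly_adC hf hx hy
  have h2 := poly_flexC hx hy
  have h3 : Poly (fun a => List.range (2 * k a + 2)) :=
    (UPoly.add (UPoly.mul (UPoly.const 2) hk) (UPoly.const 2)).range
  have h4 : Poly (fun a => List.range (2 * k a + 1)) :=
    (UPoly.add (UPoly.mul (UPoly.const 2) hk) (UPoly.const 1)).range
  have h5 : Poly (fun a => (List.range (2 * k a + 2)).map fun c => ((x a, y a, c, 0) : Lb)) :=
    NPC.Poly.map (F := fun a c => ((x a, y a, c, 0) : Lb)) h3 (by fun_prop)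
  have h6 : Poly (fun a => (List.range (2 * k a + 1)).flatMap fun c =>
      ([(x a, y a, c, 1), (x a, y a, c, 2)] : List Lb)) :=
    NPC.Poly.flatMap (F := fun a c => ([(x a, y a, c, 1), (x a, y a, c, 2)] : List Lb)) h4
      (by fun_prop)
  unfold prot
  exact NPC.Poly.ite (by fun_prop) (by fun_prop) (NPC.Poly.ite (by fun_prop)
    (NPC.Poly.ite (by fun_prop) (by fun_prop) h5) h6)

theorem poly_vsL {fs : α → List Form} {k L E : α → ℕ} (hf : Poly fs) (hk : UPoly k)
    (hL : UPoly L) (hE : UPoly E) : Poly (fun a => vsL (edI (fs a)) (k a) (L a) (E a)) := by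
  unfold vsL
  have h1 := poly_vsC hL hE
  exact NPC.Poly.flatMap (F := fun a (xy : Co × Co) => prot (edI (fs a)) (k a) xy.1 xy.2)
    (R671.poly_product h1 h1)
    (poly_prot (hf.comp (NPC.Poly.fst NPC.Poly.id)) (hk.comp (NPC.Poly.fst NPC.Poly.id))
      (by fun_prop) (by fun_prop))

theorem poly_insI {fs : α → List Form} (hf : Poly fs) : Poly (fun a => insI (fs a)) := by
  have hE : UPoly (fun a => 9 * maxLen (fs a)) := UPoly.mul (UPoly.const 9) (upoly_maxLen hf)
  have h1 := poly_vsL hf (upoly_kI hf) (upoly_L hf) hE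
  unfold insI matI matOf
  refine NPC.Poly.pair ?_ (upoly_kI hf).toPoly
  refine NPC.Poly.map (F := fun a u => (vsL (edI (fs a)) (kI (fs a)) (2 ^ (fs a).length.size)
    (9 * maxLen (fs a))).map fun w => adG (adC (edI (fs a))) u w) h1 ?_
  refine NPC.Poly.map (l := fun p : α × Lb => vsL (edI (fs p.1)) (kI (fs p.1))
    (2 ^ (fs p.1).length.size) (9 * maxLen (fs p.1)))
    (F := fun p w => adG (adC (edI (fs p.1))) p.2 w) (h1.comp (NPC.Poly.fst NPC.Poly.id)) ?_
  exact poly_adG (hf.comp (NPC.Poly.fst (NPC.Poly.fst NPC.Poly.id)))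
    (NPC.Poly.snd (NPC.Poly.fst NPC.Poly.id)) (NPC.Poly.snd NPC.Poly.id)

end poly

end Pool.Agent.W958
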