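import Mathlib

/-!
# The core of the instances of `C₄`-free edge editing

A binary tree with `2 ^ l` leaves; every leaf carries the subdivided edges of a graph.
-/

set_option autoImplicit false

namespace Pool.Agent.W958

/-- labels of the core vertices -/
abbrev Co := ℕ × ℕ × ℕ

def hub : Co := (0, 0, 0)
def root : Co := (1, 1, 0)

/-- `y` is the parent of `x` -/
def parB (ed : ℕ → ℕ → ℕ × ℕ) (x y : Co) : Bool :=
  (decide (x.1 = 1) && (decide (y.1 = 1) && decide (x.2.1 / 2 = y.2.1))) ||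
  ((decide (x.1 = 2) && (decide (y.1 = 1) && decide (x.2.1 = y.2.1))) ||
  ((decide (x.1 = 3) && (decide (y.1 = 1) && decide (x.2.1 = y.2.1))) ||
  ((decide (x.1 = 4) && (decide (y.1 = 3) && decide (x.2 = y.2))) ||
  ((decide (x.1 = 5) && (decide (y.1 = 3) && decide (x.2 = y.2))) ||
  (decide (x.1 = 6) && (decide (y.1 = 5) && (decide (x.2.1 = y.2.1) &&
    (decide (x.2.2 = (ed y.2.1 y.2.2).1) || decide (x.2.2 = (ed y.2.1 y.2.2).2)))))))))

theorem parB_iff (ed : ℕ → ℕ → ℕ × ℕ) (x y : Co) : parB ed x y = true ↔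
    (x.1 = 1 ∧ y.1 = 1 ∧ x.2.1 / 2 = y.2.1) ∨ (x.1 = 2 ∧ y.1 = 1 ∧ x.2.1 = y.2.1) ∨
    (x.1 = 3 ∧ y.1 = 1 ∧ x.2.1 = y.2.1) ∨ (x.1 = 4 ∧ y.1 = 3 ∧ x.2 = y.2) ∨
    (x.1 = 5 ∧ y.1 = 3 ∧ x.2 = y.2) ∨ (x.1 = 6 ∧ y.1 = 5 ∧ x.2.1 = y.2.1 ∧
      (x.2.2 = (ed y.2.1 y.2.2).1 ∨ x.2.2 = (ed y.2.1 y.2.2).2)) := by
  unfold parB
  simp only [Bool.or_eq_true, Bool.and_eq_true, decide_eq_true_eq]

/-- adjacency, without the hub -/
def adB (ed : ℕ → ℕ → ℕ × ℕ) (x y : Co) : Bool := parB ed x y || parB ed y x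

/-- adjacency in the core -/
def adC (ed : ℕ → ℕ → ℕ × ℕ) (x y : Co) : Bool :=
  if x = hub then (decide (y ≠ hub) && decide (y ≠ root)) else
    if y = hub then decide (x ≠ root) else adB ed x y

/-- the pairs which may be edited -/
def flexC (x y : Co) : Bool :=
  (decide (x = hub) && (decide (y.1 = 1 ∨ y.1 = 3 ∨ y.1 = 5 ∨ y.1 = 6) && decide (y ≠ root))) ||
    (decide (y = hub) && (decide (x.1 = 1 ∨ x.1 = 3 ∨ x.1 = 5 ∨ x.1 = 6) && decide (x ≠ root)))

/-- the labels which occur, apart from the bounds -/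
def okB (L : ℕ) (x : Co) : Bool :=
  (decide (x.1 = 0) && (decide (x.2.1 = 0) && decide (x.2.2 = 0))) ||
  ((decide (x.1 = 1) && (decide (1 ≤ x.2.1) && decide (x.2.2 = 0))) ||
  ((decide (x.1 = 2) && (decide (L ≤ x.2.1) && decide (x.2.2 = 0))) ||
  (decide (3 ≤ x.1) && decide (L ≤ x.2.1))))

theorem okB_iff (L : ℕ) (x : Co) : okB L x = true ↔
    (x.1 = 0 ∧ x.2.1 = 0 ∧ x.2.2 = 0) ∨ (x.1 = 1 ∧ 1 ≤ x.2.1 ∧ x.2.2 = 0) ∨
    (x.1 = 2 ∧ L ≤ x.2.1 ∧ x.2.2 = 0) ∨ (3 ≤ x.1 ∧ L ≤ x.2.1) := by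
  unfold okB
  simp only [Bool.or_eq_true, Bool.and_eq_true, decide_eq_true_eq]

/-- The core labels, with `L = 2 ^ l` leaves, and `E` edges and vertices in every leaf. -/
def Val (L E : ℕ) (x : Co) : Prop := x.1 < 7 ∧ x.2.1 < 2 * L ∧ x.2.2 < E ∧ okB L x = true

/-- The graphs in the leaves are simple. -/
def Simp (L E : ℕ) (ed : ℕ → ℕ → ℕ × ℕ) : Prop :=
  ∀ h, L ≤ h → h < 2 * L → ∀ e < E, (ed h e).1 ≠ (ed h e).2 ∧ (ed h e).1 < E ∧ (ed h e).2 < E ∧
    ∀ e' < E, e ≠ e' → ¬ (((ed h e).1 = (ed h e').1 ∨ (ed h e).1 = (ed h e').2) ∧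
      ((ed h e).2 = (ed h e').1 ∨ (ed h e).2 = (ed h e').2))

theorem co_ext {x y : Co} (h1 : x.1 = y.1) (h2 : x.2.1 = y.2.1) (h3 : x.2.2 = y.2.2) : x = y :=
  Prod.ext h1 (Prod.ext h2 h3)

section
variable {L E : ℕ} {ed : ℕ → ℕ → ℕ × ℕ}

/-- rank -/
def rk (L : ℕ) (x : Co) : ℕ := if x.1 = 1 then x.2.1 else 2 * L + x.1

theorem par_rk {x y : Co} (hx : Val L E x) (hy : Val L E y) (h : parB ed x y = true) :
    rk L y < rk L x := by
  obtain ⟨-, hx1, -, hx2⟩ := hx
  obtain ⟨-, hy1, -, hy2⟩ := hy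
  rw [okB_iff] at hx2 hy2
  rw [parB_iff] at h
  unfold rk
  rcases h with h | h | h | h | h | h <;> split_ifs <;> omega

theorem par_unique {x y y' : Co} (hx : Val L E x) (hy : Val L E y) (hy' : Val L E y')
    (h : parB ed x y = true) (h' : parB ed x y' = true) (h6 : x.1 ≠ 6) : y = y' := by
  obtain ⟨-, hx1, -, hx2⟩ := hx
  obtain ⟨-, hy1, -, hy2⟩ := hy
  obtain ⟨-, hy1', -, hy2'⟩ := hy'
  rw [okB_iff] at hx2 hy2 hy2'
  rw [parB_iff] at h h'
  simp only [Prod.ext_iff] at h h'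
  apply co_ext <;> omega

theorem par_six {x y : Co} (h : parB ed x y = true) (h6 : x.1 = 6) : y.1 = 5 ∧
    x.2.1 = y.2.1 ∧ (x.2.2 = (ed y.2.1 y.2.2).1 ∨ x.2.2 = (ed y.2.1 y.2.2).2) := by
  rw [parB_iff] at h
  rcases h with h | h | h | h | h | h
  · omega
  · omega
  · omega
  · omega
  · omega
  · exact h.2

theorem par_five {x y : Co} (h : parB ed x y = true) (h5 : y.1 = 5) : x.1 = 6 ∧
    x.2.1 = y.2.1 ∧ (x.2.2 = (ed y.2.1 y.2.2).1 ∨ x.2.2 = (ed y.2.1 y.2.2).2) := by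
  rw [parB_iff] at h
  rcases h with h | h | h | h | h | h
  · omega
  · omega
  · omega
  · omega
  · omega
  · exact ⟨h.1, h.2.2⟩

theorem five_par {x y : Co} (h : parB ed x y = true) (h5 : x.1 = 5) : y.1 = 3 ∧ x.2 = y.2 := by
  rw [parB_iff] at h
  rcases h with h | h | h | h | h | h
  · omega
  · omega
  · omega
  · omega
  · exact h.2
  · omega

theorem adB_iff (x y : Co) : adB ed x y = true ↔ parB ed x y = true ∨ parB ed y x = true := by
  unfold adB
  rw [Bool.or_eq_true]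

theorem adB_comm (x y : Co) : adB ed x y = adB ed y x := by
  unfold adB
  rw [Bool.or_comm]

theorem adB_irrefl {x : Co} (hx : Val L E x) : adB ed x x = false := by
  by_contra h
  have h' : adB ed x x = true := by simpa using h
  rw [adB_iff] at h'
  rcases h' with h' | h'
  · exact absurd (par_rk hx hx h') (lt_irrefl _)
  · exact absurd (par_rk hx hx h') (lt_irrefl _)

/-- neighbours of smaller or equal rank are parents -/
theorem ad_par {x y : Co} (hx : Val L E x) (hy : Val L E y) (h : adB ed x y = true)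
    (hr : rk L y ≤ rk L x) : parB ed x y = true := by
  rw [adB_iff] at h
  rcases h with h | h
  · exact h
  · exact absurd (par_rk hy hx h) (not_lt.2 hr)

theorem no_tri_aux {a b c : Co} (ha : Val L E a) (hb : Val L E b) (hc : Val L E c)
    (hab : adB ed a b = true) (hac : adB ed a c = true) (hbc : adB ed b c = true)
    (h1 : rk L b ≤ rk L a) (h2 : rk L c ≤ rk L a) : False := by
  have p1 := ad_par ha hb hab h1
  have p2 := ad_par ha hc hac h2
  have hne : b ≠ c := by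
    rintro rfl
    rw [adB_irrefl hb] at hbc
    exact absurd hbc (by decide)
  by_cases h6 : a.1 = 6
  · have q1 := (par_six p1 h6).1
    have q2 := (par_six p2 h6).1
    rw [adB_iff] at hbc
    rcases hbc with h | h
    · have := (five_par h q1).1
      omega
    · have := (five_par h q2).1
      omega
  · exact hne (par_unique ha hb hc p1 p2 h6)

/-- `B` has no triangles. -/
theorem no_tri {a b c : Co} (ha : Val L E a) (hb : Val L E b) (hc : Val L E c)
    (hab : adB ed a b = true) (hac : adB ed a c = true) (hbc : adB ed b c = true) : False := by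
  rcases le_total (rk L a) (rk L b) with h1 | h1
  · rcases le_total (rk L b) (rk L c) with h2 | h2
    · exact no_tri_aux hc ha hb (by rw [adB_comm]; exact hac) (by rw [adB_comm]; exact hbc) hab
        (h1.trans h2) h2
    · exact no_tri_aux hb ha hc (by rw [adB_comm]; exact hab) hbc hac h1 h2
  · rcases le_total (rk L a) (rk L c) with h2 | h2
    · exact no_tri_aux hc ha hb (by rw [adB_comm]; exact hac) (by rw [adB_comm]; exact hbc) hab
        h2 (h1.trans h2)
    · exact no_tri_aux ha hb hc hab hac hbc h1 h2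

theorem no_c4_aux (hS : Simp L E ed) {a b c d : Co} (ha : Val L E a) (hb : Val L E b)
    (hc : Val L E c) (hd : Val L E d) (hab : adB ed a b = true) (hbc : adB ed b c = true)
    (hcd : adB ed c d = true) (hda : adB ed d a = true) (hac : a ≠ c) (hbd : b ≠ d)
    (h1 : rk L b ≤ rk L a) (h2 : rk L d ≤ rk L a) : False := by
  have p1 := ad_par ha hb hab h1
  have p2 := ad_par ha hd (by rw [adB_comm]; exact hda) h2
  by_cases h6 : a.1 = 6
  · obtain ⟨b1, b2, b3⟩ := par_six p1 h6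
    obtain ⟨d1, d2, d3⟩ := par_six p2 h6
    have hbd' : b.2.2 ≠ d.2.2 := fun h => hbd (co_ext (b1.trans d1.symm) (b2.symm.trans d2) h)
    rw [adB_iff] at hbc hcd
    rcases hbc with hbc | hcb
    · -- `c` is the parent of `b`
      obtain ⟨c1, c2⟩ := five_par hbc b1
      rcases hcd with hcd | hdc
      · have := (par_five hcd d1).1
        omega
      · obtain ⟨-, c4⟩ := five_par hdc d1
        exact hbd' (by rw [c2, c4])
    · obtain ⟨c1, c2, c3⟩ := par_five hcb b1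
      have hcd' : parB ed c d = true := by
        rcases hcd with h | h
        · exact h
        · have := (five_par h d1).1
          omega
      obtain ⟨-, c5, c6⟩ := par_five hcd' d1
      have hac' : a.2.2 ≠ c.2.2 := fun h => hac (co_ext (h6.trans c1.symm) (b2.trans c2.symm) h)
      obtain ⟨-, hb1, hb2, hb3⟩ := hb
      obtain ⟨-, hd1, hd2, -⟩ := hd
      rw [okB_iff] at hb3
      have hLb : L ≤ b.2.1 := by omega
      obtain ⟨e1, -, -, e2⟩ := hS b.2.1 hLb hb1 b.2.2 hb2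
      have hbd2 : b.2.1 = d.2.1 := b2.symm.trans d2
      rw [← hbd2] at d3 c6
      refine e2 d.2.2 hd2 hbd' ⟨?_, ?_⟩ <;> omega
  · exact hbd (par_unique ha hb hd p1 p2 h6)

/-- `B` has no cycles of length four. -/
theorem no_c4 (hS : Simp L E ed) {a b c d : Co} (ha : Val L E a) (hb : Val L E b)
    (hc : Val L E c) (hd : Val L E d) (hab : adB ed a b = true) (hbc : adB ed b c = true)
    (hcd : adB ed c d = true) (hda : adB ed d a = true) (hac : a ≠ c) (hbd : b ≠ d) : False := by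
  by_cases h1 : rk L b ≤ rk L a ∧ rk L d ≤ rk L a
  · exact no_c4_aux hS ha hb hc hd hab hbc hcd hda hac hbd h1.1 h1.2
  by_cases h2 : rk L c ≤ rk L b ∧ rk L a ≤ rk L b
  · exact no_c4_aux hS hb hc hd ha hbc hcd hda hab hbd hac.symm h2.1 h2.2
  by_cases h3 : rk L d ≤ rk L c ∧ rk L b ≤ rk L c
  · exact no_c4_aux hS hc hd ha hb hcd hda hab hbc hac.symm hbd.symm h3.1 h3.2
  by_cases h4 : rk L a ≤ rk L d ∧ rk L c ≤ rk L d
  · exact no_c4_aux hS hd ha hb hc hda hab hbc hcd hbd.symm hac h4.1 h4.2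
  omega

end

end Pool.Agent.W958
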