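import Pool.Agent.W958.KOpt

/-!
# Correctness of the algorithm
-/

set_option autoImplicit false

namespace Pool.Agent.W958

open Pool.Agent.NPC Pool.Agent.H633R2 Finset

theorem adjB_self (M : List (List Bool)) (i : ℕ) : adjB M i i = false := by simp [adjB]

theorem adjB_symm (M : List (List Bool)) (i j : ℕ) : adjB M i j = adjB M j i := by
  unfold adjB
  rw [Bool.or_comm]
  congr 2
  exact decide_eq_decide.2 eq_comm

theorem graphOf_adj (M : List (List Bool)) (i j : Fin M.length) :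
    (graphOf M).Adj i j ↔ adjB M i j = true := by
  unfold adjB
  simp only [Bool.and_eq_true, Bool.not_eq_true', decide_eq_false_iff_not, Bool.or_eq_true]
  exact and_congr (not_congr Fin.ext_iff) Iff.rfl

open Classical in
theorem two_mul_ncard {n : ℕ} (G G' : SimpleGraph (Fin n)) :
    2 * (symmDiff G.edgeSet G'.edgeSet).ncard =
      ∑ i : Fin n, ∑ j : Fin n, if (G.Adj i j ↔ G'.Adj i j) then 0 else 1 := by
  have h1 : symmDiff G.edgeSet G'.edgeSet = ((G \ G') ⊔ (G' \ G)).edgeSet := by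
    rw [SimpleGraph.edgeSet_sup, SimpleGraph.edgeSet_sdiff, SimpleGraph.edgeSet_sdiff]
    rfl
  have h2 := (SimpleGraph.sum_degrees_eq_twice_card_edges (G := (G \ G') ⊔ (G' \ G))).symm
  rw [h1, ← SimpleGraph.coe_edgeFinset, Set.ncard_coe_finset]
  refine (Eq.trans ?_ h2).trans ?_
  · congr 2
    ext e
    simp only [SimpleGraph.mem_edgeFinset]
  refine Finset.sum_congr rfl fun i _ => ?_
  rw [← SimpleGraph.card_neighborFinset_eq_degree, SimpleGraph.neighborFinset_eq_filter,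
    Finset.card_filter]
  refine Finset.sum_congr rfl fun j _ => ?_
  simp only [SimpleGraph.sup_adj, SimpleGraph.sdiff_adj]
  by_cases a : G.Adj i j <;> by_cases b : G'.Adj i j <;> simp [a, b]

/-- adjacency in the cycle of length five -/
def c5a (i j : Fin 5) : Bool := decide (j = i + 1) || decide (i = j + 1)

theorem c5a_n4 : ∀ a b c d : Fin 5, c5a a b = true → c5a b c = true → c5a c d = true →
    c5a d a = true → a ≠ c → b ≠ d → c5a a c = true ∨ c5a b d = true := by decide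

theorem c5a_n2 : ∀ x y z w : Fin 5, c5a x y = true → c5a z w = true → x ≠ z → x ≠ w →
    y ≠ z → y ≠ w → c5a x z = true ∨ c5a x w = true ∨ c5a y z = true ∨ c5a y w = true := by decide

section
variable {V : Type}

/-- The pseudo-split structure: `C` is empty or an induced five-cycle, complete to the clique `K`
and without neighbours in the rest, which is independent. -/
structure PS (G : SimpleGraph V) (C K : Set V) : Prop where
  cc : C = ∅ ∨ ∃ f : Fin 5 → V, Function.Injective f ∧ C = Set.range f ∧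
    ∀ s t, G.Adj (f s) (f t) ↔ c5a s t = true
  ck : ∀ i ∈ C, ∀ j, j ∉ C → (G.Adj i j ↔ j ∈ K)
  kk : ∀ i, i ∉ C → ∀ j, j ∉ C → i ∈ K → j ∈ K → i ≠ j → G.Adj i j
  ii : ∀ i, i ∉ C → ∀ j, j ∉ C → i ∉ K → j ∉ K → ¬ G.Adj i j

theorem PS.n4 {G : SimpleGraph V} {C K : Set V} (h : PS G C K) : N4 G := by
  intro a b c d h1 h2 h3 h4 h5 h6
  by_contra hc
  push Not at hc
  obtain ⟨h7, h8⟩ := hc
  -- a vertex outside `C` and `K` has all neighbours in `K`, outside `C`
  have hI : ∀ x, x ∉ C → x ∉ K → ∀ y, G.Adj x y → y ∉ C ∧ y ∈ K := by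
    intro x hx hx' y hxy
    have hy : y ∉ C := fun hy => hx' ((h.ck y hy x hx).1 hxy.symm)
    refine ⟨hy, ?_⟩
    by_contra hy'
    exact h.ii x hx y hy hx' hy' hxy
  have hK : ∀ x, x ∉ C → x ∈ K → ∀ y, x ≠ y → ¬ G.Adj x y → y ∉ C ∧ y ∉ K := by
    intro x hx hx' y hne hxy
    have hy : y ∉ C := fun hy => hxy ((h.ck y hy x hx).2 hx').symm
    refine ⟨hy, ?_⟩
    intro hy'
    exact hxy (h.kk x hx y hy hx' hy' hne)
  have hall : ∀ a b c d, G.Adj a b → G.Adj b c → G.Adj c d → G.Adj d a → a ≠ c → b ≠ d →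
      ¬ G.Adj a c → ¬ G.Adj b d → a ∈ C := by
    intro a b c d h1 h2 h3 h4 h5 h6 h7 h8
    by_contra ha
    by_cases hak : a ∈ K
    · obtain ⟨hc1, hc2⟩ := hK a ha hak c h5 h7
      obtain ⟨hb1, hb2⟩ := hI c hc1 hc2 b h2.symm
      obtain ⟨hd1, hd2⟩ := hI c hc1 hc2 d h3
      exact h8 (h.kk b hb1 d hd1 hb2 hd2 h6)
    · obtain ⟨hb1, hb2⟩ := hI a ha hak b h1
      obtain ⟨hd1, hd2⟩ := hI a ha hak d h4.symm
      exact h8 (h.kk b hb1 d hd1 hb2 hd2 h6)
  have ha := hall a b c d h1 h2 h3 h4 h5 h6 h7 h8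
  have hb := hall b c d a h2 h3 h4 h1 h6 h5.symm h8 (fun h => h7 h.symm)
  have hc := hall c d a b h3 h4 h1 h2 h5.symm h6.symm (fun h => h7 h.symm) (fun h => h8 h.symm)
  have hd := hall d a b c h4 h1 h2 h3 h6.symm h5 (fun h => h8 h.symm) h7
  rcases h.cc with h0 | ⟨f, hf, hC, hadj⟩
  · rw [h0] at ha
    exact ha
  · rw [hC] at ha hb hc hd
    obtain ⟨s, rfl⟩ := ha
    obtain ⟨t, rfl⟩ := hb
    obtain ⟨u, rfl⟩ := hc
    obtain ⟨v, rfl⟩ := hd
    rw [hadj] at h1 h2 h3 h4 h7 h8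
    rcases c5a_n4 s t u v h1 h2 h3 h4 (fun h => h5 (h ▸ rfl)) (fun h => h6 (h ▸ rfl)) with h | h
    · exact h7 h
    · exact h8 h

theorem PS.n2 {G : SimpleGraph V} {C K : Set V} (h : PS G C K) : N2 G := by
  intro x y z w h1 h2 h3 h4 h5 h6
  by_contra hc
  push Not at hc
  obtain ⟨h7, h8, h9, h10⟩ := hc
  have hI : ∀ x, x ∉ C → x ∉ K → ∀ y, G.Adj x y → y ∉ C ∧ y ∈ K := by
    intro x hx hx' y hxy
    have hy : y ∉ C := fun hy => hx' ((h.ck y hy x hx).1 hxy.symm)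
    refine ⟨hy, ?_⟩
    by_contra hy'
    exact h.ii x hx y hy hx' hy' hxy
  have hK : ∀ x, x ∉ C → x ∈ K → ∀ y, x ≠ y → ¬ G.Adj x y → y ∉ C ∧ y ∉ K := by
    intro x hx hx' y hne hxy
    have hy : y ∉ C := fun hy => hxy ((h.ck y hy x hx).2 hx').symm
    refine ⟨hy, ?_⟩
    intro hy'
    exact hxy (h.kk x hx y hy hx' hy' hne)
  have hnK : ∀ x y z w, G.Adj z w → x ≠ z → x ≠ w → ¬ G.Adj x z → ¬ G.Adj x w → G.Adj x y →
      ¬ (x ∉ C ∧ x ∈ K) := by
    rintro x y z w h2 h3 h4 h7 h8 - ⟨hx, hx'⟩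
    obtain ⟨a1, a2⟩ := hK x hx hx' z h3 h7
    obtain ⟨b1, b2⟩ := hK x hx hx' w h4 h8
    exact h.ii z a1 w b1 a2 b2 h2
  have hall : ∀ x y z w, G.Adj z w → G.Adj x y → x ≠ z → x ≠ w → y ≠ z → y ≠ w →
      ¬ G.Adj x z → ¬ G.Adj x w → ¬ G.Adj y z → ¬ G.Adj y w → x ∈ C := by
    intro x y z w h2 h1 h3 h4 h5 h6 h7 h8 h9 h10
    by_contra hx
    have hx' : x ∉ K := fun hx' => hnK x y z w h2 h3 h4 h7 h8 h1 ⟨hx, hx'⟩
    exact hnK y x z w h2 h5 h6 h9 h10 h1.symm (hI x hx hx' y h1)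
  have hx := hall x y z w h2 h1 h3 h4 h5 h6 h7 h8 h9 h10
  have hy := hall y x z w h2 h1.symm h5 h6 h3 h4 h9 h10 h7 h8
  have hz := hall z w x y h1 h2 h3.symm h5.symm h4.symm h6.symm (fun h => h7 h.symm)
    (fun h => h9 h.symm) (fun h => h8 h.symm) (fun h => h10 h.symm)
  have hw := hall w z x y h1 h2.symm h4.symm h6.symm h3.symm h5.symm (fun h => h8 h.symm)
    (fun h => h10 h.symm) (fun h => h7 h.symm) (fun h => h9 h.symm)
  rcases h.cc with h0 | ⟨f, hf, hC, hadj⟩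
  · rw [h0] at hx
    exact hx
  · rw [hC] at hx hy hz hw
    obtain ⟨s, rfl⟩ := hx
    obtain ⟨t, rfl⟩ := hy
    obtain ⟨u, rfl⟩ := hz
    obtain ⟨v, rfl⟩ := hw
    rw [hadj] at h1 h2 h7 h8 h9 h10
    rcases c5a_n2 s t u v h1 h2 (fun h => h3 (h ▸ rfl)) (fun h => h4 (h ▸ rfl))
      (fun h => h5 (h ▸ rfl)) (fun h => h6 (h ▸ rfl)) with h | h | h | h
    · exact h7 h
    · exact h8 h
    · exact h9 h
    · exact h10 h

/-- Structure theorem for graphs without induced `C₄` and `2K₂`. -/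
theorem ps_of_free [Fintype V] {G : SimpleGraph V} (h4 : N4 G) (h2 : N2 G) :
    ∃ C K : Set V, PS G C K ∧ (C ∩ K = ∅) := by
  by_cases h5 : ∃ a b c d e, IsC5 G a b c d e
  · obtain ⟨a, b, c, d, e, h⟩ := h5
    have h' := h
    obtain ⟨h1, h2', h3, h4', h5, n1, n2, n3, n4, n5, m1, m2, m3, m4, m5⟩ := h'
    have m1' : ¬ G.Adj c a := fun h => m1 h.symm
    have m2' : ¬ G.Adj d b := fun h => m2 h.symm
    have m3' : ¬ G.Adj e c := fun h => m3 h.symm
    have m4' : ¬ G.Adj a d := fun h => m4 h.symm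
    have m5' : ¬ G.Adj b e := fun h => m5 h.symm
    set f : Fin 5 → V := ![a, b, c, d, e] with hf
    have hrange : ∀ v, v ∉ Set.range f ↔ (v ≠ a ∧ v ≠ b ∧ v ≠ c ∧ v ≠ d ∧ v ≠ e) := by
      intro v
      simp only [Set.mem_range, not_exists, hf, Fin.forall_fin_succ]
      simp [eq_comm]
    have hmem : ∀ v, v ∈ Set.range f ↔ (v = a ∨ v = b ∨ v = c ∨ v = d ∨ v = e) := by
      intro v
      simp only [Set.mem_range, hf, Fin.exists_fin_succ]
      simp [eq_comm]
    have hall : ∀ v, v ∉ Set.range f → (G.Adj v a ∧ G.Adj v b ∧ G.Adj v c ∧ G.Adj v d ∧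
        G.Adj v e) ∨ (¬ G.Adj v a ∧ ¬ G.Adj v b ∧ ¬ G.Adj v c ∧ ¬ G.Adj v d ∧ ¬ G.Adj v e) := by
      intro v hv
      obtain ⟨x1, x2, x3, x4, x5⟩ := (hrange v).1 hv
      exact c5_allOrNone h4 h2 h v x1 x2 x3 x4 x5
    refine ⟨Set.range f, {v | v ∉ Set.range f ∧ G.Adj v a}, ⟨Or.inr ⟨f, ?_, rfl, ?_⟩, ?_, ?_, ?_⟩,
      ?_⟩
    · intro i j
      revert i j
      simp only [hf, Fin.forall_fin_succ]
      simp [h1.ne, h2'.ne, h3.ne, h4'.ne, h5.ne, n1, n2, n3, n4, n5, h1.ne.symm, h2'.ne.symm,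
        h3.ne.symm, h4'.ne.symm, h5.ne.symm, n1.symm, n2.symm, n3.symm, n4.symm, n5.symm]
    · intro i j
      revert i j
      simp only [hf, Fin.forall_fin_succ]
      simp [c5a, h1, h2', h3, h4', h5, h1.symm, h2'.symm, h3.symm, h4'.symm, h5.symm, m1, m2, m3,
        m4, m5, m1', m2', m3', m4', m5']
    · intro i hi j hj
      rw [hmem] at hi
      have hj' : j ∈ {v | v ∉ Set.range f ∧ G.Adj v a} ↔ G.Adj j a :=
        ⟨fun h => h.2, fun h => ⟨hj, h⟩⟩
      rw [hj']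
      rcases hall j hj with ⟨x1, x2, x3, x4, x5⟩ | ⟨x1, x2, x3, x4, x5⟩
      · rcases hi with h | h | h | h | h <;> rw [h]
        · exact ⟨fun _ => x1, fun _ => x1.symm⟩
        · exact ⟨fun _ => x1, fun _ => x2.symm⟩
        · exact ⟨fun _ => x1, fun _ => x3.symm⟩
        · exact ⟨fun _ => x1, fun _ => x4.symm⟩
        · exact ⟨fun _ => x1, fun _ => x5.symm⟩
      · rcases hi with h | h | h | h | h <;> rw [h]
        · exact ⟨fun y => absurd y.symm x1, fun y => absurd y x1⟩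
        · exact ⟨fun y => absurd y.symm x2, fun y => absurd y x1⟩
        · exact ⟨fun y => absurd y.symm x3, fun y => absurd y x1⟩
        · exact ⟨fun y => absurd y.symm x4, fun y => absurd y x1⟩
        · exact ⟨fun y => absurd y.symm x5, fun y => absurd y x1⟩
    · rintro i - j - ⟨hi, hi'⟩ ⟨hj, hj'⟩ hij
      have hic : G.Adj i c := by
        rcases hall i hi with x | x
        · exact x.2.2.1
        · exact absurd hi' x.1
      have hjc : G.Adj j c := by
        rcases hall j hj with x | x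
        · exact x.2.2.1
        · exact absurd hj' x.1
      exact c5_clique h4 h i j hij hi' hic hj' hjc
    · intro i hi j hj hi' hj'
      have hia : ¬ G.Adj i a := fun x => hi' ⟨hi, x⟩
      have hja : ¬ G.Adj j a := fun x => hj' ⟨hj, x⟩
      have hib : ¬ G.Adj i b := by
        rcases hall i hi with x | x
        · exact absurd x.1 hia
        · exact x.2.1
      have hjb : ¬ G.Adj j b := by
        rcases hall j hj with x | x
        · exact absurd x.1 hja
        · exact x.2.1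
      obtain ⟨x1, x2, -⟩ := (hrange i).1 hi
      obtain ⟨y1, y2, -⟩ := (hrange j).1 hj
      exact c5_indep h2 h i j x1 x2 y1 y2 hia hib hja hjb
    · ext v
      simp only [Set.mem_inter_iff, Set.mem_ofPred_eq, Set.mem_empty_iff_false, iff_false]
      rintro ⟨x, y, -⟩
      exact y x
  · push Not at h5
    obtain ⟨K, hK, hI⟩ := foldes_hammer h4 h2 h5
    refine ⟨∅, K, ⟨Or.inl rfl, ?_, ?_, ?_⟩, ?_⟩
    · intro i hi
      exact absurd hi (Set.notMem_empty _)
    · rintro i - j - hi hj hij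
      exact hK i hi j hj hij
    · rintro i - j - hi hj
      exact hI i hi j hj
    · simp

end

end Pool.Agent.W958
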