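import Pool.Agent.H671R2.CK.Defs
import Pool.Agent.H633R2.GraphDefs

/-!
# Edge editing problems for families of forbidden induced subgraphs, and polynomial kernels
-/

set_option autoImplicit false

namespace Pool.Agent.W958

open Pool.Agent.NPC Pool.Agent.H633R2

/-- `G` is `H`-free: no induced subgraph of `G` is isomorphic to `H`. -/
def IFree {W V : Type} (H : SimpleGraph W) (G : SimpleGraph V) : Prop := IsEmpty (H ↪g G)

/-- `𝓕`-Free Edge Editing: instances `(G, k)`, the graph `G` being given by its adjacency matrix;
is there a graph `G'` on the same vertices which is `H`-free for all `H` in `𝓕` and which differs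
from `G` in at most `k` pairs of vertices? -/
def Editing (𝓕 : Set (Σ n : ℕ, SimpleGraph (Fin n))) (x : List (List Bool) × ℕ) : Prop :=
  ∃ G' : SimpleGraph (Fin x.1.length), (∀ H ∈ 𝓕, IFree H.2 G') ∧
    (symmDiff (graphOf x.1).edgeSet G'.edgeSet).ncard ≤ x.2

/-- The problem `Q` (instances `(G, k)`, parameter `k`) has a polynomial kernel: a polynomial-time
algorithm maps every instance `x = (G, k)` to an instance `f x` which has the same answer and whose
size, i.e. the length of its code, is bounded by a polynomial in `k`. -/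
def HasPolyKernel (Q : List (List Bool) × ℕ → Prop) : Prop :=
  ∃ (f : List (List Bool) × ℕ → List (List Bool) × ℕ) (F : List Bool → List Bool)
    (p : Polynomial ℕ), PolyTime F ∧ (∀ x, F (bits x) = bits (f x)) ∧
      ∀ x, (Q (f x) ↔ Q x) ∧ (bits (f x)).length ≤ p.eval x.2

/-- The cycle `C₄`. -/
def C4 : Σ n : ℕ, SimpleGraph (Fin n) := ⟨4, SimpleGraph.cycleGraph 4⟩

/-- The graph `2K₂`, the complement of the cycle `C₄`. -/
def twoK2 : Σ n : ℕ, SimpleGraph (Fin n) := ⟨4, (SimpleGraph.cycleGraph 4)ᶜ⟩

end Pool.Agent.W958
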