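import Pool.Agent.W958.KMain

/-!
# Correctness of the instances, the equivalence
-/

set_option autoImplicit false

namespace Pool.Agent.W958

open Pool.Agent.NPC Pool.Agent.H633R2

variable {L E l k : ℕ} {ed : ℕ → ℕ → ℕ × ℕ}

theorem editing_C4_iff (M : List (List Bool)) (k : ℕ) : Editing {C4} (M, k) ↔
    ∃ G' : SimpleGraph (Fin M.length), N4 G' ∧
      (symmDiff (graphOf M).edgeSet G'.edgeSet).ncard ≤ k := by
  unfold Editing
  refine exists_congr fun G' => and_congr ?_ Iff.rfl
  rw [n4_iff, ← iFree_C4]
  simp

theorem val_hub (hE : 0 < E) (hL : 0 < L) : Val L E hub :=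
  ⟨by simp [hub], by simp [hub]; omega, by simpa [hub] using hE, by rw [okB_iff]; simp [hub]⟩

/-- the matrix of the instance -/
abbrev matI (ed : ℕ → ℕ → ℕ × ℕ) (k L E : ℕ) : List (List Bool) :=
  matOf (vsL ed k L E) (adG (adC ed))

theorem graph_matI (i j : Fin (matI ed k L E).length) : (graphOf (matI ed k L E)).Adj i j ↔
    adG (adC ed) (labOf (vsL ed k L E) (adG (adC ed)) i)
      (labOf (vsL ed k L E) (adG (adC ed)) j) = true := by
  apply graphOf_matOf
  · intro u _ v _
    exact adG_comm adC_comm u v
  · intro u hu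
    rw [mem_vsL] at hu
    exact adG_self (fun x hx => adC_self hx) u hu.1

theorem inst_bwd (hL : L = 2 ^ l) {K : ℕ} (hS : Simp L E ed) (hk : k = l + 2 * E + K)
    (h : ∃ h S, L ≤ h ∧ h < 2 * L ∧ Cov E ed h S ∧ S.card ≤ K) :
    Editing {C4} (matI ed k L E, k) := by
  classical
  obtain ⟨g, S, hg1, hg2, hC, hSK⟩ := h
  have hX := sys_bwd (ed := ed) hL hg1 hg2 hC
  obtain ⟨W, hW1, hW2⟩ := xx_card (E := E) (S := S) hL hg1 hg2
  set X := XX l g S with hXdef
  rw [editing_C4_iff]
  set lab := labOf (vsL ed k L E) (adG (adC ed)) with hlab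
  have hinj : Function.Injective lab := labOf_inj _ (nodup_vsL _ _ _ _)
  have hmem : ∀ i, lab i ∈ vsL ed k L E := labOf_mem _ _
  let G' : SimpleGraph (Fin (matI ed k L E).length) :=
    { Adj := fun i j => adG (adX ed X) (lab i) (lab j) = true
      symm := ⟨fun i j h => by rw [adG_comm (adX_comm X)]; exact h⟩
      loopless := ⟨fun i h => by
        have h1 := hmem i
        rw [mem_vsL] at h1
        rw [adG_self (fun x hx => adX_self hx) _ h1.1] at h
        exact absurd h (by decide)⟩ }
  have hG' : ∀ i j, G'.Adj i j ↔ adG (adX ed X) (lab i) (lab j) = true := fun _ _ => Iff.rfl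
  refine ⟨G', ?_, ?_⟩
  · intro a b c d hab hbc hcd hda hac hbd
    by_contra hno
    rw [not_or, hG', hG'] at hno
    obtain ⟨hno1, hno2⟩ := hno
    have hno1' : adG (adX ed X) (lab a) (lab c) = false := by simpa using hno1
    have hno2' : adG (adX ed X) (lab b) (lab d) = false := by simpa using hno2
    have hno1'' := hno1'
    have hno2'' := hno2'
    rw [adG_comm (adX_comm X)] at hno1'' hno2''
    rw [hG'] at hab hbc hcd hda
    have hac' : lab a ≠ lab c := fun h => hac (hinj h)
    have hbd' : lab b ≠ lab d := fun h => hbd (hinj h)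
    have hA1 : ∀ x y, Val L E x → Val L E y → x ≠ y → adC ed x y = true → flexC x y = false →
        adX ed X x y = true := fun x y hx hy hxy h1 h2 => by
      rw [adX_prot hX hx hy hxy (fun _ => h2)]; exact h1
    have hA2 : ∀ x y, Val L E x → Val L E y → x ≠ y → adC ed x y = false →
        adX ed X x y = false := fun x y hx hy hxy h1 => by
      rw [adX_prot hX hx hy hxy (fun h => by rw [h1] at h; exact absurd h (by decide))]; exact h1
    have ca := core_of_c4 (adX_comm X) hA1 hA2 (hmem a) (hmem b) (hmem c) (hmem d) hab hbc hcd hda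
      hac' hbd' hno2'
    have cb := core_of_c4 (adX_comm X) hA1 hA2 (hmem b) (hmem c) (hmem d) (hmem a) hbc hcd hda hab
      hbd' hac'.symm hno1''
    have cc := core_of_c4 (adX_comm X) hA1 hA2 (hmem c) (hmem d) (hmem a) (hmem b) hcd hda hab hbc
      hac'.symm hbd'.symm hno2''
    have cd := core_of_c4 (adX_comm X) hA1 hA2 (hmem d) (hmem a) (hmem b) (hmem c) hda hab hbc hcd
      hbd'.symm hac' hno1'
    have ma := mem_vsL.1 (hmem a)
    have mb := mem_vsL.1 (hmem b)
    have mc := mem_vsL.1 (hmem c)
    have md := mem_vsL.1 (hmem d)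
    unfold adG at hab hbc hcd hda hno1' hno2'
    rw [if_pos ca] at hab hno1'
    rw [if_pos cb] at hab hbc hno2'
    rw [if_pos cc] at hbc hcd hno1'
    rw [if_pos cd] at hcd hda hno2'
    rw [if_pos ca] at hda
    have hcore : ∀ p q : Lb, p ∈ vsL ed k L E → q ∈ vsL ed k L E → p.1 = p.2.1 → q.1 = q.2.1 →
        p ≠ q → p.1 ≠ q.1 := by
      intro p q hp hq hp' hq' hne h
      rw [mem_vsL] at hp hq
      rcases hp.2.2 with p3 | p3 | p3
      · rcases hq.2.2 with q3 | q3 | q3
        · exact hne (Prod.ext h (Prod.ext (hp'.symm.trans (h.trans hq'))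
            (Prod.ext (p3.2.1.trans q3.2.1.symm) (p3.2.2.trans q3.2.2.symm))))
        · exact q3.1 hq'
        · exact q3.1 hq'
      · exact p3.1 hp'
      · exact p3.1 hp'
    rcases core_c4 hS hX ma.1 mb.1 mc.1 md.1 hab hbc hcd hda
      (hcore _ _ (hmem a) (hmem c) ca cc hac') (hcore _ _ (hmem b) (hmem d) cb cd hbd') with h | h
    · rw [hno1'] at h; exact absurd h (by decide)
    · rw [hno2'] at h; exact absurd h (by decide)
  · -- the number of edits
    have hex : ∀ x : Co, Val L E x → ∃ i, lab i = (x, x, 0, 0) := fun x hx =>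
      exists_labOf _ (core_mem hx)
    have hLpos : 0 < L := hL ▸ Nat.two_pow_pos l
    by_cases hE : 0 < E
    · obtain ⟨ih, hih⟩ := hex hub (val_hub hE hLpos)
      let f : Co → Sym2 (Fin (matI ed k L E).length) := fun x =>
        if hx : Val L E x then s(ih, Classical.choose (hex x hx)) else s(ih, ih)
      have hsub : symmDiff (graphOf (matI ed k L E)).edgeSet G'.edgeSet ⊆ (W.image f : Finset _) := by
        intro e he
        induction e using Sym2.inductionOn with
        | _ i j =>
        rw [Set.mem_symmDiff, SimpleGraph.mem_edgeSet, SimpleGraph.mem_edgeSet, graph_matI,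
          hG'] at he
        have hdiff : adG (adX ed X) (lab i) (lab j) ≠ adG (adC ed) (lab i) (lab j) := by
          intro h
          rw [h] at he
          rcases he with ⟨h1, h2⟩ | ⟨h1, h2⟩
          · exact h2 h1
          · exact h2 h1
        have mi := mem_vsL.1 (hmem i)
        have mj := mem_vsL.1 (hmem j)
        unfold adG at hdiff
        by_cases ci : (lab i).1 = (lab i).2.1
        · by_cases cj : (lab j).1 = (lab j).2.1
          · rw [if_pos ci, if_pos cj, if_pos ci, if_pos cj] at hdiff
            have hci : lab i = ((lab i).1, (lab i).1, 0, 0) := by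
              rcases mi.2.2 with h | h | h
              · exact Prod.ext rfl (Prod.ext ci.symm (Prod.ext h.2.1 h.2.2))
              · exact absurd ci h.1
              · exact absurd ci h.1
            have hcj : lab j = ((lab j).1, (lab j).1, 0, 0) := by
              rcases mj.2.2 with h | h | h
              · exact Prod.ext rfl (Prod.ext cj.symm (Prod.ext h.2.1 h.2.2))
              · exact absurd cj h.1
              · exact absurd cj h.1
            have hf : ∀ j, lab j = ((lab j).1, (lab j).1, 0, 0) → Val L E (lab j).1 →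
                f (lab j).1 = s(ih, j) := by
              intro j hj hv
              simp only [f]
              rw [dif_pos hv]
              have h9 := hinj ((Classical.choose_spec (hex (lab j).1 hv)).trans hj.symm)
              exact congrArg (fun z => s(ih, z)) h9
            rw [Finset.mem_coe, Finset.mem_image]
            rcases adX_diff hX hdiff with ⟨h1, h2, h3⟩ | ⟨h1, h2, h3⟩
            · refine ⟨(lab j).1, hW2 _ mj.1 h2 h3, ?_⟩
              rw [hf j hcj mj.1]
              have : ih = i := hinj (by rw [hih, hci, h1])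
              rw [this]
            · refine ⟨(lab i).1, hW2 _ mi.1 h2 h3, ?_⟩
              rw [hf i hci mi.1]
              have : ih = j := hinj (by rw [hih, hcj, h1])
              rw [this, Sym2.eq_swap]
          · rw [if_pos ci, if_neg cj, if_pos ci, if_neg cj] at hdiff
            exact absurd rfl hdiff
        · rw [if_neg ci, if_neg ci] at hdiff
          exact absurd rfl hdiff
      refine (Set.ncard_le_ncard hsub (Finset.finite_toSet _)).trans ?_
      rw [Set.ncard_coe_finset]
      refine Finset.card_image_le.trans (hW1.trans ?_)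
      omega
    · -- no vertices
      have : IsEmpty (Fin (matI ed k L E).length) := by
        refine ⟨fun i => ?_⟩
        have := (mem_vsL.1 (hmem i)).1.2.2.1
        omega
      have h0 : symmDiff (graphOf (matI ed k L E)).edgeSet G'.edgeSet = ∅ := by
        ext e
        induction e using Sym2.inductionOn with
        | _ i j => exact isEmptyElim i
      rw [h0, Set.ncard_empty]
      omega

theorem inst_fwd (hL : L = 2 ^ l) (hE : 0 < E) {K : ℕ} (hS : Simp L E ed)
    (hk : k = l + 2 * E + K) (h : Editing {C4} (matI ed k L E, k)) :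
    ∃ h S, L ≤ h ∧ h < 2 * L ∧ Cov E ed h S ∧ S.card ≤ K := by
  classical
  rw [editing_C4_iff] at h
  obtain ⟨G', h4, hdist⟩ := h
  have hLpos : 0 < L := hL ▸ Nat.two_pow_pos l
  set lab := labOf (vsL ed k L E) (adG (adC ed)) with hlab
  have hinj : Function.Injective lab := labOf_inj _ (nodup_vsL _ _ _ _)
  have hadj : ∀ i j, (graphOf (matI ed k L E)).Adj i j ↔
      adG (adC ed) (lab i) (lab j) = true := graph_matI
  have hex : ∀ p : Lb, p ∈ vsL ed k L E → ∃ i, lab i = p := fun p hp => exists_labOf _ hp
  choose ix hix using hex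
  let cx : (x : Co) → Val L E x → Fin (matI ed k L E).length := fun x hx => ix _ (core_mem hx)
  have hcx : ∀ x hx, lab (cx x hx) = (x, x, 0, 0) := fun x hx => hix _ _
  have hcxinj : ∀ x y hx hy, cx x hx = cx y hy → x = y := by
    intro x y hx hy hxy
    have := congrArg lab hxy
    rw [hcx x hx, hcx y hy] at this
    exact congrArg Prod.fst this
  -- protected pairs
  have hprot1 : ∀ x y (hx : Val L E x) (hy : Val L E y), x ≠ y → adC ed x y = true →
      flexC x y = false → G'.Adj (cx x hx) (cx y hy) := by
    intro x y hx hy hxy hA hF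
    have hm : ∀ c : Fin (2 * k + 2), ((x, y, (c : ℕ), 0) : Lb) ∈ vsL ed k L E := by
      intro c
      rw [mem_vsL]
      exact ⟨hx, hy, Or.inr (Or.inl ⟨hxy, hA, hF, c.2, rfl⟩)⟩
    refine prot_edge hdist h4 (fun h => hxy (hcxinj x y hx hy h)) (fun c => ix _ (hm c)) ?_ ?_ ?_ ?_
    · intro c c' hcc
      have := congrArg lab hcc
      simp only [hix, Prod.mk.injEq, true_and, and_true] at this
      exact Fin.ext this
    · intro c
      rw [hadj, hix, hcx _ (by assumption)]
      simp [adG, hxy, att]
    · intro c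
      rw [hadj, hix, hcx _ (by assumption)]
      simp [adG, hxy, att]
    · intro c c'
      rw [hadj, hix, hix]
      simp [adG, hxy, twin]
  have hprot2 : ∀ x y (hx : Val L E x) (hy : Val L E y), x ≠ y → adC ed x y = false →
      ¬ G'.Adj (cx x hx) (cx y hy) := by
    intro x y hx hy hxy hA
    have hm1 : ∀ c : Fin (2 * k + 1), ((x, y, (c : ℕ), 1) : Lb) ∈ vsL ed k L E := by
      intro c
      rw [mem_vsL]
      exact ⟨hx, hy, Or.inr (Or.inr ⟨hxy, hA, c.2, Or.inl rfl⟩)⟩
    have hm2 : ∀ c : Fin (2 * k + 1), ((x, y, (c : ℕ), 2) : Lb) ∈ vsL ed k L E := by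
      intro c
      rw [mem_vsL]
      exact ⟨hx, hy, Or.inr (Or.inr ⟨hxy, hA, c.2, Or.inr rfl⟩)⟩
    refine prot_nonedge hdist h4 (fun c => ix _ (hm1 c)) (fun c => ix _ (hm2 c)) ?_ ?_ ?_ ?_ ?_ ?_
      ?_ ?_ ?_ ?_
    · intro c c' hcc
      have := congrArg lab hcc
      simp only [hix, Prod.mk.injEq, true_and, and_true] at this
      exact Fin.ext this
    · intro c c' hcc
      have := congrArg lab hcc
      simp only [hix, Prod.mk.injEq, true_and, and_true] at this
      exact Fin.ext this
    · intro c c' hcc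
      have := congrArg lab hcc
      simp [hix] at this
    · intro c
      rw [hadj, hix, hcx _ (by assumption)]
      simp [adG, hxy, att]
    · intro c
      rw [hadj, hix, hix]
      simp [adG, hxy, twin]
    · intro c
      rw [hadj, hix, hcx _ (by assumption)]
      simp [adG, hxy, att]
    · intro c
      rw [hadj, hix, hcx _ (by assumption)]
      simp [adG, hxy, att]
    · intro c
      rw [hadj, hix, hcx _ (by assumption)]
      simp [adG, hxy, att, hxy.symm]
    · intro c hcc
      have := congrArg lab hcc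
      rw [hix, hcx _ (by assumption)] at this
      simp at this
    · intro c hcc
      have := congrArg lab hcc
      rw [hix, hcx _ (by assumption)] at this
      simp at this
  have vh := val_hub (L := L) (E := E) hE hLpos
  let X : Co → Prop := fun x => x ≠ hub ∧ ∃ hx : Val L E x, ¬ G'.Adj (cx hub vh) (cx x hx)
  have vroot : Val L E root := val_tree hE le_rfl (by omega)
  have hXn : ∀ x (hx : Val L E x), x ≠ hub → ¬ X x → G'.Adj (cx hub vh) (cx x hx) := by
    intro x hx hxh hnx
    by_contra hc
    exact hnx ⟨hxh, hx, hc⟩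
  have hsys : Sys L E ed X := by
    refine ⟨?_, ?_, ?_⟩
    · exact ⟨by decide, vroot, hprot2 hub root vh vroot (by decide) (by simp [adC])⟩
    · rintro x hx hx2 ⟨hxh', hx3, hc⟩
      have hxh : x ≠ hub := tag_ne_hub (by omega)
      have hxr : x ≠ root := by
        rintro rfl
        simp [root] at hx2
      apply hc
      apply hprot1 hub x vh hx3 hxh.symm
      · simp [adC, hxh, hxr]
      · have : ¬ (x.1 = 1 ∨ x.1 = 3 ∨ x.1 = 5 ∨ x.1 = 6) := by omega
        simp [flexC, hxh, this]
    · rintro w u v hw hu hv ⟨hwh, hw', hwX⟩ hwu hwv hXu hXv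
      by_contra huv
      have hu1 := (adB_ne_hub hwu).2
      have hv1 := (adB_ne_hub hwv).2
      have hflex : ∀ x y : Co, x ≠ hub → y ≠ hub → flexC x y = false := by
        intro x y h1 h2
        simp [flexC, h1, h2]
      have e1 := hXn u hu hu1 hXu
      have e2 := hXn v hv hv1 hXv
      have huw : u ≠ w := by
        rintro rfl
        rw [adB_irrefl hu] at hwu
        exact absurd hwu (by decide)
      have hvw : v ≠ w := by
        rintro rfl
        rw [adB_irrefl hv] at hwv
        exact absurd hwv (by decide)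
      have e3 : G'.Adj (cx w hw) (cx u hu) := hprot1 w u hw hu huw.symm (by simp [adC, hwh, hu1, hwu])
        (hflex _ _ hwh hu1)
      have e4 : G'.Adj (cx w hw) (cx v hv) := hprot1 w v hw hv hvw.symm (by simp [adC, hwh, hv1, hwv])
        (hflex _ _ hwh hv1)
      have e5 : ¬ G'.Adj (cx u hu) (cx v hv) := by
        apply hprot2 u v hu hv huv
        have : adB ed u v = false := by
          by_contra hc
          exact no_tri hw hu hv hwu hwv (by simpa using hc)
        simp [adC, hu1, hv1, this]
      rcases h4 _ _ _ _ e1 e3.symm e4 e2.symm (fun h => hwh (hcxinj hub w vh hw h).symm)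
        (fun h => huv (hcxinj u v hu hv h)) with h | h
      · exact hwX h
      · exact e5 h
  refine sys_fwd hL hE hS hsys ?_
  intro W hW
  rw [← hk]
  refine le_trans ?_ hdist
  let f : Co → Sym2 (Fin (matI ed k L E).length) := fun x =>
    if hx : Val L E x then s(cx hub vh, cx x hx) else s(cx hub vh, cx hub vh)
  have hfv : ∀ x (hx : Val L E x), f x = s(cx hub vh, cx x hx) := fun x hx => by
    simp only [f]; rw [dif_pos hx]
  rw [← Set.ncard_coe_finset]
  refine Set.ncard_le_ncard_of_injOn f ?_ ?_ (Set.toFinite _)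
  · intro x hx
    obtain ⟨hv, ⟨hxh, hv', hxX⟩, hxr⟩ := hW x hx
    rw [hfv x hv, Set.mem_symmDiff, SimpleGraph.mem_edgeSet, SimpleGraph.mem_edgeSet]
    left
    refine ⟨?_, hxX⟩
    rw [hadj, hcx _ vh, hcx x hv]
    simp [adG, adC, hxh, hxr]
  · intro x hx y hy hxy
    obtain ⟨hv, ⟨hxh, -⟩, -⟩ := hW x hx
    obtain ⟨hv', ⟨hyh, -⟩, -⟩ := hW y hy
    rw [hfv x hv, hfv y hv', Sym2.eq_iff] at hxy
    rcases hxy with h | h
    · exact hcxinj x y hv hv' h.2
    · exact absurd (hcxinj x hub hv vh h.2) hxh

theorem inst_iff (hL : L = 2 ^ l) (hE : 0 < E) {K : ℕ} (hS : Simp L E ed)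
    (hk : k = l + 2 * E + K) : Editing {C4} (matI ed k L E, k) ↔
    ∃ h S, L ≤ h ∧ h < 2 * L ∧ Cov E ed h S ∧ S.card ≤ K :=
  ⟨inst_fwd hL hE hS hk, inst_bwd hL hS hk⟩

end Pool.Agent.W958
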