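import Pool.Agent.W958.KSplit

/-!
# Graphs without induced `C₄`, `2K₂` and `C₅` are split graphs
-/

set_option autoImplicit false

namespace Pool.Agent.W958

variable {V : Type}

/-- clique -/
def Clq (G : SimpleGraph V) (K : Finset V) : Prop := ∀ u ∈ K, ∀ v ∈ K, u ≠ v → G.Adj u v

open Classical in
/-- the ordered pairs of adjacent vertices outside of `K` -/
noncomputable def outP [Fintype V] (G : SimpleGraph V) (K : Finset V) : Finset (V × V) :=
  Finset.univ.filter fun p => p.1 ∉ K ∧ p.2 ∉ K ∧ G.Adj p.1 p.2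

theorem mem_outP [Fintype V] {G : SimpleGraph V} {K : Finset V} {p : V × V} :
    p ∈ outP G K ↔ p.1 ∉ K ∧ p.2 ∉ K ∧ G.Adj p.1 p.2 := by
  simp [outP]

open Classical in
theorem exists_best [Fintype V] (G : SimpleGraph V) :
    ∃ K : Finset V, Clq G K ∧ (∀ K', Clq G K' → K'.card ≤ K.card) ∧
      ∀ K', Clq G K' → K'.card = K.card → (outP G K).card ≤ (outP G K').card := by
  obtain ⟨K0, h0, h0'⟩ := Finset.exists_max_image
    ((Finset.univ : Finset (Finset V)).filter (Clq G)) Finset.card
    ⟨∅, by simp [Clq]⟩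
  simp only [Finset.mem_filter, Finset.mem_univ, true_and] at h0 h0'
  obtain ⟨K, hK, hK'⟩ := Finset.exists_min_image
    ((Finset.univ : Finset (Finset V)).filter (fun K => Clq G K ∧ K.card = K0.card))
    (fun K => (outP G K).card) ⟨K0, by simp [h0]⟩
  simp only [Finset.mem_filter, Finset.mem_univ, true_and] at hK hK'
  refine ⟨K, hK.1, fun K' h => ?_, fun K' h h' => hK' K' ⟨h, h'.trans hK.2⟩⟩
  rw [hK.2]
  exact h0' K' h

theorem clq_insert {G : SimpleGraph V} [DecidableEq V] {K : Finset V} {x : V} (hK : Clq G K)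
    (hx : ∀ u ∈ K, u ≠ x → G.Adj x u) : Clq G (insert x K) := by
  intro u hu v hv huv
  rw [Finset.mem_insert] at hu hv
  rcases hu with rfl | hu
  · rcases hv with rfl | hv
    · exact absurd rfl huv
    · exact hx v hv huv.symm
  · rcases hv with rfl | hv
    · exact (hx u hu huv).symm
    · exact hK u hu v hv huv

theorem fh_aux [Fintype V] {G : SimpleGraph V} (h4 : N4 G) (h2 : N2 G)
    (h5 : ∀ a b c d e, ¬ IsC5 G a b c d e) {K : Finset V} (hK : Clq G K)
    (hmax : ∀ K', Clq G K' → K'.card ≤ K.card)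
    (hout : ∀ K', Clq G K' → K'.card = K.card → (outP G K).card ≤ (outP G K').card)
    {x y z : V} (hx : x ∉ K) (hy : y ∉ K) (hxy : G.Adj x y) (hz : z ∈ K) (hzx : ¬ G.Adj x z)
    (hzy : ¬ G.Adj y z) (hall : ∀ u ∈ K, u ≠ z → G.Adj x u) : False := by
  classical
  have hxz : x ≠ z := fun h => hx (h ▸ hz)
  have hyz : y ≠ z := fun h => hy (h ▸ hz)
  -- the exchanged clique
  have hKe : Clq G (K.erase z) := fun u hu v hv huv =>
    hK u (Finset.mem_of_mem_erase hu) v (Finset.mem_of_mem_erase hv) huv
  have hK' : Clq G (insert x (K.erase z)) := by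
    refine clq_insert hKe fun u hu _ => ?_
    rw [Finset.mem_erase] at hu
    exact hall u hu.2 hu.1
  have hxe : x ∉ K.erase z := fun h => hx (Finset.mem_of_mem_erase h)
  have hc' : (insert x (K.erase z)).card = K.card := by
    rw [Finset.card_insert_of_notMem hxe, Finset.card_erase_of_mem hz]
    have : 0 < K.card := Finset.card_pos.2 ⟨z, hz⟩
    omega
  have hle := hout _ hK' hc'
  -- a neighbour of `z` outside which is not a neighbour of `x`
  have hw : ∃ w, w ∉ K ∧ w ≠ x ∧ G.Adj w z ∧ ¬ G.Adj w x := by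
    by_contra hno
    push Not at hno
    let φ : V → V := fun v => if v = z then x else v
    have hxy' : (x, y) ∈ outP G K := mem_outP.2 ⟨hx, hy, hxy⟩
    have hout' : ∀ v, v ∉ insert x (K.erase z) → v = z ∨ (v ∉ K ∧ v ≠ x) := by
      intro v hv
      rw [Finset.mem_insert, Finset.mem_erase, not_or, not_and_or] at hv
      rcases hv with ⟨h1, h2 | h2⟩
      · left; exact not_not.1 h2
      · right; exact ⟨h2, h1⟩
    have hφz : φ z = x := by simp [φ]
    have hφn : ∀ v, v ≠ z → φ v = v := fun v hv => by simp [φ, hv]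
    have hφ : (outP G (insert x (K.erase z))).card ≤ ((outP G K).erase (x, y)).card := by
      refine Finset.card_le_card_of_injOn (fun p : V × V => (φ p.1, φ p.2)) ?_ ?_
      · rintro ⟨p, q⟩ hpq0
        obtain ⟨hp, hq, hpq⟩ := mem_outP.1 hpq0
        clear hpq0
        change p ∉ insert x (K.erase z) at hp
        change q ∉ insert x (K.erase z) at hq
        change G.Adj p q at hpq
        simp only [Finset.coe_erase, Set.mem_sdiff, Finset.mem_coe, mem_outP,
          Set.mem_singleton_iff, Prod.mk.injEq, not_and]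
        rcases hout' p hp with rfl | ⟨hp1, hp2⟩
        · rcases hout' q hq with rfl | ⟨hq1, hq2⟩
          · exact absurd rfl hpq.ne
          · have hqz : q ≠ p := hpq.ne.symm
            rw [hφz, hφn q hqz]
            refine ⟨⟨hx, hq1, (hno q hq1 hq2 hpq.symm).symm⟩, fun _ h => ?_⟩
            rw [h] at hpq
            exact hzy hpq.symm
        · rcases hout' q hq with rfl | ⟨hq1, hq2⟩
          · have hqz : p ≠ q := hpq.ne
            rw [hφz, hφn p hqz]
            exact ⟨⟨hp1, hx, hno p hp1 hp2 hpq⟩, fun h => absurd h hp2⟩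
          · rw [hφn p (fun h => hp1 (h ▸ hz)), hφn q (fun h => hq1 (h ▸ hz))]
            exact ⟨⟨hp1, hq1, hpq⟩, fun h => absurd h hp2⟩
      · have hinj : ∀ v w, v ∉ insert x (K.erase z) → w ∉ insert x (K.erase z) → φ v = φ w →
            v = w := by
          intro v w hv hw h
          by_cases h1 : v = z
          · by_cases h2 : w = z
            · rw [h1, h2]
            · rw [h1, hφz, hφn w h2] at h
              exact absurd (h ▸ Finset.mem_insert_self _ _) hw
          · by_cases h2 : w = z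
            · rw [h2, hφz, hφn v h1] at h
              exact absurd (h.symm ▸ Finset.mem_insert_self _ _) hv
            · rwa [hφn v h1, hφn w h2] at h
        rintro ⟨p, q⟩ hpq ⟨p', q'⟩ hpq' h
        obtain ⟨hp, hq, -⟩ := mem_outP.1 hpq
        obtain ⟨hp', hq', -⟩ := mem_outP.1 hpq'
        simp only [Prod.mk.injEq] at h
        exact Prod.ext (hinj _ _ hp hp' h.1) (hinj _ _ hq hq' h.2)
    rw [Finset.card_erase_of_mem hxy'] at hφ
    have := Finset.card_pos.2 ⟨_, hxy'⟩
    omega
  obtain ⟨w, hwK, hwx, hwz, hwx'⟩ := hw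
  have hwy : w ≠ y := fun h => hzy (h ▸ hwz)
  have hyw : G.Adj y w := by
    rcases h2 x y z w hxy hwz.symm hxz hwx.symm hyz hwy.symm with h | h | h | h
    · exact absurd h hzx
    · exact absurd h.symm hwx'
    · exact absurd h hzy
    · exact h
  have key : ∀ u ∈ K, u ≠ z → G.Adj y u ∧ G.Adj w u := by
    intro u hu huz
    have hux := hall u hu huz
    have huz' := hK u hu z hz huz
    have huy : u ≠ y := fun h => hy (h ▸ hu)
    have huw : u ≠ w := fun h => hwK (h ▸ hu)
    by_cases a : G.Adj y u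
    · by_cases b : G.Adj w u
      · exact ⟨a, b⟩
      · rcases h4 y w z u hyw hwz huz'.symm a.symm hyz huw.symm with h | h
        · exact absurd h hzy
        · exact absurd h b
    · by_cases b : G.Adj w u
      · rcases h4 x y w u hxy hyw b hux.symm hwx.symm huy.symm with h | h
        · exact absurd h.symm hwx'
        · exact absurd h a
      · refine absurd ?_ (h5 x y w z u)
        exact ⟨hxy, hyw, hwz, huz'.symm, hux.symm, hwx.symm, hyz, huw.symm, hxz.symm, huy,
          fun h => hwx' h.symm, hzy, b, fun h => hzx h.symm, fun h => a h.symm⟩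
  -- the larger clique
  have hwe : w ∉ K.erase z := fun h => hwK (Finset.mem_of_mem_erase h)
  have hye : y ∉ insert w (K.erase z) := by
    rw [Finset.mem_insert]
    rintro (h | h)
    · exact hwy h.symm
    · exact hy (Finset.mem_of_mem_erase h)
  have hK2 : Clq G (insert y (insert w (K.erase z))) := by
    refine clq_insert (clq_insert hKe fun u hu _ => ?_) fun u hu _ => ?_
    · rw [Finset.mem_erase] at hu
      exact (key u hu.2 hu.1).2
    · rw [Finset.mem_insert, Finset.mem_erase] at hu
      rcases hu with rfl | hu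
      · exact hyw
      · exact (key u hu.2 hu.1).1
  have := hmax _ hK2
  rw [Finset.card_insert_of_notMem hye, Finset.card_insert_of_notMem hwe,
    Finset.card_erase_of_mem hz] at this
  have : 0 < K.card := Finset.card_pos.2 ⟨z, hz⟩
  omega

/-- **Theorem of Földes and Hammer**: without induced `C₄`, `2K₂`, `C₅` the vertices are
partitioned into a clique and an independent set. -/
theorem foldes_hammer [Fintype V] {G : SimpleGraph V} (h4 : N4 G) (h2 : N2 G)
    (h5 : ∀ a b c d e, ¬ IsC5 G a b c d e) :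
    ∃ K : Finset V, Clq G K ∧ ∀ u ∉ K, ∀ v ∉ K, ¬ G.Adj u v := by
  classical
  obtain ⟨K, hK, hmax, hout⟩ := exists_best G
  refine ⟨K, hK, fun x hx y hy hxy => ?_⟩
  have hnon : ∀ x, x ∉ K → ∃ u ∈ K, ¬ G.Adj x u := by
    intro x hx
    by_contra h
    push Not at h
    have := hmax _ (clq_insert hK fun u hu _ => h u hu)
    rw [Finset.card_insert_of_notMem hx] at this
    omega
  have hsq : ∀ x' ∈ K, ∀ y' ∈ K, ¬ G.Adj x x' → ¬ G.Adj y y' → G.Adj y x' → G.Adj x y' →
      False := by
    intro x' hx' y' hy' h1 h2' h3 h6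
    have hne : x' ≠ y' := fun h => h1 (h ▸ h6)
    rcases h4 x y x' y' hxy h3 (hK x' hx' y' hy' hne) h6.symm (fun h => hx (h ▸ hx'))
      (fun h => hy (h ▸ hy')) with h | h
    · exact h1 h
    · exact h2' h
  have hz : ∃ z ∈ K, ¬ G.Adj x z ∧ ¬ G.Adj y z := by
    by_contra hno
    push Not at hno
    obtain ⟨x', hx', h1⟩ := hnon x hx
    obtain ⟨y', hy', h3⟩ := hnon y hy
    refine hsq x' hx' y' hy' h1 h3 (hno x' hx' h1) ?_
    by_contra h
    exact h3 (hno y' hy' h)
  obtain ⟨z, hz, hzx, hzy⟩ := hz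
  have hone : ∀ u ∈ K, u ≠ z → G.Adj x u ∨ G.Adj y u := by
    intro u hu huz
    rcases h2 x y z u hxy (hK z hz u hu huz.symm) (fun h => hx (h ▸ hz)) (fun h => hx (h ▸ hu))
      (fun h => hy (h ▸ hz)) (fun h => hy (h ▸ hu)) with h | h | h | h
    · exact absurd h hzx
    · exact Or.inl h
    · exact absurd h hzy
    · exact Or.inr h
  by_cases hall : ∀ u ∈ K, u ≠ z → G.Adj x u
  · exact fh_aux h4 h2 h5 hK hmax hout hx hy hxy hz hzx hzy hall
  · have hall' : ∀ u ∈ K, u ≠ z → G.Adj y u := by
      push Not at hall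
      obtain ⟨x', hx', hxz', h1⟩ := hall
      intro u hu huz
      by_contra h
      exact hsq x' hx' u hu h1 h ((hone x' hx' hxz').resolve_left h1)
        ((hone u hu huz).resolve_right h)
    exact fh_aux h4 h2 h5 hK hmax hout hy hx hxy.symm hz hzy hzx hall'

end Pool.Agent.W958
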