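import Pool.Agent.W958.KComp
import Pool.Agent.H671R2.Search

/-!
# Kernels for `C₄`-free and for `2K₂`-free edge editing
-/

set_option autoImplicit false

namespace Pool.Agent.W958

open Pool.Agent.NPC Pool.Agent.H633R2 Pool.Agent.CK Pool.Agent.H622R2 Pool.Agent.NPC.R671

theorem eval_mono' (p : Polynomial ℕ) {a b : ℕ} (h : a ≤ b) : p.eval a ≤ p.eval b := by
  rw [Polynomial.eval_eq_sum, Polynomial.eval_eq_sum]
  exact Finset.sum_le_sum fun i _ => Nat.mul_le_mul_left _ (Nat.pow_le_pow_left h i)

theorem poly_of_kernel {f : List (List Bool) × ℕ → List (List Bool) × ℕ}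
    {F : List Bool → List Bool} (hF : PolyTime F) (h : ∀ x, F (bits x) = bits (f x)) : Poly f := by
  have h1 : Poly (fun x : List (List Bool) × ℕ => F (bits x)) :=
    (poly_of_polyTime hF).comp poly_bits
  have h2 := (poly_unbits (α := List (List Bool) × ℕ)).comp h1
  refine (Poly.optGetD h2 (NPC.Poly.const (([], 0) : List (List Bool) × ℕ))).congr fun x => ?_
  show (unbits (List (List Bool) × ℕ) (F (bits x))).getD ([], 0) = f x
  rw [h, unbits_bits]
  rfl

theorem conp_of_kernel (Q : List (List Bool) × ℕ → Prop)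
    (g : List (List Bool) → List (List Bool)) (hg : Poly g)
    (hgQ : ∀ x, Q (g x.1, x.2) ↔ Editing {C4} x) (h : HasPolyKernel Q) : CoNPSubsetNPPoly := by
  obtain ⟨f, F, p, hF, hFf, hker⟩ := h
  have hfP : Poly f := poly_of_kernel hF hFf
  intro L hL
  obtain ⟨red, hred, hpr, hL'⟩ := hardPr_SAT3b Lᶜ hL
  have hredP : Poly red := PC.comp (g := red) (f := fun x => x) hred rawOut
  obtain ⟨p', hp'⟩ := hredP.sz_le
  have hfs : Poly (fun xs : List (List Bool) => xs.map red) :=
    NPC.Poly.map (F := fun _ x => red x) NPC.Poly.id (hredP.comp (NPC.Poly.snd NPC.Poly.id))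
  have hins := poly_insI hfs
  have hcomp : Poly (fun xs : List (List Bool) =>
      f (g (insI (xs.map red)).1, (insI (xs.map red)).2)) :=
    hfP.comp (NPC.Poly.pair (hg.comp (NPC.Poly.fst hins)) (NPC.Poly.snd hins))
  refine fs L _ hcomp Q (p.comp (Polynomial.X +
    Polynomial.C 23 * (p'.comp (Polynomial.C 4 * Polynomial.X + 1) + 1))) ?_ ?_
  · intro n xs _ hn
    have h1 := (hker (g (insI (xs.map red)).1, (insI (xs.map red)).2)).2
    rw [bits_length] at h1
    refine h1.trans ?_
    rw [Polynomial.eval_comp]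
    apply eval_mono'
    have hlen : ∀ φ ∈ xs.map red, φ.length ≤ p'.eval (4 * n + 1) := by
      intro φ hφ
      obtain ⟨x, hx, rfl⟩ := List.mem_map.1 hφ
      have e1 := length_lt_sz (red x)
      have e2 := hp' x
      have e3 := sz_listBool_le x
      rw [hn x hx] at e3
      have e4 := eval_mono' p' e3
      omega
    have hM := K15_foldl (xs.map red) 1 _ hlen
    have hM' : maxLen (xs.map red) ≤ max 1 (p'.eval (4 * n + 1)) := hM
    show kI (xs.map red) ≤ _
    unfold kI
    rw [List.length_map]
    simp only [Polynomial.eval_add, Polynomial.eval_comp, Polynomial.eval_mul, Polynomial.eval_C,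
      Polynomial.eval_X, Polynomial.eval_one]
    have e5 : p'.eval (4 * n + 1) ≤ p'.eval (4 * (n + xs.length.size) + 1) :=
      eval_mono' p' (by omega)
    omega
  · intro n xs hne _
    rw [(hker _).1, hgQ (insI (xs.map red)), insI_iff]
    · constructor
      · rintro ⟨φ, hφ, hs⟩
        obtain ⟨x, hx, rfl⟩ := List.mem_map.1 hφ
        exact ⟨x, hx, (hL' x).2 hs⟩
      · rintro ⟨x, hx, hxL⟩
        exact ⟨red x, List.mem_map_of_mem hx, (hL' x).1 hxL⟩
    · simpa using hne
    · intro φ hφ
      obtain ⟨x, -, rfl⟩ := List.mem_map.1 hφ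
      exact (hpr x).2.1

theorem no_kernel_C4 (h : HasPolyKernel (Editing {C4})) : CoNPSubsetNPPoly :=
  conp_of_kernel (Editing {C4}) (fun x => x) NPC.Poly.id (fun _ => Iff.rfl) h

/-! ### Complements -/

/-- a matrix of the complement -/
def compM (M : List (List Bool)) : List (List Bool) :=
  (List.range M.length).map fun i => (List.range M.length).map fun j => !(adjB M i j)

theorem poly_compM : Poly compM := by
  have hr : Poly (fun M : List (List Bool) => List.range M.length) :=
    (UPoly.length NPC.Poly.id).range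
  unfold compM
  refine NPC.Poly.map (F := fun M i => (List.range M.length).map fun j => !(adjB M i j)) hr ?_
  refine NPC.Poly.map (l := fun p : List (List Bool) × ℕ => List.range p.1.length)
    (F := fun p j => !(adjB p.1 p.2 j)) (hr.comp (NPC.Poly.fst NPC.Poly.id)) ?_
  exact NPC.Poly.not (poly_adjB (NPC.Poly.fst (NPC.Poly.fst NPC.Poly.id))
    (NPC.Poly.snd (NPC.Poly.fst NPC.Poly.id)) (NPC.Poly.snd NPC.Poly.id))

theorem compM_length (M : List (List Bool)) : (compM M).length = M.length := by
  simp [compM]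

theorem entry_compM (M : List (List Bool)) {i j : ℕ} (hi : i < M.length) (hj : j < M.length) :
    entry (compM M) i j = !(adjB M i j) := by
  unfold entry compM
  simp [List.getD_eq_getElem?_getD, hi, hj]

/-- editing of an abstract graph -/
def EdG {W : Type} (H : SimpleGraph W) {n : ℕ} (G : SimpleGraph (Fin n)) (k : ℕ) : Prop :=
  ∃ G' : SimpleGraph (Fin n), IFree H G' ∧ (symmDiff G.edgeSet G'.edgeSet).ncard ≤ k

theorem editing_single (H : Σ n : ℕ, SimpleGraph (Fin n)) (x : List (List Bool) × ℕ) :
    Editing {H} x ↔ EdG H.2 (graphOf x.1) x.2 := by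
  unfold Editing EdG
  refine exists_congr fun G' => and_congr ?_ Iff.rfl
  simp

theorem edG_cast {W : Type} (H : SimpleGraph W) {n m : ℕ} (h : n = m) (G1 : SimpleGraph (Fin n))
    (G2 : SimpleGraph (Fin m)) (hG : ∀ i j, G1.Adj i j ↔ G2.Adj (Fin.cast h i) (Fin.cast h j))
    (k : ℕ) : EdG H G1 k ↔ EdG H G2 k := by
  subst h
  have : G1 = G2 := by
    ext i j
    exact hG i j
  rw [this]

theorem symmDiff_compl {V : Type} (G G' : SimpleGraph V) :
    symmDiff Gᶜ.edgeSet G'ᶜ.edgeSet = symmDiff G.edgeSet G'.edgeSet := by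
  ext e
  induction e using Sym2.inductionOn with
  | _ i j =>
    simp only [Set.mem_symmDiff, SimpleGraph.mem_edgeSet, SimpleGraph.compl_adj]
    by_cases hij : i = j
    · subst hij
      simp
    · tauto

theorem edG_compl {W : Type} (H : SimpleGraph W) {n : ℕ} (G : SimpleGraph (Fin n)) (k : ℕ) :
    EdG Hᶜ Gᶜ k ↔ EdG H G k := by
  constructor
  · rintro ⟨G', h1, h2⟩
    refine ⟨G'ᶜ, (iFree_compl H G').1 h1, ?_⟩
    rw [← symmDiff_compl, compl_compl]
    exact h2
  · rintro ⟨G', h1, h2⟩
    refine ⟨G'ᶜ, (iFree_compl H G'ᶜ).2 (by rwa [compl_compl]), ?_⟩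
    rw [symmDiff_compl]
    exact h2

theorem graph_compM (M : List (List Bool)) (i j : Fin (compM M).length) :
    (graphOf (compM M)).Adj i j ↔
      ((graphOf M)ᶜ).Adj (Fin.cast (compM_length M) i) (Fin.cast (compM_length M) j) := by
  have hi := lt_of_lt_of_eq i.2 (compM_length M)
  have hj := lt_of_lt_of_eq j.2 (compM_length M)
  rw [SimpleGraph.compl_adj]
  change (i ≠ j ∧ (entry _ i j = true ∨ entry _ j i = true)) ↔ (_ ∧
    ¬ (Fin.cast (compM_length M) i ≠ Fin.cast (compM_length M) j ∧ (entry M i j = true ∨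
      entry M j i = true)))
  rw [entry_compM M hi hj, entry_compM M hj hi, adjB_symm M j i, or_self]
  have e : (Fin.cast (compM_length M) i ≠ Fin.cast (compM_length M) j) ↔ i ≠ j := by
    rw [ne_eq, ne_eq, Fin.cast_inj]
  rw [e]
  refine and_congr_right fun hij => ?_
  have hij' : (i : ℕ) ≠ j := fun h => hij (Fin.ext h)
  unfold adjB
  simp [hij', hij]

theorem editing_compM (x : List (List Bool) × ℕ) :
    Editing {twoK2} (compM x.1, x.2) ↔ Editing {C4} x := by
  rw [editing_single, editing_single]
  show EdG (SimpleGraph.cycleGraph 4)ᶜ (graphOf (compM x.1)) x.2 ↔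
    EdG (SimpleGraph.cycleGraph 4) (graphOf x.1) x.2
  rw [edG_cast _ (compM_length x.1) _ _ (graph_compM x.1), edG_compl]

theorem no_kernel_twoK2 (h : HasPolyKernel (Editing {twoK2})) : CoNPSubsetNPPoly :=
  conp_of_kernel (Editing {twoK2}) compM poly_compM editing_compM h

/-! ### The kernel for both graphs -/

/-- a fixed instance with the answer no -/
def noI : List (List Bool) × ℕ :=
  ([[false, true, false, true], [true, false, true, false], [false, true, false, true],
    [true, false, true, false]], 0)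

theorem noI_no : ¬ Editing {C4, twoK2} noI := by
  rintro ⟨G', h1, h2⟩
  have h3 := h1 C4 (by simp)
  rw [iFree_C4] at h3
  apply h3
  have h4 : symmDiff (graphOf noI.1).edgeSet G'.edgeSet = ∅ := by
    rw [← Set.ncard_eq_zero (Set.toFinite _)]
    exact Nat.le_zero.1 h2
  have h5 : (graphOf noI.1).edgeSet = G'.edgeSet := by
    rwa [← Set.bot_eq_empty, symmDiff_eq_bot] at h4
  have h6 : graphOf noI.1 = G' := SimpleGraph.edgeSet_inj.1 h5
  rw [← h6]
  have e : ∀ i j : Fin 4, (graphOf noI.1).Adj i j ↔
      (i ≠ j ∧ (entry noI.1 i j = true ∨ entry noI.1 j i = true)) := fun _ _ => Iff.rfl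
  refine ⟨(0 : Fin 4), (1 : Fin 4), (2 : Fin 4), (3 : Fin 4), (e 0 1).2 (by decide),
    (e 1 2).2 (by decide), (e 2 3).2 (by decide), (e 3 0).2 (by decide), ?_, ?_, ?_, ?_⟩
  · exact show (0 : Fin 4) ≠ 2 by decide
  · exact show (1 : Fin 4) ≠ 3 by decide
  · exact fun h => absurd ((e 0 2).1 h) (by decide)
  · exact fun h => absurd ((e 1 3).1 h) (by decide)

theorem yesI_yes : Editing {C4, twoK2} ([], 0) := by
  refine ⟨⊥, ?_, ?_⟩
  · intro H hH
    rcases hH with rfl | rfl
    · rw [iFree_C4]
      rintro ⟨a, -⟩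
      exact Fin.elim0 a
    · rw [iFree_twoK2]
      rintro ⟨a, -⟩
      exact Fin.elim0 a
  · have : symmDiff (graphOf (([], 0) : List (List Bool) × ℕ).1).edgeSet
        (⊥ : SimpleGraph (Fin (([], 0) : List (List Bool) × ℕ).1.length)).edgeSet = ∅ := by
      apply Set.eq_empty_of_forall_notMem
      intro e
      induction e using Sym2.inductionOn with
      | _ i j => exact Fin.elim0 i
    rw [this, Set.ncard_empty]

theorem kernel_both : HasPolyKernel (Editing {C4, twoK2}) := by
  have hP : Poly (fun x : List (List Bool) × ℕ => if test x = true then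
      (([], 0) : List (List Bool) × ℕ) else noI) :=
    NPC.Poly.ite (NPC.Poly.decide_bool poly_test) (NPC.Poly.const _) (NPC.Poly.const _)
  have hQ : Poly (fun x : List Bool => (unbits (List (List Bool) × ℕ) x).elim
      (([], 0) : List (List Bool) × ℕ) (fun x => if test x = true then
      (([], 0) : List (List Bool) × ℕ) else noI)) :=
    Poly.optElim (h := fun _ x => if test x = true then
      (([], 0) : List (List Bool) × ℕ) else noI) poly_unbits (NPC.Poly.const _)
      (hP.comp (NPC.Poly.snd NPC.Poly.id))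
  refine ⟨fun x => if test x = true then (([], 0) : List (List Bool) × ℕ) else noI, _,
    Polynomial.C (sz noI + sz (([], 0) : List (List Bool) × ℕ)), polyTime_bits hQ, ?_, ?_⟩
  · intro x
    simp only [unbits_bits]
    rfl
  · intro x
    rw [Polynomial.eval_C, bits_length]
    beta_reduce
    by_cases h : test x = true
    · rw [if_pos h]
      exact ⟨⟨fun _ => (test_iff x).1 h, fun _ => yesI_yes⟩, by omega⟩
    · rw [if_neg h]
      exact ⟨⟨fun h' => absurd h' noI_no, fun h' => absurd ((test_iff x).2 h') h⟩, by omega⟩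

end Pool.Agent.W958
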