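import Pool.Agent.W958.KSplit

/-!
# Protecting pairs of vertices from being edited
-/

set_option autoImplicit false

namespace Pool.Agent.W958

variable {V : Type} [Finite V]

/-- the vertices which belong to an edited pair -/
def touched (G G' : SimpleGraph V) : Set V := {v | ∃ w, ¬ (G.Adj v w ↔ G'.Adj v w)}

theorem touched_ncard {G G' : SimpleGraph V} {k : ℕ}
    (h : (symmDiff G.edgeSet G'.edgeSet).ncard ≤ k) : (touched G G').ncard ≤ 2 * k := by
  classical
  have := Fintype.ofFinite V
  set D : Finset (Sym2 V) := (symmDiff G.edgeSet G'.edgeSet).toFinite.toFinset with hD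
  have hDc : D.card ≤ k := by
    rw [hD, ← Set.ncard_eq_toFinset_card]
    exact h
  have hsub : touched G G' ⊆ ((D.biUnion fun e => e.toFinset : Finset V) : Set V) := by
    rintro v ⟨w, hw⟩
    rw [Finset.mem_coe, Finset.mem_biUnion]
    refine ⟨s(v, w), ?_, by simp⟩
    rw [hD, Set.Finite.mem_toFinset, Set.mem_symmDiff, SimpleGraph.mem_edgeSet,
      SimpleGraph.mem_edgeSet]
    tauto
  refine (Set.ncard_le_ncard hsub (Finset.finite_toSet _)).trans ?_
  rw [Set.ncard_coe_finset]
  refine Finset.card_biUnion_le.trans ?_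
  calc ∑ e ∈ D, e.toFinset.card ≤ ∑ _e ∈ D, 2 := Finset.sum_le_sum fun e _ => by
        rw [Sym2.card_toFinset]
        split_ifs <;> omega
    _ = D.card * 2 := by rw [Finset.sum_const, smul_eq_mul]
    _ ≤ 2 * k := by omega

theorem untouched {G G' : SimpleGraph V} {v : V} (h : v ∉ touched G G') (w : V) :
    G.Adj v w ↔ G'.Adj v w := by
  by_contra hc
  exact h ⟨w, hc⟩

theorem exists_untouched {G G' : SimpleGraph V} {k N : ℕ}
    (h : (symmDiff G.edgeSet G'.edgeSet).ncard ≤ k) (p : Fin N → V)
    (hp : Function.Injective p) (S : Finset (Fin N)) (hS : S.card + 2 * k < N) :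
    ∃ c, c ∉ S ∧ p c ∉ touched G G' := by
  classical
  by_contra hc
  push Not at hc
  have h1 := touched_ncard h
  have h2 : (Finset.univ \ S : Finset (Fin N)).card ≤ (touched G G').ncard := by
    rw [← Set.ncard_coe_finset]
    refine Set.ncard_le_ncard_of_injOn p ?_ hp.injOn (Set.toFinite _)
    intro c hcS
    rw [Finset.mem_coe, Finset.mem_sdiff] at hcS
    exact hc c hcS.2
  have h3 : (Finset.univ \ S : Finset (Fin N)).card + S.card = N := by
    rw [Finset.card_sdiff_add_card_eq_card (Finset.subset_univ _), Finset.card_univ,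
      Fintype.card_fin]
  omega

/-- Protected edges. -/
theorem prot_edge {G G' : SimpleGraph V} {k : ℕ}
    (h : (symmDiff G.edgeSet G'.edgeSet).ncard ≤ k) (h4 : N4 G') {x y : V} (hxy : x ≠ y)
    (p : Fin (2 * k + 2) → V) (hp : Function.Injective p) (hx : ∀ c, G.Adj (p c) x)
    (hy : ∀ c, G.Adj (p c) y) (hpp : ∀ c c', ¬ G.Adj (p c) (p c')) : G'.Adj x y := by
  classical
  obtain ⟨c, -, hc⟩ := exists_untouched h p hp ∅ (by simp)
  obtain ⟨c', hc'S, hc'⟩ := exists_untouched h p hp {c} (by simp; omega)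
  have hne : p c ≠ p c' := fun h => hc'S (by rw [hp h]; simp)
  rcases h4 x (p c) y (p c') ((untouched hc x).1 (hx c)).symm ((untouched hc y).1 (hy c))
    ((untouched hc' y).1 (hy c')).symm ((untouched hc' x).1 (hx c')) hxy hne with h | h
  · exact h
  · exact absurd ((untouched hc _).2 h) (hpp c c')

/-- Protected pairs of nonadjacent vertices. -/
theorem prot_nonedge {G G' : SimpleGraph V} {k : ℕ}
    (h : (symmDiff G.edgeSet G'.edgeSet).ncard ≤ k) (h4 : N4 G') {x y : V}
    (p q : Fin (2 * k + 1) → V) (hp : Function.Injective p) (hq : Function.Injective q)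
    (hpq : ∀ c c', p c ≠ q c') (hx : ∀ c, G.Adj (p c) x) (hpqa : ∀ c, G.Adj (p c) (q c))
    (hy : ∀ c, G.Adj (q c) y) (hqx : ∀ c, ¬ G.Adj (q c) x) (hpy : ∀ c, ¬ G.Adj (p c) y)
    (hqx' : ∀ c, q c ≠ x) (hpy' : ∀ c, p c ≠ y) : ¬ G'.Adj x y := by
  classical
  intro hxy
  -- an index with both vertices untouched
  have hex : ∃ c, p c ∉ touched G G' ∧ q c ∉ touched G G' := by
    by_contra hno
    push Not at hno
    let f : Fin (2 * k + 1) → V := fun c => if p c ∈ touched G G' then p c else q c
    have hf : ∀ c, f c ∈ touched G G' := by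
      intro c
      by_cases hc : p c ∈ touched G G'
      · simp only [f, if_pos hc]; exact hc
      · simp only [f, if_neg hc]; exact hno c hc
    have hinj : Function.Injective f := by
      intro c c' hcc
      simp only [f] at hcc
      split_ifs at hcc
      · exact hp hcc
      · exact absurd hcc (hpq _ _)
      · exact absurd hcc.symm (hpq _ _)
      · exact hq hcc
    obtain ⟨c, -, hc⟩ := exists_untouched h f hinj ∅ (by simp)
    exact hc (hf c)
  obtain ⟨c, h1, h2⟩ := hex
  rcases h4 x (p c) (q c) y ((untouched h1 x).1 (hx c)).symm ((untouched h1 _).1 (hpqa c))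
    ((untouched h2 y).1 (hy c)) hxy.symm (hqx' c).symm (hpy' c) with h | h
  · exact hqx c ((untouched h2 x).2 h.symm)
  · exact hpy c ((untouched h1 y).2 h)

end Pool.Agent.W958
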