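import Pool.Agent.W958.KDefs

/-!
# Graphs without induced `C₄` and `2K₂`
-/

set_option autoImplicit false

namespace Pool.Agent.W958

variable {V : Type}

/-- an induced cycle of length four -/
def HasC4 (G : SimpleGraph V) : Prop :=
  ∃ a b c d, G.Adj a b ∧ G.Adj b c ∧ G.Adj c d ∧ G.Adj d a ∧ a ≠ c ∧ b ≠ d ∧
    ¬ G.Adj a c ∧ ¬ G.Adj b d

theorem cyc4_adj (i j : Fin 4) : (SimpleGraph.cycleGraph 4).Adj i j ↔
    (i = 0 ∧ j = 1) ∨ (i = 1 ∧ j = 0) ∨ (i = 1 ∧ j = 2) ∨ (i = 2 ∧ j = 1) ∨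
    (i = 2 ∧ j = 3) ∨ (i = 3 ∧ j = 2) ∨ (i = 3 ∧ j = 0) ∨ (i = 0 ∧ j = 3) := by
  rw [SimpleGraph.cycleGraph_adj]
  revert i j
  decide

theorem hasC4_iff (G : SimpleGraph V) : HasC4 G ↔ ¬ IFree (SimpleGraph.cycleGraph 4) G := by
  unfold IFree
  rw [not_isEmpty_iff]
  constructor
  · rintro ⟨a, b, c, d, h1, h2, h3, h4, h5, h6, h7, h8⟩
    have hab := h1.ne
    have hbc := h2.ne
    have hcd := h3.ne
    have hda := h4.ne
    have h7' : ¬ G.Adj c a := fun h => h7 h.symm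
    have h8' : ¬ G.Adj d b := fun h => h8 h.symm
    refine ⟨⟨⟨![a, b, c, d], ?_⟩, ?_⟩⟩
    · intro i j
      revert i j
      simp only [Fin.forall_fin_succ]
      simp [hab, hbc, hcd, hda, h5, h6, hab.symm, hbc.symm, hcd.symm, hda.symm, h5.symm, h6.symm]
    · intro i j
      rw [cyc4_adj]
      revert i j
      simp [Fin.forall_fin_succ]
      exact ⟨⟨h1, h7, h4.symm⟩, ⟨h1.symm, h2, h8⟩, ⟨h7', h2.symm, h3⟩, h4, h8', h3.symm⟩
  · rintro ⟨e⟩
    have hadj : ∀ i j : Fin 4, G.Adj (e i) (e j) ↔ (SimpleGraph.cycleGraph 4).Adj i j :=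
      fun i j => e.map_rel_iff
    simp only [cyc4_adj] at hadj
    refine ⟨e 0, e 1, e 2, e 3, (hadj _ _).2 ?_, (hadj _ _).2 ?_, (hadj _ _).2 ?_,
      (hadj _ _).2 ?_, ?_, ?_, fun h => ?_, fun h => ?_⟩
    · decide
    · decide
    · decide
    · decide
    · exact fun h => absurd (e.injective h) (by decide)
    · exact fun h => absurd (e.injective h) (by decide)
    · exact absurd ((hadj _ _).1 h) (by decide)
    · exact absurd ((hadj _ _).1 h) (by decide)

theorem iFree_C4 (G : SimpleGraph V) : IFree C4.2 G ↔ ¬ HasC4 G := by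
  rw [hasC4_iff, not_not]
  exact Iff.rfl

theorem iFree_compl {W : Type} (H : SimpleGraph W) (G : SimpleGraph V) :
    IFree Hᶜ G ↔ IFree H Gᶜ := by
  unfold IFree
  constructor
  · intro h
    refine ⟨fun e => h.elim ?_⟩
    have e' := SimpleGraph.Embedding.complEquiv e
    rwa [compl_compl] at e'
  · intro h
    refine ⟨fun e => h.elim ?_⟩
    have e' := SimpleGraph.Embedding.complEquiv e
    rwa [compl_compl] at e'

theorem iFree_twoK2 (G : SimpleGraph V) : IFree twoK2.2 G ↔ ¬ HasC4 Gᶜ := by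
  rw [← iFree_C4]
  exact iFree_compl _ _

end Pool.Agent.W958
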