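import Pool.Agent.W958.KSys
import Pool.Agent.W958.KProt
import Pool.Agent.W958.KStruct

/-!
# The instances of `C₄`-free edge editing
-/

set_option autoImplicit false

namespace Pool.Agent.W958

open Pool.Agent.NPC Pool.Agent.H633R2

section labelled

variable {Λ : Type}

/-- the adjacency matrix of a graph given by labels -/
def matOf (vs : List Λ) (ad : Λ → Λ → Bool) : List (List Bool) :=
  vs.map fun u => vs.map fun w => ad u w

theorem matOf_length (vs : List Λ) (ad : Λ → Λ → Bool) : (matOf vs ad).length = vs.length := by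
  simp [matOf]

theorem entry_matOf (vs : List Λ) (ad : Λ → Λ → Bool) {i j : ℕ} (hi : i < vs.length)
    (hj : j < vs.length) : entry (matOf vs ad) i j = ad vs[i] vs[j] := by
  unfold entry matOf
  simp [List.getD_eq_getElem?_getD, List.getElem?_eq_getElem hi, List.getElem?_eq_getElem hj]

/-- the label of a vertex -/
def labOf (vs : List Λ) (ad : Λ → Λ → Bool) (i : Fin (matOf vs ad).length) : Λ :=
  vs[(i : ℕ)]'(lt_of_lt_of_eq i.2 (matOf_length vs ad))

theorem labOf_mem (vs : List Λ) (ad : Λ → Λ → Bool) (i : Fin (matOf vs ad).length) :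
    labOf vs ad i ∈ vs := List.getElem_mem _

theorem labOf_inj {vs : List Λ} (ad : Λ → Λ → Bool) (hn : vs.Nodup) :
    Function.Injective (labOf vs ad) := by
  intro i j hij
  unfold labOf at hij
  exact Fin.ext ((List.Nodup.getElem_inj_iff hn).1 hij)

theorem exists_labOf {vs : List Λ} (ad : Λ → Λ → Bool) {x : Λ} (hx : x ∈ vs) :
    ∃ i, labOf vs ad i = x := by
  obtain ⟨i, hi, h⟩ := List.getElem_of_mem hx
  exact ⟨⟨i, by rw [matOf_length]; exact hi⟩, h⟩

theorem graphOf_matOf {vs : List Λ} {ad : Λ → Λ → Bool}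
    (hs : ∀ u ∈ vs, ∀ v ∈ vs, ad u v = ad v u) (hi : ∀ u ∈ vs, ad u u = false)
    (i j : Fin (matOf vs ad).length) :
    (graphOf (matOf vs ad)).Adj i j ↔ ad (labOf vs ad i) (labOf vs ad j) = true := by
  have hi' := lt_of_lt_of_eq i.2 (matOf_length vs ad)
  have hj' := lt_of_lt_of_eq j.2 (matOf_length vs ad)
  change (i ≠ j ∧ (entry _ i j = true ∨ entry _ j i = true)) ↔ _
  rw [entry_matOf vs ad hi' hj', entry_matOf vs ad hj' hi']
  change (i ≠ j ∧ (ad (labOf vs ad i) (labOf vs ad j) = true ∨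
    ad (labOf vs ad j) (labOf vs ad i) = true)) ↔ _
  rw [hs _ (labOf_mem vs ad j) _ (labOf_mem vs ad i), or_self]
  constructor
  · exact fun h => h.2
  · intro h
    refine ⟨?_, h⟩
    rintro rfl
    rw [hi _ (labOf_mem vs ad i)] at h
    exact absurd h (by decide)

end labelled

theorem mem_prod {α β : Type} {l : List α} {l' : List β} {x : α} {y : β} :
    (x, y) ∈ l ×ˢ l' ↔ x ∈ l ∧ y ∈ l' := List.pair_mem_product

/-- labels: `(x, x, 0, 0)` is the core vertex `x`, the others protect the pair `x, y` -/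
abbrev Lb := Co × Co × ℕ × ℕ

/-- is the protecting vertex `p` adjacent to the core vertex `x`? -/
def att (p : Lb) (x : Co) : Bool :=
  (decide (p.2.2.2 = 0) && (decide (x = p.1) || decide (x = p.2.1))) ||
    ((decide (p.2.2.2 = 1) && decide (x = p.1)) || (decide (p.2.2.2 = 2) && decide (x = p.2.1)))

/-- adjacency of protecting vertices -/
def twin (p q : Lb) : Bool :=
  decide (p.1 = q.1) && (decide (p.2.1 = q.2.1) && (decide (p.2.2.1 = q.2.2.1) &&
    ((decide (p.2.2.2 = 1) && decide (q.2.2.2 = 2)) ||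
      (decide (p.2.2.2 = 2) && decide (q.2.2.2 = 1)))))

/-- adjacency of labels, for a given adjacency of the core -/
def adG (A : Co → Co → Bool) (p q : Lb) : Bool :=
  if p.1 = p.2.1 then (if q.1 = q.2.1 then A p.1 q.1 else att q p.1) else
    (if q.1 = q.2.1 then att p q.1 else twin p q)

/-- the core labels -/
def vsC (L E : ℕ) : List Co :=
  ((List.range 7) ×ˢ ((List.range (2 * L)) ×ˢ (List.range E))).filter (okB L)

/-- the vertices for the pair `x, y` -/
def prot (ed : ℕ → ℕ → ℕ × ℕ) (k : ℕ) (x y : Co) : List Lb :=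
  if x = y then [(x, x, 0, 0)] else
    if adC ed x y = true then
      (if flexC x y = true then [] else (List.range (2 * k + 2)).map fun c => (x, y, c, 0))
    else (List.range (2 * k + 1)).flatMap fun c => [(x, y, c, 1), (x, y, c, 2)]

/-- all labels -/
def vsL (ed : ℕ → ℕ → ℕ × ℕ) (k L E : ℕ) : List Lb :=
  ((vsC L E) ×ˢ (vsC L E)).flatMap fun xy => prot ed k xy.1 xy.2

theorem mem_vsC {L E : ℕ} {x : Co} : x ∈ vsC L E ↔ Val L E x := by
  obtain ⟨s, h, e⟩ := x
  unfold vsC Val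
  rw [List.mem_filter, mem_prod, mem_prod, List.mem_range,
    List.mem_range, List.mem_range]
  tauto

theorem mem_prot {ed : ℕ → ℕ → ℕ × ℕ} {k : ℕ} {x y : Co} {p : Lb} : p ∈ prot ed k x y ↔
    p.1 = x ∧ p.2.1 = y ∧ ((x = y ∧ p.2.2.1 = 0 ∧ p.2.2.2 = 0) ∨
      (x ≠ y ∧ adC ed x y = true ∧ flexC x y = false ∧ p.2.2.1 < 2 * k + 2 ∧ p.2.2.2 = 0) ∨
      (x ≠ y ∧ adC ed x y = false ∧ p.2.2.1 < 2 * k + 1 ∧ (p.2.2.2 = 1 ∨ p.2.2.2 = 2))) := by
  obtain ⟨x', y', c, b⟩ := p
  unfold prot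
  by_cases hxy : x = y
  · subst hxy
    rw [if_pos rfl, List.mem_singleton]
    simp only [Prod.mk.injEq, ne_eq, not_true_eq_false, false_and, or_false, true_and]
  · rw [if_neg hxy]
    by_cases hA : adC ed x y = true
    · rw [if_pos hA]
      by_cases hF : flexC x y = true
      · rw [if_pos hF]
        simp [hxy, hA, hF]
      · rw [if_neg hF]
        have hF' : flexC x y = false := by simpa using hF
        simp only [List.mem_map, List.mem_range, Prod.mk.injEq, hxy, false_and, ne_eq,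
          not_false_iff, true_and, hA, hF', Bool.true_eq_false, or_false, false_or]
        constructor
        · rintro ⟨c', h1, h2, h3, h4, h5⟩
          exact ⟨h2.symm, h3.symm, h4 ▸ h1, h5.symm⟩
        · rintro ⟨h1, h2, h3, h4⟩
          exact ⟨c, h3, h1.symm, h2.symm, rfl, h4.symm⟩
    · rw [if_neg hA]
      have hA' : adC ed x y = false := by simpa using hA
      simp only [List.mem_flatMap, List.mem_range, List.mem_cons, Prod.mk.injEq,
        List.not_mem_nil, or_false, hxy, false_and, ne_eq, not_false_iff, true_and, hA',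
        Bool.false_eq_true, false_or]
      constructor
      · rintro ⟨c', h1, ⟨h2, h3, h4, h5⟩ | ⟨h2, h3, h4, h5⟩⟩
        · exact ⟨h2, h3, h4 ▸ h1, Or.inl h5⟩
        · exact ⟨h2, h3, h4 ▸ h1, Or.inr h5⟩
      · rintro ⟨h1, h2, h3, h4 | h4⟩
        · exact ⟨c, h3, Or.inl ⟨h1, h2, rfl, h4⟩⟩
        · exact ⟨c, h3, Or.inr ⟨h1, h2, rfl, h4⟩⟩

/-- the labels which occur -/
theorem mem_vsL {ed : ℕ → ℕ → ℕ × ℕ} {k L E : ℕ} {p : Lb} : p ∈ vsL ed k L E ↔
    Val L E p.1 ∧ Val L E p.2.1 ∧ ((p.1 = p.2.1 ∧ p.2.2.1 = 0 ∧ p.2.2.2 = 0) ∨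
      (p.1 ≠ p.2.1 ∧ adC ed p.1 p.2.1 = true ∧ flexC p.1 p.2.1 = false ∧ p.2.2.1 < 2 * k + 2 ∧
        p.2.2.2 = 0) ∨
      (p.1 ≠ p.2.1 ∧ adC ed p.1 p.2.1 = false ∧ p.2.2.1 < 2 * k + 1 ∧
        (p.2.2.2 = 1 ∨ p.2.2.2 = 2))) := by
  unfold vsL
  rw [List.mem_flatMap]
  constructor
  · rintro ⟨⟨x, y⟩, hxy, hp⟩
    rw [mem_prod, mem_vsC, mem_vsC] at hxy
    rw [mem_prot] at hp
    obtain ⟨rfl, rfl, h⟩ := hp
    exact ⟨hxy.1, hxy.2, h⟩
  · rintro ⟨h1, h2, h3⟩
    refine ⟨(p.1, p.2.1), ?_, ?_⟩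
    · rw [mem_prod, mem_vsC, mem_vsC]
      exact ⟨h1, h2⟩
    · rw [mem_prot]
      exact ⟨rfl, rfl, h3⟩

theorem nodup_vsC (L E : ℕ) : (vsC L E).Nodup := by
  unfold vsC
  exact ((List.nodup_range.product (List.nodup_range.product List.nodup_range))).filter _

theorem nodup_prot (ed : ℕ → ℕ → ℕ × ℕ) (k : ℕ) (x y : Co) : (prot ed k x y).Nodup := by
  unfold prot
  split_ifs
  · simp
  · simp
  · exact List.nodup_range.map fun a b h => by simpa using h
  · rw [List.nodup_flatMap]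
    refine ⟨fun c _ => by simp, ?_⟩
    refine List.nodup_range.imp fun {a b} hab => ?_
    intro p hp hp'
    simp only [List.mem_cons, List.not_mem_nil, or_false] at hp hp'
    rcases hp with rfl | rfl <;> simp [hab] at hp'

theorem nodup_vsL (ed : ℕ → ℕ → ℕ × ℕ) (k L E : ℕ) : (vsL ed k L E).Nodup := by
  unfold vsL
  rw [List.nodup_flatMap]
  refine ⟨fun xy _ => nodup_prot _ _ _ _, ?_⟩
  refine ((nodup_vsC L E).product (nodup_vsC L E)).imp fun {a b} hab => ?_
  intro p hp hp'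
  rw [mem_prot] at hp hp'
  exact hab (Prod.ext (hp.1.symm.trans hp'.1) (hp.2.1.symm.trans hp'.2.1))

end Pool.Agent.W958
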