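import Pool.Agent.W958.KInst

/-!
# Correctness of the instances
-/

set_option autoImplicit false

namespace Pool.Agent.W958

open Pool.Agent.NPC Pool.Agent.H633R2

variable {L E l k : ℕ} {ed : ℕ → ℕ → ℕ × ℕ}

theorem att_iff (p : Lb) (x : Co) : att p x = true ↔ (p.2.2.2 = 0 ∧ (x = p.1 ∨ x = p.2.1)) ∨
    (p.2.2.2 = 1 ∧ x = p.1) ∨ (p.2.2.2 = 2 ∧ x = p.2.1) := by
  unfold att
  simp only [Bool.or_eq_true, Bool.and_eq_true, decide_eq_true_eq]

theorem twin_iff (p q : Lb) : twin p q = true ↔ p.1 = q.1 ∧ p.2.1 = q.2.1 ∧ p.2.2.1 = q.2.2.1 ∧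
    ((p.2.2.2 = 1 ∧ q.2.2.2 = 2) ∨ (p.2.2.2 = 2 ∧ q.2.2.2 = 1)) := by
  unfold twin
  simp only [Bool.or_eq_true, Bool.and_eq_true, decide_eq_true_eq]

theorem twin_comm (p q : Lb) : twin p q = twin q p := by
  rw [Bool.eq_iff_iff, twin_iff, twin_iff]
  constructor
  · rintro ⟨h1, h2, h3, h4⟩
    exact ⟨h1.symm, h2.symm, h3.symm, by omega⟩
  · rintro ⟨h1, h2, h3, h4⟩
    exact ⟨h1.symm, h2.symm, h3.symm, by omega⟩

theorem adG_comm {A : Co → Co → Bool} (hA : ∀ x y, A x y = A y x) (p q : Lb) :
    adG A p q = adG A q p := by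
  unfold adG
  split_ifs
  · exact hA _ _
  · rfl
  · rfl
  · exact twin_comm _ _

theorem adG_self {A : Co → Co → Bool} (hA : ∀ x, Val L E x → A x x = false) (p : Lb)
    (hp : Val L E p.1) : adG A p p = false := by
  unfold adG
  split_ifs with h
  · exact hA _ hp
  · by_contra hc
    have : twin p p = true := by simpa using hc
    rw [twin_iff] at this
    omega

theorem adC_comm (x y : Co) : adC ed x y = adC ed y x := by
  unfold adC
  by_cases hx : x = hub <;> by_cases hy : y = hub
  · subst hx; subst hy; rfl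
  · simp only [hx, hy, if_true, if_false]; simp [hy]
  · simp only [hx, hy, if_true, if_false]; simp [hx]
  · simp only [hx, hy, if_false]
    exact adB_comm _ _

theorem adC_self {x : Co} (hx : Val L E x) : adC ed x x = false := by
  unfold adC
  by_cases h : x = hub
  · simp [h]
  · simp only [h, if_false]
    exact adB_irrefl hx

open Classical in
/-- the modified adjacency of the core -/
noncomputable def adX (ed : ℕ → ℕ → ℕ × ℕ) (X : Co → Prop) (x y : Co) : Bool :=
  if x = hub then (decide (y ≠ hub) && !(decide (X y))) else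
    if y = hub then !(decide (X x)) else adB ed x y

theorem adX_comm (X : Co → Prop) (x y : Co) : adX ed X x y = adX ed X y x := by
  unfold adX
  by_cases hx : x = hub <;> by_cases hy : y = hub
  · subst hx; subst hy; rfl
  · simp only [hx, hy, if_true, if_false]; simp [hy]
  · simp only [hx, hy, if_true, if_false]; simp [hx]
  · simp only [hx, hy, if_false]
    exact adB_comm _ _

theorem adX_self {X : Co → Prop} {x : Co} (hx : Val L E x) : adX ed X x x = false := by
  unfold adX
  by_cases h : x = hub
  · simp [h]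
  · simp only [h, if_false]
    exact adB_irrefl hx

theorem tag_ne_hub {x : Co} (h : x.1 ≠ 0) : x ≠ hub := by
  rintro rfl
  exact h rfl

theorem adB_ne_hub {x y : Co} (h : adB ed x y = true) : x ≠ hub ∧ y ≠ hub := by
  rw [adB_iff, parB_iff, parB_iff] at h
  constructor <;> apply tag_ne_hub <;> omega

/-- protected pairs keep their status -/
theorem adX_prot {X : Co → Prop} (hX : Sys L E ed X) {x y : Co} (hx : Val L E x)
    (hy : Val L E y) (hxy : x ≠ y) (hf : adC ed x y = true → flexC x y = false) :
    adX ed X x y = adC ed x y := by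
  have key : ∀ z, Val L E z → z ≠ hub → z ≠ root → ¬ (z.1 = 1 ∨ z.1 = 3 ∨ z.1 = 5 ∨ z.1 = 6) →
      ¬ X z := by
    intro z hz h1 h2 h3
    apply hX.sent z hz
    obtain ⟨h4, -, -, h5⟩ := hz
    rw [okB_iff] at h5
    have : z.1 ≠ 0 := fun h0 => h1 (co_ext h0 (by simp [hub]; omega) (by simp [hub]; omega))
    omega
  unfold adX
  by_cases h1 : x = hub
  · subst h1
    have h2 : y ≠ hub := hxy.symm
    have e : adC ed hub y = decide (y ≠ root) := by simp [adC, h2]
    rw [if_pos rfl]
    rw [e] at hf ⊢
    by_cases h3 : y = root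
    · subst h3
      have := hX.root
      simp [this]
    · have h4 := hf (by simp [h3])
      have h5 : ¬ X y := by
        apply key y hy h2 h3
        intro h6
        simp [flexC, h3, h6] at h4
      simp [h2, h3, h5]
  · rw [if_neg h1]
    by_cases h2 : y = hub
    · subst h2
      have e : adC ed x hub = decide (x ≠ root) := by simp [adC, h1]
      rw [if_pos rfl]
      rw [e] at hf ⊢
      by_cases h3 : x = root
      · subst h3
        have := hX.root
        simp [this]
      · have h4 := hf (by simp [h3])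
        have h5 : ¬ X x := by
          apply key x hx h1 h3
          intro h6
          simp [flexC, h3, h6] at h4
        simp [h3, h5]
    · rw [if_neg h2]
      simp [adC, h1, h2]

/-- a change of the status -/
theorem adX_diff {X : Co → Prop} (hX : Sys L E ed X) {x y : Co}
    (h : adX ed X x y ≠ adC ed x y) :
    (x = hub ∧ X y ∧ y ≠ root) ∨ (y = hub ∧ X x ∧ x ≠ root) := by
  unfold adX at h
  by_cases h1 : x = hub
  · left
    subst h1
    rw [if_pos rfl] at h
    by_cases h2 : y = hub
    · subst h2
      simp [adC] at h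
    · have e : adC ed hub y = decide (y ≠ root) := by simp [adC, h2]
      rw [e] at h
      by_cases h3 : y = root
      · subst h3
        have := hX.root
        simp [this] at h
      · simp [h2, h3] at h
        exact ⟨rfl, h, h3⟩
  · rw [if_neg h1] at h
    by_cases h2 : y = hub
    · right
      subst h2
      rw [if_pos rfl] at h
      have e : adC ed x hub = decide (x ≠ root) := by simp [adC, h1]
      rw [e] at h
      by_cases h3 : x = root
      · subst h3
        have := hX.root
        simp [this] at h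
      · simp [h3] at h
        exact ⟨rfl, h, h3⟩
    · rw [if_neg h2] at h
      simp [adC, h1, h2] at h

/-- the modified core has no induced cycle of length four -/
theorem core_c4 (hS : Simp L E ed) {X : Co → Prop} (hX : Sys L E ed X) {a b c d : Co}
    (ha : Val L E a) (hb : Val L E b) (hc : Val L E c) (hd : Val L E d)
    (hab : adX ed X a b = true) (hbc : adX ed X b c = true) (hcd : adX ed X c d = true)
    (hda : adX ed X d a = true) (hac : a ≠ c) (hbd : b ≠ d) :
    adX ed X a c = true ∨ adX ed X b d = true := by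
  have key : ∀ a b c d : Co, Val L E b → Val L E c → Val L E d →
      adX ed X a b = true → adX ed X b c = true → adX ed X c d = true →
      adX ed X d a = true → a ≠ c → b ≠ d → a = hub → adX ed X a c = true := by
    rintro a b c d hb hc hd hab hbc hcd hda hac hbd rfl
    have hbh : b ≠ hub := by
      rintro rfl
      simp [adX] at hab
    have hdh : d ≠ hub := by
      rintro rfl
      simp [adX] at hda
    have hch : c ≠ hub := hac.symm
    have hXb : ¬ X b := by
      intro h
      simp [adX, h] at hab
    have hXd : ¬ X d := by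
      intro h
      simp [adX, h, hdh] at hda
    by_contra hno
    have hXc : X c := by
      by_contra h
      simp [adX, h, hch] at hno
    have h1 : adB ed c b = true := by
      rw [adB_comm]
      simpa [adX, hbh, hch] using hbc
    have h2 : adB ed c d = true := by
      simpa [adX, hdh, hch] using hcd
    exact hbd (hX.prop c b d hc hb hd hXc h1 h2 hXb hXd)
  by_cases h1 : a = hub
  · exact Or.inl (key a b c d hb hc hd hab hbc hcd hda hac hbd h1)
  by_cases h2 : b = hub
  · exact Or.inr (key b c d a hc hd ha hbc hcd hda hab hbd hac.symm h2)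
  by_cases h3 : c = hub
  · left
    rw [adX_comm]
    exact key c d a b hd ha hb hcd hda hab hbc hac.symm hbd.symm h3
  by_cases h4 : d = hub
  · right
    rw [adX_comm]
    exact key d a b c ha hb hc hda hab hbc hcd hbd.symm hac h4
  exfalso
  apply no_c4 hS ha hb hc hd _ _ _ _ hac hbd
  · simpa [adX, h1, h2] using hab
  · simpa [adX, h2, h3] using hbc
  · simpa [adX, h3, h4] using hcd
  · simpa [adX, h4, h1] using hda

/-- the core labels occur -/
theorem core_mem {x : Co} (hx : Val L E x) : ((x, x, 0, 0) : Lb) ∈ vsL ed k L E := by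
  rw [mem_vsL]
  exact ⟨hx, hx, Or.inl ⟨rfl, rfl, rfl⟩⟩

/-- in an induced cycle of length four all vertices are core vertices -/
theorem core_of_c4 {A : Co → Co → Bool} (hAc : ∀ x y, A x y = A y x)
    (hA1 : ∀ x y, Val L E x → Val L E y → x ≠ y → adC ed x y = true → flexC x y = false →
      A x y = true)
    (hA2 : ∀ x y, Val L E x → Val L E y → x ≠ y → adC ed x y = false → A x y = false)
    {a b c d : Lb} (ha : a ∈ vsL ed k L E) (hb : b ∈ vsL ed k L E) (hc : c ∈ vsL ed k L E)
    (hd : d ∈ vsL ed k L E) (hab : adG A a b = true) (hbc : adG A b c = true)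
    (hcd : adG A c d = true) (hda : adG A d a = true) (hac : a ≠ c) (hbd : b ≠ d)
    (hnbd : adG A b d = false) : a.1 = a.2.1 := by
  by_contra hna
  rw [adG_comm hAc] at hda
  rw [mem_vsL] at ha hb hc hd
  -- core vertices are determined by the first component
  have hcore : ∀ p q : Lb, (p.1 = p.2.1 ∧ p.2.2.1 = 0 ∧ p.2.2.2 = 0) →
      (q.1 = q.2.1 ∧ q.2.2.1 = 0 ∧ q.2.2.2 = 0) → p.1 = q.1 → p = q := by
    rintro p q ⟨p1, p2, p3⟩ ⟨q1, q2, q3⟩ h
    exact Prod.ext h (Prod.ext (p1.symm.trans (h.trans q1)) (Prod.ext (p2.trans q2.symm)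
      (p3.trans q3.symm)))
  have hisc : ∀ p : Lb, (Val L E p.1 ∧ Val L E p.2.1 ∧
      ((p.1 = p.2.1 ∧ p.2.2.1 = 0 ∧ p.2.2.2 = 0) ∨
      (p.1 ≠ p.2.1 ∧ adC ed p.1 p.2.1 = true ∧ flexC p.1 p.2.1 = false ∧ p.2.2.1 < 2 * k + 2 ∧
        p.2.2.2 = 0) ∨
      (p.1 ≠ p.2.1 ∧ adC ed p.1 p.2.1 = false ∧ p.2.2.1 < 2 * k + 1 ∧
        (p.2.2.2 = 1 ∨ p.2.2.2 = 2)))) → p.1 = p.2.1 →
      (p.1 = p.2.1 ∧ p.2.2.1 = 0 ∧ p.2.2.2 = 0) := by
    rintro p ⟨-, -, h | h | h⟩ hp
    · exact h
    · exact absurd hp h.1
    · exact absurd hp h.1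
  obtain ⟨va, va', ha⟩ := ha
  rcases ha with ha | ha | ha
  · exact hna ha.1
  · -- protects an edge
    obtain ⟨-, ha1, ha2, -, ha3⟩ := ha
    have hcoreb : ∀ q : Lb, adG A a q = true → q.1 = q.2.1 ∧ (q.1 = a.1 ∨ q.1 = a.2.1) := by
      intro q hq
      unfold adG at hq
      rw [if_neg hna] at hq
      split_ifs at hq with h
      · rw [att_iff] at hq
        refine ⟨h, ?_⟩
        rcases hq with hq | hq | hq
        · exact hq.2
        · omega
        · omega
      · rw [twin_iff] at hq
        omega
    obtain ⟨b1, b2⟩ := hcoreb b hab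
    obtain ⟨d1, d2⟩ := hcoreb d hda
    have hne : b.1 ≠ d.1 := fun h => hbd (hcore b d (hisc b hb b1) (hisc d hd d1) h)
    have e1 := hA1 _ _ va va' hna ha1 ha2
    have e2 : A b.1 d.1 = true := by
      rcases b2 with b2 | b2 <;> rcases d2 with d2 | d2
      · exact absurd (b2.trans d2.symm) hne
      · rw [b2, d2]; exact e1
      · rw [b2, d2, hAc]; exact e1
      · exact absurd (b2.trans d2.symm) hne
    unfold adG at hnbd
    rw [if_pos b1, if_pos d1, e2] at hnbd
    exact absurd hnbd (by decide)
  · -- protects a nonedge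
    obtain ⟨-, ha1, -, ha3⟩ := ha
    have e1 := hA2 _ _ va va' hna ha1
    -- the neighbours of `a`
    have hnb : ∀ q : Lb, adG A a q = true → (q.1 = q.2.1 ∧ ((a.2.2.2 = 1 ∧ q.1 = a.1) ∨
        (a.2.2.2 = 2 ∧ q.1 = a.2.1))) ∨ (q.1 ≠ q.2.1 ∧ a.1 = q.1 ∧ a.2.1 = q.2.1 ∧
          a.2.2.1 = q.2.2.1 ∧
        ((a.2.2.2 = 1 ∧ q.2.2.2 = 2) ∨ (a.2.2.2 = 2 ∧ q.2.2.2 = 1))) := by
      intro q hq
      unfold adG at hq
      rw [if_neg hna] at hq
      split_ifs at hq with h
      · left
        rw [att_iff] at hq
        refine ⟨h, ?_⟩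
        rcases hq with hq | hq | hq
        · have := hq.1
          omega
        · exact Or.inl hq
        · exact Or.inr hq
      · right
        rw [twin_iff] at hq
        exact ⟨h, hq⟩
    -- one neighbour is a core vertex `u`, the other is the twin `t`
    have hmain : ∀ u t : Lb, adG A a u = true → adG A a t = true → adG A u c = true →
        adG A c t = true → u.1 = u.2.1 → t.1 ≠ t.2.1 → False := by
      intro u t hau hat huc hct hu ht
      rcases hnb u hau with ⟨-, hu'⟩ | ⟨h, -⟩
      swap
      · exact h hu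
      rcases hnb t hat with ⟨h, -⟩ | ⟨-, t1, t2, t3, t4⟩
      · exact ht h
      rw [adG_comm hAc] at hct
      unfold adG at hct
      rw [if_neg ht] at hct
      by_cases hcc : c.1 = c.2.1
      · rw [if_pos hcc, att_iff] at hct
        unfold adG at huc
        rw [if_pos hu, if_pos hcc] at huc
        -- `c` is the other end of the protected pair
        rcases hu' with ⟨h1, h2⟩ | ⟨h1, h2⟩
        · have hc2 : c.1 = a.2.1 := by
            rcases hct with h | h | h
            · omega
            · omega
            · rw [h.2, t2]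
          rw [h2, hc2, e1] at huc
          exact absurd huc (by decide)
        · have hc2 : c.1 = a.1 := by
            rcases hct with h | h | h
            · omega
            · rw [h.2, t1]
            · omega
          rw [h2, hc2, hAc, e1] at huc
          exact absurd huc (by decide)
      · rw [if_neg hcc, twin_iff] at hct
        obtain ⟨s1, s2, s3, s4⟩ := hct
        apply hac
        refine Prod.ext (t1.trans s1) (Prod.ext (t2.trans s2) (Prod.ext (t3.trans s3) ?_))
        show a.2.2.2 = c.2.2.2
        omega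
    have hcb := hbc
    rw [adG_comm hAc] at hcb
    have hdc := hcd
    rw [adG_comm hAc] at hdc
    rcases hnb b hab with ⟨b1, b2⟩ | ⟨b1, b2, b3, b4, b5⟩
    · rcases hnb d hda with ⟨d1, d2⟩ | ⟨d1, -⟩
      · apply hbd
        apply hcore b d (hisc b hb b1) (hisc d hd d1)
        rcases b2 with b2 | b2 <;> rcases d2 with d2 | d2
        · rw [b2.2, d2.2]
        · omega
        · omega
        · rw [b2.2, d2.2]
      · exact hmain b d hab hda hbc hcd b1 d1
    · rcases hnb d hda with ⟨d1, -⟩ | ⟨-, d2, d3, d4, d5⟩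
      · exact hmain d b hda hab hdc hcb d1 b1
      · apply hbd
        refine Prod.ext (b2.symm.trans d2) (Prod.ext (b3.symm.trans d3)
          (Prod.ext (b4.symm.trans d4) ?_))
        show b.2.2.2 = d.2.2.2
        omega

end Pool.Agent.W958
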