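import Pool.Agent.W958.KAlg

/-!
# Optimality of the candidates
-/

set_option autoImplicit false

namespace Pool.Agent.W958

open Pool.Agent.NPC Pool.Agent.H633R2 Finset

theorem exists_top (w : ℕ → ℕ) (R : Finset ℕ) (k : ℕ) (hk : 1 ≤ k) (hk' : k ≤ R.card) :
    ∃ θ ∈ R, (R.filter (fun v => w θ < w v ∨ (w θ = w v ∧ θ ≤ v))).card = k := by
  set r : ℕ → ℕ := fun θ => (R.filter (fun v => w θ < w v ∨ (w θ = w v ∧ θ ≤ v))).card with hr
  have hlt : ∀ a ∈ R, ∀ b ∈ R, (w a < w b ∨ (w a = w b ∧ a < b)) → r b < r a := by
    intro a ha b hb hab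
    apply Finset.card_lt_card
    rw [Finset.ssubset_iff_of_subset]
    · refine ⟨a, ?_, ?_⟩
      · rw [Finset.mem_filter]
        exact ⟨ha, Or.inr ⟨rfl, le_rfl⟩⟩
      · rw [Finset.mem_filter]
        rintro ⟨-, h⟩
        omega
    · intro v hv
      rw [Finset.mem_filter] at hv ⊢
      refine ⟨hv.1, ?_⟩
      have := hv.2
      omega
  have hinj : Set.InjOn r R := by
    intro a ha b hb hab
    by_contra hne
    rcases lt_trichotomy (w a) (w b) with h | h | h
    · exact absurd hab (hlt a ha b hb (Or.inl h)).ne'
    · rcases lt_trichotomy a b with h' | h' | h'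
      · exact absurd hab (hlt a ha b hb (Or.inr ⟨h, h'⟩)).ne'
      · exact hne h'
      · exact absurd hab (hlt b hb a ha (Or.inr ⟨h.symm, h'⟩)).ne
    · exact absurd hab (hlt b hb a ha (Or.inl h)).ne
  have himg : R.image r ⊆ Finset.Icc 1 R.card := by
    intro m hm
    obtain ⟨a, ha, rfl⟩ := Finset.mem_image.1 hm
    rw [Finset.mem_Icc]
    refine ⟨?_, Finset.card_filter_le _ _⟩
    apply Finset.card_pos.2
    exact ⟨a, Finset.mem_filter.2 ⟨ha, Or.inr ⟨rfl, le_rfl⟩⟩⟩
  have heq : R.image r = Finset.Icc 1 R.card := by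
    apply Finset.eq_of_subset_of_card_le himg
    rw [Finset.card_image_of_injOn hinj, Nat.card_Icc]
    omega
  have hk2 : k ∈ R.image r := by
    rw [heq, Finset.mem_Icc]
    exact ⟨hk, hk'⟩
  obtain ⟨θ, hθ, h⟩ := Finset.mem_image.1 hk2
  exact ⟨θ, hθ, h⟩

theorem bv_nonneg (b : Bool) : 0 ≤ bv b := by cases b <;> simp [bv]

theorem bv_le_one (b : Bool) : bv b ≤ 1 := by cases b <;> simp [bv]

/-- optimality -/
theorem opt (n : ℕ) (A : ℕ → ℕ → Bool) (hA : ∀ i, A i i = false)
    (hs : ∀ i j, A i j = A j i)
    (c : List ℕ) (hc : c.Nodup) (hcn : ∀ i ∈ c, i < n) (e : List (ℕ × ℕ)) (κ : ℕ → Bool)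
    (hκ : ∀ i ∈ c, κ i = false) :
    ∃ bt : Bool × ℕ, (bt = (false, 0) ∨ (bt.1 = true ∧ bt.2 < n)) ∧
      cost2 n A c e (kap n A c bt) ≤ cost2 n A c e κ := by
  classical
  set R : Finset ℕ := (range n).filter (fun i => i ∉ c) with hR
  have hsum : ∀ κ' : ℕ → Bool, (∀ i ∈ c, κ' i = false) →
      ∑ i ∈ range n, bv (κ' i) = ((R.filter (fun i => κ' i = true)).card : ℤ) := by
    intro κ' hκ'
    rw [Finset.card_filter, hR, Finset.sum_filter]
    push_cast
    refine Finset.sum_congr rfl fun i _ => ?_
    by_cases h : i ∈ c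
    · simp [h, hκ' i h, bv]
    · simp [h, bv]
  set k := (R.filter (fun i => κ i = true)).card with hk
  -- comparison for equal cardinality
  have hkc : ∀ bt, ∀ i ∈ c, kap n A c bt i = false := by
    intro bt i hi
    simp [kap, hi]
  have hcmp : ∀ bt : Bool × ℕ, (R.filter (fun i => kap n A c bt i = true)).card = k →
      ∑ i ∈ range n, bv (κ i) * (wt n A c i : ℤ) ≤
        ∑ i ∈ range n, bv (kap n A c bt i) * (wt n A c i : ℤ) →
      cost2 n A c e (kap n A c bt) ≤ cost2 n A c e κ := by
    intro bt h1 h2
    have e1 := cost_formula n A hA hs c hc hcn e κ hκ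
    have e2 := cost_formula n A hA hs c hc hcn e (kap n A c bt) (hkc bt)
    rw [hsum _ (hkc bt), h1] at e2
    rw [hsum _ hκ] at e1
    zify
    rw [e1, e2]
    linarith
  rcases Nat.eq_zero_or_pos k with h0 | hpos
  · refine ⟨(false, 0), Or.inl rfl, hcmp _ ?_ ?_⟩
    · rw [h0]
      simp [kap]
    · refine Finset.sum_le_sum fun i hi => ?_
      have : bv (κ i) = 0 := by
        by_cases h : i ∈ c
        · simp [hκ i h, bv]
        · have h3 : i ∉ R.filter (fun i => κ i = true) := by
            rw [Finset.card_eq_zero.1 (hk.symm.trans h0)]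
            simp
          rw [Finset.mem_filter, hR, Finset.mem_filter] at h3
          have h4 : κ i = false := by
            by_contra h5
            exact h3 ⟨⟨hi, h⟩, by simpa using h5⟩
          simp [h4, bv]
      rw [this]
      simp [kap, bv]
  · obtain ⟨θ, hθ, h⟩ := exists_top (wt n A c) R k hpos (by
      rw [hk]; exact Finset.card_filter_le _ _)
    have hθ' : θ < n ∧ θ ∉ c := by
      rw [hR, Finset.mem_filter, Finset.mem_range] at hθ
      exact hθ
    refine ⟨(true, θ), Or.inr ⟨rfl, hθ'.1⟩, hcmp _ ?_ ?_⟩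
    · rw [← h]
      congr 1
      apply Finset.filter_congr
      intro v hv
      rw [hR, Finset.mem_filter] at hv
      simp [kap, hv.2]
    · have h1 : ∑ i ∈ range n, bv (κ i) = ∑ i ∈ range n, bv (kap n A c (true, θ) i) := by
        rw [hsum _ hκ, hsum _ (hkc _), ← hk, ← h]
        congr 2
        apply Finset.filter_congr
        intro v hv
        rw [hR, Finset.mem_filter] at hv
        simp [kap, hv.2]
      have h2 : 0 ≤ ∑ i ∈ range n, (bv (kap n A c (true, θ) i) - bv (κ i)) *
          ((wt n A c i : ℤ) - (wt n A c θ : ℤ)) := by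
        refine Finset.sum_nonneg fun i _ => ?_
        by_cases hi : i ∈ c
        · rw [hκ i hi, hkc _ i hi]
          simp
        · by_cases hb : kap n A c (true, θ) i = true
          · have h3 : wt n A c θ ≤ wt n A c i := by
              simp only [kap, hi, decide_false, Bool.not_false, Bool.true_and, Bool.or_eq_true,
                Bool.and_eq_true, decide_eq_true_eq] at hb
              omega
            have h4 := bv_le_one (κ i)
            rw [hb]
            apply mul_nonneg
            · simp only [bv, if_true]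
              unfold bv at h4
              linarith
            · have : (wt n A c θ : ℤ) ≤ wt n A c i := by exact_mod_cast h3
              linarith
          · have h3 : wt n A c i ≤ wt n A c θ := by
              simp only [kap, hi, decide_false, Bool.not_false, Bool.true_and, Bool.or_eq_true,
                Bool.and_eq_true, decide_eq_true_eq] at hb
              omega
            have h4 := bv_nonneg (κ i)
            have hb' : kap n A c (true, θ) i = false := by simpa using hb
            rw [hb']
            apply mul_nonneg_of_nonpos_of_nonpos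
            · have : bv false = 0 := by simp [bv]
              rw [this]
              linarith
            · have : (wt n A c i : ℤ) ≤ wt n A c θ := by exact_mod_cast h3
              linarith
      have h3 : ∑ i ∈ range n, (bv (kap n A c (true, θ) i) - bv (κ i)) *
          ((wt n A c i : ℤ) - (wt n A c θ : ℤ)) =
          (∑ i ∈ range n, bv (kap n A c (true, θ) i) * (wt n A c i : ℤ) -
            ∑ i ∈ range n, bv (κ i) * (wt n A c i : ℤ)) -
          (∑ i ∈ range n, bv (kap n A c (true, θ) i) - ∑ i ∈ range n, bv (κ i)) *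
            (wt n A c θ : ℤ) := by
        rw [← Finset.sum_sub_distrib, ← Finset.sum_sub_distrib, Finset.sum_mul,
          ← Finset.sum_sub_distrib]
        exact Finset.sum_congr rfl fun i _ => by ring
      rw [h3, h1] at h2
      linarith

end Pool.Agent.W958
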