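import Pool.Agent.W958.KStruct

/-!
# The structure of graphs without induced `C₄` and `2K₂`
-/

set_option autoImplicit false

namespace Pool.Agent.W958

variable {V : Type}

/-- no induced cycle of length four, positive form -/
def N4 (G : SimpleGraph V) : Prop := ∀ a b c d, G.Adj a b → G.Adj b c → G.Adj c d → G.Adj d a →
  a ≠ c → b ≠ d → G.Adj a c ∨ G.Adj b d

/-- no induced `2K₂`, positive form -/
def N2 (G : SimpleGraph V) : Prop := ∀ x y z w, G.Adj x y → G.Adj z w → x ≠ z → x ≠ w → y ≠ z →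
  y ≠ w → G.Adj x z ∨ G.Adj x w ∨ G.Adj y z ∨ G.Adj y w

theorem n4_iff (G : SimpleGraph V) : N4 G ↔ ¬ HasC4 G := by
  unfold N4 HasC4
  push Not
  refine forall_congr' fun a => forall_congr' fun b => forall_congr' fun c =>
    forall_congr' fun d => ?_
  constructor
  · intro h h1 h2 h3 h4 h5 h6 h7
    rcases h h1 h2 h3 h4 h5 h6 with h8 | h8
    · exact absurd h8 h7
    · exact h8
  · intro h h1 h2 h3 h4 h5 h6
    by_cases h7 : G.Adj a c
    · exact Or.inl h7
    · exact Or.inr (h h1 h2 h3 h4 h5 h6 h7)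

theorem n2_iff (G : SimpleGraph V) : N2 G ↔ ¬ HasC4 Gᶜ := by
  rw [← n4_iff]
  unfold N2 N4
  constructor
  · intro h a b c d h1 h2 h3 h4 h5 h6
    simp only [SimpleGraph.compl_adj] at h1 h2 h3 h4 ⊢
    by_contra hc
    push Not at hc
    have h7 : G.Adj a c := hc.1 h5
    have h8 : G.Adj b d := hc.2 h6
    rcases h a c b d h7 h8 h1.1 h4.1.symm h2.1.symm h3.1 with h9 | h9 | h9 | h9
    · exact h1.2 h9
    · exact h4.2 h9.symm
    · exact h2.2 h9.symm
    · exact h3.2 h9
  · intro h x y z w h1 h2 h3 h4 h5 h6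
    by_contra hc
    push Not at hc
    rcases h x z y w ⟨h3, hc.1⟩ ⟨h5.symm, fun h => hc.2.2.1 h.symm⟩
      ⟨h6, hc.2.2.2⟩ ⟨h4.symm, fun h => hc.2.1 h.symm⟩ h1.ne h2.ne with h7 | h7
    · exact h7.2 h1
    · exact h7.2 h2

/-- `a b c d e` is an induced cycle of length five -/
def IsC5 (G : SimpleGraph V) (a b c d e : V) : Prop :=
  G.Adj a b ∧ G.Adj b c ∧ G.Adj c d ∧ G.Adj d e ∧ G.Adj e a ∧
    a ≠ c ∧ b ≠ d ∧ c ≠ e ∧ d ≠ a ∧ e ≠ b ∧
    ¬ G.Adj a c ∧ ¬ G.Adj b d ∧ ¬ G.Adj c e ∧ ¬ G.Adj d a ∧ ¬ G.Adj e b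

theorem c5_allOrNone {G : SimpleGraph V} (h4 : N4 G) (h2 : N2 G) {a b c d e : V}
    (h : IsC5 G a b c d e) (v : V) (ha : v ≠ a) (hb : v ≠ b) (hc : v ≠ c) (hd : v ≠ d)
    (he : v ≠ e) :
    (G.Adj v a ∧ G.Adj v b ∧ G.Adj v c ∧ G.Adj v d ∧ G.Adj v e) ∨
      (¬ G.Adj v a ∧ ¬ G.Adj v b ∧ ¬ G.Adj v c ∧ ¬ G.Adj v d ∧ ¬ G.Adj v e) := by
  obtain ⟨h1, h2', h3, h4', h5, n1, n2, n3, n4, n5, m1, m2, m3, m4, m5⟩ := h
  have m1' : ¬ G.Adj c a := fun h => m1 h.symm
  have m2' : ¬ G.Adj d b := fun h => m2 h.symm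
  have m3' : ¬ G.Adj e c := fun h => m3 h.symm
  have m4' : ¬ G.Adj a d := fun h => m4 h.symm
  have m5' : ¬ G.Adj b e := fun h => m5 h.symm
  have A1 : G.Adj v a → G.Adj v c ∨ G.Adj v d := fun h => by
    rcases h2 v a c d h h3 hc hd n1 n4.symm with x | x | x | x
    · exact Or.inl x
    · exact Or.inr x
    · exact absurd x m1
    · exact absurd x m4'
  have A2 : G.Adj v b → G.Adj v d ∨ G.Adj v e := fun h => by
    rcases h2 v b d e h h4' hd he n2 n5.symm with x | x | x | x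
    · exact Or.inl x
    · exact Or.inr x
    · exact absurd x m2
    · exact absurd x m5'
  have A3 : G.Adj v c → G.Adj v e ∨ G.Adj v a := fun h => by
    rcases h2 v c e a h h5 he ha n3 n1.symm with x | x | x | x
    · exact Or.inl x
    · exact Or.inr x
    · exact absurd x m3
    · exact absurd x m1'
  have A4 : G.Adj v d → G.Adj v a ∨ G.Adj v b := fun h => by
    rcases h2 v d a b h h1 ha hb n4 n2.symm with x | x | x | x
    · exact Or.inl x
    · exact Or.inr x
    · exact absurd x m4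
    · exact absurd x m2'
  have A5 : G.Adj v e → G.Adj v b ∨ G.Adj v c := fun h => by
    rcases h2 v e b c h h2' hb hc n5 n3.symm with x | x | x | x
    · exact Or.inl x
    · exact Or.inr x
    · exact absurd x m5
    · exact absurd x m3'
  have B1 : G.Adj v a → G.Adj v c → G.Adj v b := fun x y => by
    rcases h4 v a b c x h1 h2' y.symm hb n1 with z | z
    · exact z
    · exact absurd z m1
  have B2 : G.Adj v b → G.Adj v d → G.Adj v c := fun x y => by
    rcases h4 v b c d x h2' h3 y.symm hc n2 with z | z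
    · exact z
    · exact absurd z m2
  have B3 : G.Adj v c → G.Adj v e → G.Adj v d := fun x y => by
    rcases h4 v c d e x h3 h4' y.symm hd n3 with z | z
    · exact z
    · exact absurd z m3
  have B4 : G.Adj v d → G.Adj v a → G.Adj v e := fun x y => by
    rcases h4 v d e a x h4' h5 y.symm he n4 with z | z
    · exact z
    · exact absurd z m4
  have B5 : G.Adj v e → G.Adj v b → G.Adj v a := fun x y => by
    rcases h4 v e a b x h5 h1 y.symm ha n5 with z | z
    · exact z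
    · exact absurd z m5
  by_cases a1 : G.Adj v a
  · left
    rcases A1 a1 with a3 | a4
    · have a2 := B1 a1 a3
      rcases A2 a2 with a4 | a5
      · exact ⟨a1, a2, a3, a4, B4 a4 a1⟩
      · exact ⟨a1, a2, a3, B3 a3 a5, a5⟩
    · have a5 := B4 a4 a1
      rcases A5 a5 with a2 | a3
      · exact ⟨a1, a2, B2 a2 a4, a4, a5⟩
      · exact ⟨a1, B1 a1 a3, a3, a4, a5⟩
  · right
    have a5 : ¬ (G.Adj v e ∧ G.Adj v b) := fun x => a1 (B5 x.1 x.2)
    by_cases a3 : G.Adj v c
    · rcases A3 a3 with x | x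
      · rcases A5 x with y | y
        · exact absurd ⟨x, y⟩ a5
        · have z := B3 a3 x
          rcases A4 z with w | w
          · exact absurd w a1
          · exact absurd ⟨x, w⟩ a5
      · exact absurd x a1
    · by_cases a2 : G.Adj v b
      · rcases A2 a2 with x | x
        · exact absurd (B2 a2 x) a3
        · exact absurd ⟨x, a2⟩ a5
      · refine ⟨a1, a2, a3, fun x => ?_, fun x => ?_⟩
        · rcases A4 x with y | y
          · exact a1 y
          · exact a2 y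
        · rcases A5 x with y | y
          · exact a2 y
          · exact a3 y

theorem c5_clique {G : SimpleGraph V} (h4 : N4 G) {a b c d e : V}
    (h : IsC5 G a b c d e) (v w : V) (hvw : v ≠ w) (h1 : G.Adj v a) (h2 : G.Adj v c)
    (h3 : G.Adj w a) (h5 : G.Adj w c) : G.Adj v w := by
  obtain ⟨-, -, -, -, -, n1, -, -, -, -, m1, -⟩ := h
  rcases h4 v a w c h1 h3.symm h5 h2.symm hvw n1 with x | x
  · exact x
  · exact absurd x m1

theorem c5_indep {G : SimpleGraph V} (h2 : N2 G) {a b c d e : V}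
    (h : IsC5 G a b c d e) (v w : V) (hva : v ≠ a) (hvb : v ≠ b) (hwa : w ≠ a) (hwb : w ≠ b)
    (h1 : ¬ G.Adj v a) (h3 : ¬ G.Adj v b)
    (h4 : ¬ G.Adj w a) (h5 : ¬ G.Adj w b) : ¬ G.Adj v w := by
  intro hvw
  rcases h2 v w a b hvw h.1 hva hvb hwa hwb with x | x | x | x <;> contradiction

end Pool.Agent.W958
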