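import Pool.Agent.W958.KCorr

/-!
# The polynomial-time test for `{C₄, 2K₂}`-free edge editing
-/

set_option autoImplicit false

namespace Pool.Agent.W958

open Pool.Agent.NPC Pool.Agent.H633R2 Finset

/-- the candidates for the five-cycle -/
def cands (n : ℕ) : List (List ℕ × List (ℕ × ℕ)) :=
  ([], []) :: (List.range n).flatMap fun a => (List.range n).flatMap fun b =>
    (List.range n).flatMap fun c => (List.range n).flatMap fun d =>
      (List.range n).flatMap fun e =>
        if (a ≠ b ∧ a ≠ c ∧ a ≠ d ∧ a ≠ e ∧ b ≠ c ∧ b ≠ d ∧ b ≠ e ∧ c ≠ d ∧ c ≠ e ∧ d ≠ e) then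
          [([a, b, c, d, e], [(a, b), (b, c), (c, d), (d, e), (e, a)])] else []

/-- the test -/
def test (x : List (List Bool) × ℕ) : Bool :=
  (cands x.1.length).any fun ce =>
    ((false, 0) :: (List.range x.1.length).map (fun θ => (true, θ))).any fun bt =>
      decide (cost2 x.1.length (adjB x.1) ce.1 ce.2 (kap x.1.length (adjB x.1) ce.1 bt) ≤ 2 * x.2)

theorem mem_cands {n : ℕ} {ce : List ℕ × List (ℕ × ℕ)} : ce ∈ cands n ↔ ce = ([], []) ∨
    ∃ a b c d e, a < n ∧ b < n ∧ c < n ∧ d < n ∧ e < n ∧
      (a ≠ b ∧ a ≠ c ∧ a ≠ d ∧ a ≠ e ∧ b ≠ c ∧ b ≠ d ∧ b ≠ e ∧ c ≠ d ∧ c ≠ e ∧ d ≠ e) ∧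
      ce = ([a, b, c, d, e], [(a, b), (b, c), (c, d), (d, e), (e, a)]) := by
  unfold cands
  rw [List.mem_cons]
  refine or_congr Iff.rfl ?_
  simp only [List.mem_flatMap, List.mem_range]
  constructor
  · rintro ⟨a, ha, b, hb, c, hc, d, hd, e, he, h⟩
    split_ifs at h with hne
    · rw [List.mem_singleton] at h
      exact ⟨a, b, c, d, e, ha, hb, hc, hd, he, hne, h⟩
    · simp at h
  · rintro ⟨a, b, c, d, e, ha, hb, hc, hd, he, hne, h⟩
    refine ⟨a, ha, b, hb, c, hc, d, hd, e, he, ?_⟩
    rw [if_pos hne, h]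
    simp

/-- the edges of the five-cycle through the vertices of `c` -/
theorem cyc_edges (v : Fin 5 → ℕ) (hv : Function.Injective v) (s t : Fin 5) :
    (((v s, v t) ∈ [(v 0, v 1), (v 1, v 2), (v 2, v 3), (v 3, v 4), (v 4, v 0)]) ∨
      ((v t, v s) ∈ [(v 0, v 1), (v 1, v 2), (v 2, v 3), (v 3, v 4), (v 4, v 0)])) ↔
      c5a s t = true := by
  simp only [List.mem_cons, Prod.mk.injEq, hv.eq_iff, List.not_mem_nil, or_false]
  revert s t
  decide

theorem mism_symm (A : ℕ → ℕ → Bool) (hs : ∀ i j, A i j = A j i) (c : List ℕ)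
    (e : List (ℕ × ℕ)) (κ : ℕ → Bool) (i j : ℕ) : mism A c e κ i j = mism A c e κ j i := by
  unfold mism
  by_cases hij : i = j
  · subst hij; rfl
  · have hji : ¬ j = i := fun h => hij h.symm
    rw [if_neg hij, if_neg hji]
    by_cases hi : i ∈ c
    · by_cases hj : j ∈ c
      · simp only [hi, hj, if_true]
        rw [hs i j]
        congr 1
        exact decide_eq_decide.2 or_comm
      · simp only [hi, hj, if_true, if_false]
        rw [hs i j]
    · by_cases hj : j ∈ c
      · simp only [hi, hj, if_true, if_false]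
        rw [hs i j]
      · simp only [hi, hj, if_false]
        rw [hs i j]
        by_cases hk : κ i = κ j
        · rw [if_pos hk, if_pos hk.symm, hk]
        · rw [if_neg hk, if_neg (fun h => hk h.symm)]

/-- the edited graph -/
def edited (M : List (List Bool)) (c : List ℕ) (e : List (ℕ × ℕ)) (κ : ℕ → Bool) :
    SimpleGraph (Fin M.length) where
  Adj i j := i ≠ j ∧ xor (adjB M i j) (mism (adjB M) c e κ i j) = true
  symm := ⟨fun i j h => ⟨h.1.symm, by
    rw [adjB_symm M j i, mism_symm (adjB M) (adjB_symm M) c e κ j i]; exact h.2⟩⟩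
  loopless := ⟨fun _ h => h.1 rfl⟩

theorem edited_adj (M : List (List Bool)) (c : List ℕ) (e : List (ℕ × ℕ)) (κ : ℕ → Bool)
    (i j : Fin M.length) : (edited M c e κ).Adj i j ↔
      (i ≠ j ∧ xor (adjB M i j) (mism (adjB M) c e κ i j) = true) := Iff.rfl

theorem edited_ncard (M : List (List Bool)) (c : List ℕ) (e : List (ℕ × ℕ)) (κ : ℕ → Bool) :
    2 * (symmDiff (graphOf M).edgeSet (edited M c e κ).edgeSet).ncard =
      cost2 M.length (adjB M) c e κ := by
  classical
  rw [two_mul_ncard]
  zify
  rw [cost2_eq, Finset.sum_range]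
  refine Finset.sum_congr rfl fun i _ => ?_
  rw [Finset.sum_range]
  push_cast
  refine Finset.sum_congr rfl fun j _ => ?_
  simp only [graphOf_adj, edited_adj]
  by_cases hij : i = j
  · subst hij
    rw [adjB_self]
    simp [mism, bv]
  · have hij' : (i : ℕ) ≠ j := fun h => hij (Fin.ext h)
    cases h1 : adjB M i j <;> cases h2 : mism (adjB M) c e κ i j <;> simp [hij, bv]

theorem edited_ps (M : List (List Bool)) (c : List ℕ) (e : List (ℕ × ℕ)) (κ : ℕ → Bool)
    (h : (c, e) ∈ cands M.length) :
    PS (edited M c e κ) {i | (i : ℕ) ∈ c} {i | κ i = true} := by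
  have hadj : ∀ i j : Fin M.length, (edited M c e κ).Adj i j ↔
      (i ≠ j ∧ xor (adjB M i j) (mism (adjB M) c e κ i j) = true) := fun _ _ => Iff.rfl
  have hne : ∀ i j : Fin M.length, i ≠ j → (i : ℕ) ≠ j := fun i j h h' => h (Fin.ext h')
  refine ⟨?_, ?_, ?_, ?_⟩
  · rcases mem_cands.1 h with h | ⟨a, b, c', d, e', ha, hb, hc, hd, he, hn, h⟩
    · left
      rw [Prod.mk.injEq] at h
      rw [h.1]
      ext i
      simp
    · right
      rw [Prod.mk.injEq] at h
      obtain ⟨n1, n2, n3, n4, n5, n6, n7, n8, n9, n10⟩ := hn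
      set f : Fin 5 → Fin M.length := ![⟨a, ha⟩, ⟨b, hb⟩, ⟨c', hc⟩, ⟨d, hd⟩, ⟨e', he⟩] with hf
      have hinj : Function.Injective f := by
        intro i j
        revert i j
        simp only [hf, Fin.forall_fin_succ]
        simp [n1, n2, n3, n4, n5, n6, n7, n8, n9, n10, n1.symm, n2.symm, n3.symm, n4.symm,
          n5.symm, n6.symm, n7.symm, n8.symm, n9.symm, n10.symm]
      have hc' : c = [(f 0 : ℕ), (f 1 : ℕ), (f 2 : ℕ), (f 3 : ℕ), (f 4 : ℕ)] := by
        rw [h.1]; rfl
      have he' : e = [((f 0 : ℕ), (f 1 : ℕ)), ((f 1 : ℕ), (f 2 : ℕ)), ((f 2 : ℕ), (f 3 : ℕ)),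
          ((f 3 : ℕ), (f 4 : ℕ)), ((f 4 : ℕ), (f 0 : ℕ))] := by
        rw [h.2]; rfl
      have hmem : ∀ s, (f s : ℕ) ∈ c := by
        intro s
        rw [hc']
        fin_cases s <;> simp
      refine ⟨f, hinj, ?_, ?_⟩
      · ext i
        simp only [Set.mem_ofPred_eq, Set.mem_range]
        rw [hc']
        simp only [List.mem_cons, List.not_mem_nil, or_false]
        constructor
        · rintro (h | h | h | h | h)
          · exact ⟨0, Fin.ext h.symm⟩
          · exact ⟨1, Fin.ext h.symm⟩
          · exact ⟨2, Fin.ext h.symm⟩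
          · exact ⟨3, Fin.ext h.symm⟩
          · exact ⟨4, Fin.ext h.symm⟩
        · rintro ⟨s, rfl⟩
          fin_cases s <;> simp
      · intro s t
        have hvi : Function.Injective (fun s => (f s : ℕ)) := fun s t h => hinj (Fin.ext h)
        rw [hadj]
        by_cases hst : s = t
        · subst hst
          simp
          revert s
          decide
        · have h1 : f s ≠ f t := fun h => hst (hinj h)
          rw [← cyc_edges (fun s => (f s : ℕ)) hvi s t, ← he']
          unfold mism
          rw [if_neg (hne _ _ h1), if_pos (hmem s), if_pos (hmem t)]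
          simp [h1]
  · intro i hi j hj
    have hij : i ≠ j := fun h => hj (h ▸ hi)
    change (i : ℕ) ∈ c at hi
    change ¬ (j : ℕ) ∈ c at hj
    change _ ↔ κ j = true
    rw [hadj]
    unfold mism
    rw [if_neg (hne _ _ hij), if_pos hi, if_neg hj]
    simp [hij]
  · intro i hi j hj hi' hj' hij
    change ¬ (i : ℕ) ∈ c at hi
    change ¬ (j : ℕ) ∈ c at hj
    change κ i = true at hi'
    change κ j = true at hj'
    rw [hadj]
    unfold mism
    rw [if_neg (hne _ _ hij), if_neg hi, if_neg hj, if_pos (hi'.trans hj'.symm), hi']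
    simp [hij]
  · intro i hi j hj hi' hj' hadj'
    change ¬ (i : ℕ) ∈ c at hi
    change ¬ (j : ℕ) ∈ c at hj
    have hi2 : κ i = false := by simpa using hi'
    have hj2 : κ j = false := by simpa using hj'
    rw [hadj] at hadj'
    obtain ⟨hij, h⟩ := hadj'
    unfold mism at h
    rw [if_neg (hne _ _ hij), if_neg hi, if_neg hj, if_pos (hi2.trans hj2.symm), hi2] at h
    simp at h

theorem test_sound {x : List (List Bool) × ℕ} (h : test x = true) : Editing {C4, twoK2} x := by
  unfold test at h
  rw [List.any_eq_true] at h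
  obtain ⟨⟨c, e⟩, hce, h⟩ := h
  rw [List.any_eq_true] at h
  obtain ⟨bt, -, h⟩ := h
  rw [decide_eq_true_eq] at h
  have hps := edited_ps x.1 c e (kap x.1.length (adjB x.1) c bt) hce
  refine ⟨edited x.1 c e (kap x.1.length (adjB x.1) c bt), ?_, ?_⟩
  · intro H hH
    rcases hH with rfl | rfl
    · rw [iFree_C4, ← n4_iff]
      exact hps.n4
    · rw [iFree_twoK2, ← n2_iff]
      exact hps.n2
  · have := edited_ncard x.1 c e (kap x.1.length (adjB x.1) c bt)
    simp only at h
    omega

theorem test_complete {x : List (List Bool) × ℕ} (h : Editing {C4, twoK2} x) : test x = true := by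
  classical
  obtain ⟨M, k⟩ := x
  obtain ⟨G', hfree, hk⟩ := h
  simp only at G' hfree hk
  have h4 : N4 G' := by rw [n4_iff, ← iFree_C4]; exact hfree C4 (by simp)
  have h2 : N2 G' := by rw [n2_iff, ← iFree_twoK2]; exact hfree twoK2 (by simp)
  obtain ⟨C, K, hps, hCK⟩ := ps_of_free h4 h2
  -- a candidate for the cycle
  set κ : ℕ → Bool := fun i => decide (∃ h : i < M.length, (⟨i, h⟩ : Fin M.length) ∈ K) with hκ
  have hκ' : ∀ i : Fin M.length, κ i = true ↔ i ∈ K := by
    intro i
    simp [hκ]
  have hce : ∃ c e, (c, e) ∈ cands M.length ∧ c.Nodup ∧ (∀ i ∈ c, i < M.length) ∧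
      (∀ i : Fin M.length, (i : ℕ) ∈ c ↔ i ∈ C) ∧
      (∀ i ∈ C, ∀ j ∈ C, (((i : ℕ), (j : ℕ)) ∈ e ∨ ((j : ℕ), (i : ℕ)) ∈ e) ↔ G'.Adj i j) := by
    rcases hps.cc with h0 | ⟨f, hf, hC, hadj⟩
    · refine ⟨[], [], ?_, ?_, ?_, ?_, ?_⟩
      · rw [mem_cands]; exact Or.inl rfl
      · exact List.nodup_nil
      · simp
      · intro i; simp [h0]
      · intro i hi; rw [h0] at hi; exact absurd hi (Set.notMem_empty _)
    · have hvi : Function.Injective (fun s => (f s : ℕ)) := fun s t h => hf (Fin.ext h)
      have hn : ∀ s t : Fin 5, s ≠ t → (f s : ℕ) ≠ f t := fun s t h h' => h (hvi h')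
      refine ⟨[(f 0 : ℕ), (f 1 : ℕ), (f 2 : ℕ), (f 3 : ℕ), (f 4 : ℕ)],
        [((f 0 : ℕ), (f 1 : ℕ)), ((f 1 : ℕ), (f 2 : ℕ)), ((f 2 : ℕ), (f 3 : ℕ)),
          ((f 3 : ℕ), (f 4 : ℕ)), ((f 4 : ℕ), (f 0 : ℕ))], ?_, ?_, ?_, ?_, ?_⟩
      · rw [mem_cands]
        right
        exact ⟨f 0, f 1, f 2, f 3, f 4, (f 0).2, (f 1).2, (f 2).2, (f 3).2, (f 4).2,
          ⟨hn _ _ (by decide), hn _ _ (by decide), hn _ _ (by decide), hn _ _ (by decide),
            hn _ _ (by decide), hn _ _ (by decide), hn _ _ (by decide), hn _ _ (by decide),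
            hn _ _ (by decide), hn _ _ (by decide)⟩, rfl⟩
      · have : [(f 0 : ℕ), (f 1 : ℕ), (f 2 : ℕ), (f 3 : ℕ), (f 4 : ℕ)] =
            [(0 : Fin 5), 1, 2, 3, 4].map (fun s => (f s : ℕ)) := rfl
        rw [this]
        exact List.Nodup.map hvi (by decide)
      · intro i hi
        simp only [List.mem_cons, List.not_mem_nil, or_false] at hi
        rcases hi with rfl | rfl | rfl | rfl | rfl <;> exact Fin.is_lt _
      · intro i
        rw [hC]
        simp only [List.mem_cons, List.not_mem_nil, or_false, Set.mem_range]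
        constructor
        · rintro (h | h | h | h | h)
          · exact ⟨0, Fin.ext h.symm⟩
          · exact ⟨1, Fin.ext h.symm⟩
          · exact ⟨2, Fin.ext h.symm⟩
          · exact ⟨3, Fin.ext h.symm⟩
          · exact ⟨4, Fin.ext h.symm⟩
        · rintro ⟨s, rfl⟩
          fin_cases s <;> simp
      · intro i hi j hj
        rw [hC] at hi hj
        obtain ⟨s, rfl⟩ := hi
        obtain ⟨t, rfl⟩ := hj
        rw [hadj]
        exact cyc_edges (fun s => (f s : ℕ)) hvi s t
  obtain ⟨c, e, hmem, hnd, hcn, hcC, hcadj⟩ := hce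
  have hκc : ∀ i ∈ c, κ i = false := by
    intro i hi
    have h1 := hcn i hi
    have h3 : (⟨i, h1⟩ : Fin M.length) ∈ C := (hcC _).1 hi
    by_contra h5
    have h6 : (⟨i, h1⟩ : Fin M.length) ∈ K := (hκ' ⟨i, h1⟩).1 (by simpa using h5)
    exact absurd (Set.mem_inter h3 h6) (by rw [hCK]; exact Set.notMem_empty _)
  -- the cost
  have hcost : cost2 M.length (adjB M) c e κ ≤ 2 * k := by
    refine le_trans ?_ (Nat.mul_le_mul_left 2 hk)
    rw [two_mul_ncard]
    zify
    rw [cost2_eq, Finset.sum_range]
    refine Finset.sum_le_sum fun i _ => ?_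
    rw [Finset.sum_range]
    push_cast
    refine Finset.sum_le_sum fun j _ => ?_
    by_cases hm : mism (adjB M) c e κ i j = true
    · rw [hm]
      have : ¬ ((graphOf M).Adj i j ↔ G'.Adj i j) := by
        rw [graphOf_adj]
        intro hiff
        unfold mism at hm
        by_cases hij : (i : ℕ) = j
        · rw [if_pos hij] at hm
          exact absurd hm (by decide)
        rw [if_neg hij] at hm
        have hij' : i ≠ j := fun h => hij (h ▸ rfl)
        by_cases hi : (i : ℕ) ∈ c
        · rw [if_pos hi] at hm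
          have hiC := (hcC i).1 hi
          by_cases hj : (j : ℕ) ∈ c
          · rw [if_pos hj] at hm
            have h5 := hcadj i hiC j ((hcC j).1 hj)
            rw [← hiff] at h5
            cases h6 : adjB M i j
            · rw [h6] at hm h5
              simp only [Bool.false_bne, decide_eq_true_eq] at hm
              exact absurd (h5.1 hm) (by decide)
            · rw [h6] at hm h5
              have := h5.2 rfl
              simp [this] at hm
          · rw [if_neg hj] at hm
            have h5 := hps.ck i hiC j (fun h => hj ((hcC j).2 h))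
            rw [← hκ', ← hiff] at h5
            cases h6 : adjB M i j <;> cases h7 : κ j <;> rw [h6, h7] at hm h5 <;> simp at hm h5
        · rw [if_neg hi] at hm
          have hiC : i ∉ C := fun h => hi ((hcC i).2 h)
          by_cases hj : (j : ℕ) ∈ c
          · rw [if_pos hj] at hm
            have h5 := hps.ck j ((hcC j).1 hj) i hiC
            rw [← hκ', SimpleGraph.adj_comm, ← hiff] at h5
            cases h6 : adjB M i j <;> cases h7 : κ i <;> rw [h6, h7] at hm h5 <;> simp at hm h5
          · rw [if_neg hj] at hm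
            have hjC : j ∉ C := fun h => hj ((hcC j).2 h)
            by_cases hκij : κ i = κ j
            · rw [if_pos hκij] at hm
              cases h7 : κ i
              · have h8 : κ j = false := hκij.symm.trans h7
                have h5 := hps.ii i hiC j hjC (fun h => by rw [← hκ', h7] at h; exact absurd h (by decide))
                  (fun h => by rw [← hκ', h8] at h; exact absurd h (by decide))
                rw [← hiff] at h5
                rw [h7] at hm
                simp at hm
                exact h5 hm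
              · have h8 : κ j = true := hκij.symm.trans h7
                have h5 := hps.kk i hiC j hjC ((hκ' i).1 h7) ((hκ' j).1 h8) hij'
                rw [← hiff] at h5
                rw [h7, h5] at hm
                simp at hm
            · rw [if_neg hκij] at hm
              exact absurd hm (by decide)
      rw [if_neg this]
      simp [bv]
    · have : mism (adjB M) c e κ i j = false := by simpa using hm
      rw [this]
      simp only [bv, Bool.false_eq_true, if_false]
      split_ifs <;> simp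
  obtain ⟨bt, hbt, hle⟩ := opt M.length (adjB M) (adjB_self M) (adjB_symm M) c hnd hcn e κ hκc
  unfold test
  rw [List.any_eq_true]
  refine ⟨(c, e), hmem, ?_⟩
  rw [List.any_eq_true]
  refine ⟨bt, ?_, ?_⟩
  · rcases hbt with rfl | ⟨h1, h3⟩
    · simp
    · rw [List.mem_cons]
      right
      rw [List.mem_map]
      refine ⟨bt.2, List.mem_range.2 h3, ?_⟩
      rw [← h1]
  · rw [decide_eq_true_eq]
    exact hle.trans hcost

theorem test_iff (x : List (List Bool) × ℕ) : test x = true ↔ Editing {C4, twoK2} x :=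
  ⟨test_sound, test_complete⟩

end Pool.Agent.W958
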